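import Pool.Agent.H221Z.CVDefs

set_option autoImplicit false

namespace Pool.Agent.H221Z.CV

open Matrix Quaternion

section generic
variable {R : Type*} [CommRing R]

/-- The quaternion attached to a matrix. -/
def quat (A : Matrix (Fin 3) (Fin 3) R) : ℍ[R] :=
  ⟨1 + A 0 0 + A 1 1 + A 2 2, A 2 1 - A 1 2, A 0 2 - A 2 0, A 1 0 - A 0 1⟩

/-- The unnormalised rotation matrix of a quaternion. -/
def rotM (q : ℍ[R]) : Matrix (Fin 3) (Fin 3) R :=
  !![q.re ^ 2 + q.imI ^ 2 - q.imJ ^ 2 - q.imK ^ 2, 2 * (q.imI * q.imJ - q.re * q.imK),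
      2 * (q.imI * q.imK + q.re * q.imJ);
    2 * (q.imI * q.imJ + q.re * q.imK), q.re ^ 2 - q.imI ^ 2 + q.imJ ^ 2 - q.imK ^ 2,
      2 * (q.imJ * q.imK - q.re * q.imI);
    2 * (q.imI * q.imK - q.re * q.imJ), 2 * (q.imJ * q.imK + q.re * q.imI),
      q.re ^ 2 - q.imI ^ 2 - q.imJ ^ 2 + q.imK ^ 2]

/-- The norm form. -/
def nrm (q : ℍ[R]) : R := q.re ^ 2 + q.imI ^ 2 + q.imJ ^ 2 + q.imK ^ 2

theorem nrm_mul (p q : ℍ[R]) : nrm (p * q) = nrm p * nrm q := by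
  simp [nrm]; ring

theorem rotM_mul (p q : ℍ[R]) : rotM (p * q) = rotM p * rotM q := by
  ext i j
  fin_cases i <;> fin_cases j <;> simp [rotM, Matrix.mul_apply, Fin.sum_univ_three] <;> ring

theorem rotM_mul_transpose (q : ℍ[R]) : rotM q * (rotM q)ᵀ = (nrm q ^ 2) • 1 := by
  ext i j
  fin_cases i <;> fin_cases j <;> simp [rotM, nrm, Matrix.mul_apply, Fin.sum_univ_three] <;> ring

theorem rotM_det (q : ℍ[R]) : (rotM q).det = nrm q ^ 3 := by
  simp [rotM, nrm, Matrix.det_fin_three]; ring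

end generic

theorem nrm_eq (q : ℍ[ℝ]) : nrm q = normSq q := by
  simp [nrm, normSq_def']

theorem nrm_ne_zero {q : ℍ[ℝ]} (hq : q ≠ 0) : nrm q ≠ 0 := by
  rw [nrm_eq]; exact normSq_ne_zero.2 hq

theorem ne_zero_of_nrm {q : ℍ[ℝ]} (hq : nrm q ≠ 0) : q ≠ 0 := by
  rintro rfl; simp [nrm] at hq

/-- The normalised rotation matrix. -/
noncomputable def rotN (q : ℍ[ℝ]) : Matrix (Fin 3) (Fin 3) ℝ := (nrm q)⁻¹ • rotM q

theorem rotN_mul (p q : ℍ[ℝ]) : rotN (p * q) = rotN p * rotN q := by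
  simp only [rotN, nrm_mul, rotM_mul, mul_inv, Matrix.smul_mul, Matrix.mul_smul, smul_smul]
  rw [mul_comm]

theorem rotN_one : rotN 1 = 1 := by
  ext i j
  fin_cases i <;> fin_cases j <;> simp [rotN, rotM, nrm]

theorem mem_SO3_iff (A : Matrix (Fin 3) (Fin 3) ℝ) :
    A ∈ Matrix.specialOrthogonalGroup (Fin 3) ℝ ↔ A * Aᵀ = 1 ∧ A.det = 1 := by
  rw [Matrix.mem_specialOrthogonalGroup_iff, Matrix.mem_orthogonalGroup_iff]

theorem rotN_mem {q : ℍ[ℝ]} (hq : q ≠ 0) : rotN q ∈ Matrix.specialOrthogonalGroup (Fin 3) ℝ := by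
  have h := nrm_ne_zero hq
  rw [mem_SO3_iff]
  constructor
  · simp only [rotN, Matrix.transpose_smul, Matrix.smul_mul, Matrix.mul_smul, smul_smul,
      rotM_mul_transpose]
    have : (nrm q)⁻¹ * ((nrm q)⁻¹ * nrm q ^ 2) = 1 := by field_simp
    rw [this, one_smul]
  · simp only [rotN, Matrix.det_smul, rotM_det, Fintype.card_fin]
    field_simp

open Classical in
/-- The rotation of a nonzero quaternion. -/
noncomputable def rot (q : ℍ[ℝ]) : SO3 := if h : q = 0 then 1 else ⟨rotN q, rotN_mem h⟩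

theorem rot_val {q : ℍ[ℝ]} (hq : q ≠ 0) : (rot q).1 = rotN q := by
  simp [rot, hq]

theorem rot_mul {p q : ℍ[ℝ]} (hp : p ≠ 0) (hq : q ≠ 0) : rot (p * q) = rot p * rot q := by
  apply Subtype.ext
  rw [Submonoid.coe_mul, rot_val hp, rot_val hq, rot_val (mul_ne_zero hp hq), rotN_mul]

theorem rot_one : rot 1 = 1 := by
  apply Subtype.ext
  rw [rot_val one_ne_zero, rotN_one]; rfl

theorem rot_inv {q : ℍ[ℝ]} (hq : q ≠ 0) : rot q⁻¹ = (rot q)⁻¹ := by
  apply eq_inv_of_mul_eq_one_right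
  rw [← rot_mul hq (inv_ne_zero hq), mul_inv_cancel₀ hq, rot_one]

theorem rot_eq_one_iff {q : ℍ[ℝ]} (hq : q ≠ 0) :
    rot q = 1 ↔ q.imI = 0 ∧ q.imJ = 0 ∧ q.imK = 0 := by
  have h := nrm_ne_zero hq
  constructor
  · intro h1
    have h2 : rotN q = 1 := by rw [← rot_val hq, h1]; rfl
    have e0 := congrFun (congrFun h2 0) 0
    have e1 := congrFun (congrFun h2 1) 1
    have e2 := congrFun (congrFun h2 2) 2
    simp [rotN, rotM] at e0 e1 e2
    field_simp at e0 e1 e2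
    simp only [nrm] at e0 e1 e2
    refine ⟨?_, ?_, ?_⟩ <;> apply pow_eq_zero_iff (two_ne_zero) |>.1 <;> linarith
  · rintro ⟨h1, h2, h3⟩
    apply Subtype.ext
    rw [rot_val hq]
    have : q.re ≠ 0 := by
      intro h0; apply h; simp [nrm, h0, h1, h2, h3]
    ext i j
    fin_cases i <;> fin_cases j <;> simp [rotN, rotM, nrm, h1, h2, h3, this]

theorem SO3_rel (A : SO3) : A.1 * A.1ᵀ = 1 ∧ A.1ᵀ * A.1 = 1 ∧ A.1.adjugate = A.1ᵀ := by
  obtain ⟨h1, h2⟩ := (mem_SO3_iff A.1).1 A.2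
  have h3 : A.1ᵀ * A.1 = 1 := mul_eq_one_comm.1 h1
  refine ⟨h1, h3, ?_⟩
  have h4 := Matrix.adjugate_mul A.1
  rw [h2, one_smul] at h4
  calc A.1.adjugate = A.1.adjugate * (A.1 * A.1ᵀ) := by rw [h1, mul_one]
    _ = A.1ᵀ := by rw [← mul_assoc, h4, one_mul]

theorem quat_spec (A : SO3) :
    nrm (quat A.1) = 4 * (quat A.1).re ∧ rotM (quat A.1) = (4 * (quat A.1).re) • A.1 := by
  obtain ⟨h1, h2, h3⟩ := SO3_rel A
  set M := A.1
  have a00 := congrFun (congrFun h1 0) 0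
  have a01 := congrFun (congrFun h1 0) 1
  have a02 := congrFun (congrFun h1 0) 2
  have a11 := congrFun (congrFun h1 1) 1
  have a12 := congrFun (congrFun h1 1) 2
  have a22 := congrFun (congrFun h1 2) 2
  have b00 := congrFun (congrFun h2 0) 0
  have b01 := congrFun (congrFun h2 0) 1
  have b02 := congrFun (congrFun h2 0) 2
  have b11 := congrFun (congrFun h2 1) 1
  have b12 := congrFun (congrFun h2 1) 2
  have b22 := congrFun (congrFun h2 2) 2
  have c00 := congrFun (congrFun h3 0) 0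
  have c01 := congrFun (congrFun h3 0) 1
  have c02 := congrFun (congrFun h3 0) 2
  have c10 := congrFun (congrFun h3 1) 0
  have c11 := congrFun (congrFun h3 1) 1
  have c12 := congrFun (congrFun h3 1) 2
  have c20 := congrFun (congrFun h3 2) 0
  have c21 := congrFun (congrFun h3 2) 1
  have c22 := congrFun (congrFun h3 2) 2
  simp [Matrix.mul_apply, Fin.sum_univ_three, Matrix.adjugate_fin_three] at a00 a01 a02 a11 a12 a22 b00 b01 b02 b11 b12 b22 c00 c01 c02 c10 c11 c12 c20 c21 c22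
  constructor
  · simp only [nrm, quat]; linarith
  · ext i j
    fin_cases i <;> fin_cases j <;> simp [rotM, quat] <;> linarith

theorem rot_quat (A : SO3) (h : (quat A.1).re ≠ 0) : rot (quat A.1) = A := by
  obtain ⟨h1, h2⟩ := quat_spec A
  have hq : quat A.1 ≠ 0 := by
    intro h0; rw [h0] at h; simp at h
  apply Subtype.ext
  rw [rot_val hq, rotN, h1, h2, smul_smul, inv_mul_cancel₀ (by simpa using h), one_smul]

theorem exists_lift (g : SO3) : ∃ p : ℍ[ℝ], p ≠ 0 ∧ rot p = g := by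
  have key : ∀ d : ℍ[ℝ], d ≠ 0 → (quat (g * rot d).1).re ≠ 0 → ∃ p : ℍ[ℝ], p ≠ 0 ∧ rot p = g := by
    intro d hd h
    have hq : quat (g * rot d).1 ≠ 0 := by
      intro h0; rw [h0] at h; simp at h
    refine ⟨quat (g * rot d).1 * d⁻¹, mul_ne_zero hq (inv_ne_zero hd), ?_⟩
    rw [rot_mul hq (inv_ne_zero hd), rot_quat _ h, rot_inv hd, mul_inv_cancel_right]
  have n1 : (⟨1, 0, 0, 0⟩ : ℍ[ℝ]) ≠ 0 := ne_zero_of_nrm (by simp [nrm])
  have n2 : (⟨0, 1, 0, 0⟩ : ℍ[ℝ]) ≠ 0 := ne_zero_of_nrm (by simp [nrm])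
  have n3 : (⟨0, 0, 1, 0⟩ : ℍ[ℝ]) ≠ 0 := ne_zero_of_nrm (by simp [nrm])
  have n4 : (⟨0, 0, 0, 1⟩ : ℍ[ℝ]) ≠ 0 := ne_zero_of_nrm (by simp [nrm])
  by_contra hcon
  have k1 := mt (key _ n1) hcon
  have k2 := mt (key _ n2) hcon
  have k3 := mt (key _ n3) hcon
  have k4 := mt (key _ n4) hcon
  rw [not_not, Submonoid.coe_mul] at k1 k2 k3 k4
  rw [rot_val n1] at k1
  rw [rot_val n2] at k2
  rw [rot_val n3] at k3
  rw [rot_val n4] at k4
  simp [quat, rotN, rotM, nrm, Matrix.mul_apply, Fin.sum_univ_three] at k1 k2 k3 k4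
  linarith

end Pool.Agent.H221Z.CV
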