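import Pool.Agent.H221Z.CV1

set_option autoImplicit false

namespace Pool.Agent.H221Z.CV

open Matrix Quaternion

/-- Real three-space. -/
abbrev V : Type := Fin 3 → ℝ

/-- The quaternion 1 + a. -/
def qv (a : V) : ℍ[ℝ] := ⟨1, a 0, a 1, a 2⟩

@[simp] theorem qv_re (a : V) : (qv a).re = 1 := rfl
@[simp] theorem qv_imI (a : V) : (qv a).imI = a 0 := rfl
@[simp] theorem qv_imJ (a : V) : (qv a).imJ = a 1 := rfl
@[simp] theorem qv_imK (a : V) : (qv a).imK = a 2 := rfl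

theorem nrm_qv_pos (a : V) : 0 < nrm (qv a) := by
  simp only [nrm, qv]; positivity

theorem qv_ne_zero (a : V) : qv a ≠ 0 := ne_zero_of_nrm (nrm_qv_pos a).ne'

theorem qv_inj {a b : V} (h : qv a = qv b) : a = b := by
  have h1 := congrArg (fun q : ℍ[ℝ] => q.imI) h
  have h2 := congrArg (fun q : ℍ[ℝ] => q.imJ) h
  have h3 := congrArg (fun q : ℍ[ℝ] => q.imK) h
  simp only [qv] at h1 h2 h3
  ext i; fin_cases i <;> simpa

/-- The Cayley parameter of a rotation. -/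
noncomputable def cay (A : Matrix (Fin 3) (Fin 3) ℝ) : V :=
  ![(quat A).imI / (quat A).re, (quat A).imJ / (quat A).re, (quat A).imK / (quat A).re]

theorem quat_eq_smul (A : Matrix (Fin 3) (Fin 3) ℝ) (h : (quat A).re ≠ 0) :
    quat A = (quat A).re • qv (cay A) := by
  ext <;> simp [cay] <;> field_simp

theorem rot_smul {t : ℝ} (ht : t ≠ 0) {q : ℍ[ℝ]} (hq : q ≠ 0) : rot (t • q) = rot q := by
  have h := nrm_ne_zero hq
  apply Subtype.ext
  rw [rot_val hq, rot_val (smul_ne_zero ht hq)]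
  have h1 : nrm (t • q) = t ^ 2 * nrm q := by simp [nrm]; ring
  have h2 : rotM (t • q) = t ^ 2 • rotM q := by
    ext i j
    fin_cases i <;> fin_cases j <;> simp [rotM] <;> ring
  rw [rotN, rotN, h1, h2, smul_smul]
  congr 1
  field_simp

theorem rot_qv_cay (A : SO3) (h : (quat A.1).re ≠ 0) : rot (qv (cay A.1)) = A := by
  rw [← rot_smul h (qv_ne_zero _), ← quat_eq_smul _ h, rot_quat A h]

theorem quat_rotN_qv (a : V) : quat (rotN (qv a)) = (4 / nrm (qv a)) • qv a := by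
  have h := (nrm_qv_pos a).ne'
  ext <;> simp [quat, rotN, rotM] <;> field_simp <;> simp [nrm] <;> ring

theorem quat_rotN_qv_re (a : V) : (quat (rotN (qv a))).re ≠ 0 := by
  have h := (nrm_qv_pos a).ne'
  rw [quat_rotN_qv]; simp; exact h

theorem cay_rotN_qv (a : V) : cay (rotN (qv a)) = a := by
  have h := (nrm_qv_pos a).ne'
  rw [cay, quat_rotN_qv]
  ext i
  fin_cases i <;> simp <;> field_simp

theorem inv_eq_smul_star (p : ℍ[ℝ]) : p⁻¹ = (nrm p)⁻¹ • star p := by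
  rw [nrm_eq]; rfl

theorem conj_qv {p : ℍ[ℝ]} (hp : p ≠ 0) (a : V) :
    p * qv a * p⁻¹ = qv ((rot p).1 *ᵥ a) := by
  have h := nrm_ne_zero hp
  rw [rot_val hp, inv_eq_smul_star]
  ext <;> simp [rotN, rotM, dotProduct, Fin.sum_univ_three] <;>
    field_simp <;> (try simp only [nrm]) <;> ring

theorem SO3_conj_qv (g : SO3) (a : V) :
    g * rot (qv a) * g⁻¹ = rot (qv (g.1 *ᵥ a)) := by
  obtain ⟨p, hp, rfl⟩ := exists_lift g
  rw [← conj_qv hp, rot_mul (mul_ne_zero hp (qv_ne_zero a)) (inv_ne_zero hp),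
    rot_mul hp (qv_ne_zero a), rot_inv hp]

theorem dot_inv (g : SO3) (a b : V) : (g.1 *ᵥ a) ⬝ᵥ (g.1 *ᵥ b) = a ⬝ᵥ b := by
  rw [Matrix.dotProduct_mulVec, Matrix.vecMul_mulVec, (SO3_rel g).2.1, Matrix.vecMul_one]

theorem cross_equiv (g : SO3) (a b : V) : (g.1 *ᵥ a) ⨯₃ (g.1 *ᵥ b) = g.1 *ᵥ (a ⨯₃ b) := by
  obtain ⟨p, hp, rfl⟩ := exists_lift g
  have h := nrm_ne_zero hp
  rw [rot_val hp]
  ext i
  fin_cases i <;>
    simp [rotN, rotM, Matrix.mulVec, dotProduct, Fin.sum_univ_three, cross_apply] <;>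
    field_simp <;> simp only [nrm] <;> ring

theorem quat_re_conj (g A : SO3) : (quat (g * A * g⁻¹).1).re = (quat A.1).re := by
  have h1 : ∀ M : Matrix (Fin 3) (Fin 3) ℝ, (quat M).re = 1 + M.trace := by
    intro M; simp [quat, Matrix.trace_fin_three]; ring
  rw [h1, h1, Submonoid.coe_mul, Matrix.trace_mul_comm, ← Submonoid.coe_mul]
  congr 3
  group

theorem cay_conj (g A : SO3) (h : (quat A.1).re ≠ 0) :
    cay (g * A * g⁻¹).1 = g.1 *ᵥ cay A.1 := by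
  conv_lhs => rw [← rot_qv_cay A h, SO3_conj_qv, rot_val (qv_ne_zero _), cay_rotN_qv]

/-- Multiplicative commutator of quaternions. -/
noncomputable def comm (p q : ℍ[ℝ]) : ℍ[ℝ] := p * q * p⁻¹ * q⁻¹

theorem comm_ne_zero {p q : ℍ[ℝ]} (hp : p ≠ 0) (hq : q ≠ 0) : comm p q ≠ 0 :=
  mul_ne_zero (mul_ne_zero (mul_ne_zero hp hq) (inv_ne_zero hp)) (inv_ne_zero hq)

theorem rot_comm {p q : ℍ[ℝ]} (hp : p ≠ 0) (hq : q ≠ 0) :
    rot (comm p q) = rot p * rot q * (rot p)⁻¹ * (rot q)⁻¹ := by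
  rw [comm, rot_mul (mul_ne_zero (mul_ne_zero hp hq) (inv_ne_zero hp)) (inv_ne_zero hq),
    rot_mul (mul_ne_zero hp hq) (inv_ne_zero hp), rot_mul hp hq, rot_inv hp, rot_inv hq]

theorem nrm_inv (p : ℍ[ℝ]) : nrm p⁻¹ = (nrm p)⁻¹ := by
  rw [nrm_eq, nrm_eq, normSq_inv]

theorem nrm_comm {p q : ℍ[ℝ]} (hp : p ≠ 0) (hq : q ≠ 0) : nrm (comm p q) = 1 := by
  have := nrm_ne_zero hp
  have := nrm_ne_zero hq
  simp only [comm, nrm_mul, nrm_inv]
  field_simp

theorem comm_eq (p q : ℍ[ℝ]) :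
    comm p q = (nrm p * nrm q)⁻¹ • (p * q * star p * star q) := by
  simp only [comm, inv_eq_smul_star, mul_smul_comm, smul_mul_assoc, smul_smul, mul_inv]
  rw [mul_comm (nrm q)⁻¹]

theorem comm_smul {s t : ℝ} (hs : s ≠ 0) (ht : t ≠ 0) (p q : ℍ[ℝ]) :
    comm (s • p) (t • q) = comm p q := by
  simp only [comm, smul_inv₀, mul_smul_comm, smul_mul_assoc, smul_smul]
  have : t⁻¹ * (s⁻¹ * (t * s)) = 1 := by field_simp
  rw [this, one_smul]

theorem comm_conj {p : ℍ[ℝ]} (hp : p ≠ 0) (x y : ℍ[ℝ]) :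
    comm (p * x * p⁻¹) (p * y * p⁻¹) = p * comm x y * p⁻¹ := by
  simp only [comm, _root_.mul_inv_rev, inv_inv, mul_assoc, inv_mul_cancel_left₀ hp]

/-- The lifted surface relation. -/
noncomputable def K (a : Fin 4 → V) : ℍ[ℝ] :=
  comm (qv (a 0)) (qv (a 1)) * comm (qv (a 2)) (qv (a 3))

theorem K_ne_zero (a : Fin 4 → V) : K a ≠ 0 :=
  mul_ne_zero (comm_ne_zero (qv_ne_zero _) (qv_ne_zero _))
    (comm_ne_zero (qv_ne_zero _) (qv_ne_zero _))

theorem nrm_K (a : Fin 4 → V) : nrm (K a) = 1 := by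
  rw [K, nrm_mul, nrm_comm (qv_ne_zero _) (qv_ne_zero _), nrm_comm (qv_ne_zero _) (qv_ne_zero _),
    one_mul]

theorem rot_K (a : Fin 4 → V) : rot (K a) =
    (rot (qv (a 0)) * rot (qv (a 1)) * (rot (qv (a 0)))⁻¹ * (rot (qv (a 1)))⁻¹) *
    (rot (qv (a 2)) * rot (qv (a 3)) * (rot (qv (a 2)))⁻¹ * (rot (qv (a 3)))⁻¹) := by
  rw [K, rot_mul (comm_ne_zero (qv_ne_zero _) (qv_ne_zero _))
    (comm_ne_zero (qv_ne_zero _) (qv_ne_zero _)), rot_comm (qv_ne_zero _) (qv_ne_zero _),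
    rot_comm (qv_ne_zero _) (qv_ne_zero _)]

theorem K_act (g : SO3) (a : Fin 4 → V) (e : ℝ) (h : K a = (e : ℍ[ℝ])) :
    K (fun i => g.1 *ᵥ a i) = (e : ℍ[ℝ]) := by
  obtain ⟨p, hp, rfl⟩ := exists_lift g
  have : K (fun i => (rot p).1 *ᵥ a i) = p * K a * p⁻¹ := by
    simp only [K, ← conj_qv hp, comm_conj hp]
    simp only [mul_assoc, inv_mul_cancel_left₀ hp]
  rw [this, h, ← Quaternion.coe_commutes, mul_assoc, mul_inv_cancel₀ hp, mul_one]

theorem K_eq_of_rot (a : Fin 4 → V) {e : ℝ} (he : e ^ 2 = 1) (h : rot (K a) = 1)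
    (h2 : (K a).re + e ≠ 0) : K a = (e : ℍ[ℝ]) := by
  obtain ⟨h3, h4, h5⟩ := (rot_eq_one_iff (K_ne_zero a)).1 h
  have h6 := nrm_K a
  simp only [nrm, h3, h4, h5] at h6
  have h7 : ((K a).re - e) * ((K a).re + e) = 0 := by linear_combination h6 - he
  have h8 : (K a).re = e := by
    rcases mul_eq_zero.1 h7 with h | h
    · linarith
    · exact absurd h h2
  ext <;> simp [h3, h4, h5, h8]

theorem rot_K_of_eq (a : Fin 4 → V) {e : ℝ} (h : K a = (e : ℍ[ℝ])) : rot (K a) = 1 := by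
  rw [rot_eq_one_iff (K_ne_zero a), h]; simp

theorem K_eq_iff (a : Fin 4 → V) (e : ℝ) : K a = (e : ℍ[ℝ]) ↔
    qv (a 2) * qv (a 3) = (e • comm (qv (a 1)) (qv (a 0)) * qv (a 3)) * qv (a 2) := by
  have h0 := qv_ne_zero (a 0)
  have h1 := qv_ne_zero (a 1)
  have h2 := qv_ne_zero (a 2)
  have h3 := qv_ne_zero (a 3)
  have hc : comm (qv (a 1)) (qv (a 0)) * comm (qv (a 0)) (qv (a 1)) = 1 := by
    simp only [comm, mul_assoc, inv_mul_cancel_left₀ h0, inv_mul_cancel_left₀ h1,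
      mul_inv_cancel_left₀ h0, mul_inv_cancel₀ h1]
  have hc' : comm (qv (a 0)) (qv (a 1)) * comm (qv (a 1)) (qv (a 0)) = 1 := by
    simp only [comm, mul_assoc, inv_mul_cancel_left₀ h0, inv_mul_cancel_left₀ h1,
      mul_inv_cancel_left₀ h1, mul_inv_cancel₀ h0]
  have hd : comm (qv (a 2)) (qv (a 3)) * qv (a 3) * qv (a 2) = qv (a 2) * qv (a 3) := by
    simp only [comm, mul_assoc, inv_mul_cancel_left₀ h3, inv_mul_cancel₀ h2, mul_one]
  constructor
  · intro h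
    have : comm (qv (a 2)) (qv (a 3)) = e • comm (qv (a 1)) (qv (a 0)) := by
      calc comm (qv (a 2)) (qv (a 3))
          = comm (qv (a 1)) (qv (a 0)) * K a := by rw [K, ← mul_assoc, hc, one_mul]
        _ = e • comm (qv (a 1)) (qv (a 0)) := by rw [h, Quaternion.mul_coe_eq_smul]
    rw [← this, hd]
  · intro h
    rw [← hd] at h
    have := mul_right_cancel₀ h3 (mul_right_cancel₀ h2 h)
    rw [K, this, mul_smul_comm, hc']
    ext <;> simp

end Pool.Agent.H221Z.CV
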