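import Pool.Agent.H221Z.CV2

set_option autoImplicit false

namespace Pool.Agent.H221Z.CV

open Matrix Quaternion

/-- Solving the linear equation `(1 + a)(1 + b) = (1 + m)(1 + a)`, `a · b = τ` for `a`. -/
noncomputable def sol (b m : V) (τ : ℝ) : V :=
  ![((b + m) ⬝ᵥ (b + m))⁻¹ *
      ((b 1 + m 1) * (m 2 - b 2) - (b 2 + m 2) * (m 1 - b 1) + 2 * τ * (b 0 + m 0)),
    ((b + m) ⬝ᵥ (b + m))⁻¹ *
      ((b 2 + m 2) * (m 0 - b 0) - (b 0 + m 0) * (m 2 - b 2) + 2 * τ * (b 1 + m 1)),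
    ((b + m) ⬝ᵥ (b + m))⁻¹ *
      ((b 0 + m 0) * (m 1 - b 1) - (b 1 + m 1) * (m 0 - b 0) + 2 * τ * (b 2 + m 2))]

theorem sol_spec (b m : V) (τ : ℝ) (h : m ⬝ᵥ m = b ⬝ᵥ b) (hv : (b + m) ⬝ᵥ (b + m) ≠ 0) :
    qv (sol b m τ) * qv b = qv m * qv (sol b m τ) ∧ sol b m τ ⬝ᵥ b = τ := by
  have hk := inv_mul_cancel₀ hv
  unfold sol
  generalize ((b + m) ⬝ᵥ (b + m))⁻¹ = k at hk ⊢
  simp only [dotProduct, Fin.sum_univ_three, Pi.add_apply] at hk h
  constructor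
  · ext <;> simp
    · linear_combination (2 * k * τ) * h
    · linear_combination (m 0 - b 0) * hk - k * (b 0 + m 0) * h
    · linear_combination (m 1 - b 1) * hk - k * (b 1 + m 1) * h
    · linear_combination (m 2 - b 2) * hk - k * (b 2 + m 2) * h
  · simp [dotProduct, Fin.sum_univ_three]
    linear_combination τ * hk - τ * k * h

theorem sol_unique (a b m : V) (h : qv a * qv b = qv m * qv a) (hb : b ⬝ᵥ b ≠ 0) :
    (b + m) ⬝ᵥ (b + m) ≠ 0 ∧ sol b m (a ⬝ᵥ b) = a := by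
  have h0 := congrArg (fun q : ℍ[ℝ] => q.re) h
  have h1 := congrArg (fun q : ℍ[ℝ] => q.imI) h
  have h2 := congrArg (fun q : ℍ[ℝ] => q.imJ) h
  have h3 := congrArg (fun q : ℍ[ℝ] => q.imK) h
  simp at h0 h1 h2 h3
  have hv : (b + m) ⬝ᵥ (b + m) ≠ 0 := by
    intro hv
    rw [dotProduct_self_eq_zero] at hv
    have v0 := congrFun hv 0
    have v1 := congrFun hv 1
    have v2 := congrFun hv 2
    simp only [Pi.add_apply, Pi.zero_apply] at v0 v1 v2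
    apply hb
    have b0 : b 0 = 0 := by linear_combination (1/2) * h1 + (1/2) * v0 - (a 1 / 2) * v2 + (a 2 / 2) * v1
    have b1 : b 1 = 0 := by linear_combination (1/2) * h2 + (1/2) * v1 - (a 2 / 2) * v0 + (a 0 / 2) * v2
    have b2 : b 2 = 0 := by linear_combination (1/2) * h3 + (1/2) * v2 - (a 0 / 2) * v1 + (a 1 / 2) * v0
    simp [dotProduct, Fin.sum_univ_three, b0, b1, b2]
  refine ⟨hv, ?_⟩
  have hk := inv_mul_cancel₀ hv
  unfold sol
  generalize ((b + m) ⬝ᵥ (b + m))⁻¹ = k at hk ⊢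
  simp only [dotProduct, Fin.sum_univ_three, Pi.add_apply] at hk
  ext i
  fin_cases i <;> simp [dotProduct, Fin.sum_univ_three]
  · linear_combination (a 0) * hk - k * (b 0 + m 0) * h0 - k * (b 1 + m 1) * h3 + k * (b 2 + m 2) * h2
  · linear_combination (a 1) * hk - k * (b 1 + m 1) * h0 - k * (b 2 + m 2) * h1 + k * (b 0 + m 0) * h3
  · linear_combination (a 2) * hk - k * (b 2 + m 2) * h0 - k * (b 0 + m 0) * h2 + k * (b 1 + m 1) * h1

/-- Coordinate space of one factor. -/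
abbrev P6 : Type := Fin 6 → ℝ

/-- First normal vector. -/
def n0 (p : P6) : V := ![p 0, 0, 0]
/-- Second normal vector. -/
def n1 (p : P6) : V := ![p 1, p 2, 0]

/-- Denominator. -/
def den (p : P6) : ℝ := (1 + p 0 ^ 2) * (1 + p 1 ^ 2 + p 2 ^ 2)

theorem den_pos (p : P6) : 0 < den p := by unfold den; positivity

/-- Components of the signed inverse commutator. -/
noncomputable def c0 (e : ℝ) (p : P6) : ℝ :=
  e * ((1 - p 0 * p 1) ^ 2 + (p 0 + p 1) ^ 2 + p 2 ^ 2 - (p 0 * p 2) ^ 2) / den p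
/-- Components of the signed inverse commutator. -/
noncomputable def c1 (e : ℝ) (p : P6) : ℝ := e * (-2 * p 0 * p 2 ^ 2) / den p
/-- Components of the signed inverse commutator. -/
noncomputable def c2 (e : ℝ) (p : P6) : ℝ := e * (2 * (p 0 + p 1) * p 0 * p 2) / den p
/-- Components of the signed inverse commutator. -/
noncomputable def c3 (e : ℝ) (p : P6) : ℝ := e * (-2 * (1 - p 0 * p 1) * p 0 * p 2) / den p

theorem comm_normal (e : ℝ) (p : P6) :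
    (e • comm (qv (n1 p)) (qv (n0 p))).re = c0 e p ∧
    (e • comm (qv (n1 p)) (qv (n0 p))).imI = c1 e p ∧
    (e • comm (qv (n1 p)) (qv (n0 p))).imJ = c2 e p ∧
    (e • comm (qv (n1 p)) (qv (n0 p))).imK = c3 e p := by
  have h := (den_pos p).ne'
  have h1 : nrm (qv (n1 p)) * nrm (qv (n0 p)) = den p := by
    simp [nrm, n0, n1, den]; ring
  rw [comm_eq, h1]
  refine ⟨?_, ?_, ?_, ?_⟩ <;> simp [n0, n1, c0, c1, c2, c3] <;> field_simp <;> ring

/-- The fourth vector of the section. -/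
noncomputable def n3 (e : ℝ) (p : P6) : V :=
  ![p 3, p 4, (c0 e p - c1 e p * p 3 - c2 e p * p 4 - 1) / c3 e p]

/-- Vector part of the product of `c` and `1 + b`. -/
noncomputable def mv (e : ℝ) (p : P6) (b : V) : V :=
  ![c0 e p * b 0 + c1 e p + c2 e p * b 2 - c3 e p * b 1,
    c0 e p * b 1 - c1 e p * b 2 + c2 e p + c3 e p * b 0,
    c0 e p * b 2 + c1 e p * b 1 - c2 e p * b 0 + c3 e p]

theorem mul_normal (e : ℝ) (p : P6) (b : V)
    (h : c0 e p - c1 e p * b 0 - c2 e p * b 1 - c3 e p * b 2 = 1) :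
    e • comm (qv (n1 p)) (qv (n0 p)) * qv b = qv (mv e p b) := by
  obtain ⟨h0, h1, h2, h3⟩ := comm_normal e p
  set c := e • comm (qv (n1 p)) (qv (n0 p))
  ext <;> simp [mv, h0, h1, h2, h3]
  exact h

/-- The section over the coordinate domain. -/
noncomputable def sec (e : ℝ) (p : P6) : Fin 4 → V :=
  ![n0 p, n1 p, sol (n3 e p) (mv e p (n3 e p)) (p 5), n3 e p]

/-- The coordinate domain. -/
def U (e : ℝ) : Set P6 :=
  {p | 0 < p 0 ∧ 0 < p 2 ∧ 1 - p 0 * p 1 ≠ 0 ∧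
    (n3 e p + mv e p (n3 e p)) ⬝ᵥ (n3 e p + mv e p (n3 e p)) ≠ 0}

/-- The good set of Cayley parameters. -/
def W (e : ℝ) : Set (Fin 4 → V) :=
  {a | (a 0 ⨯₃ a 1) ⬝ᵥ (a 0 ⨯₃ a 1) ≠ 0 ∧ 1 - a 0 ⬝ᵥ a 1 ≠ 0 ∧ a 3 ⬝ᵥ a 3 ≠ 0 ∧
    K a = (e : ℍ[ℝ])}

theorem c3_ne_zero {e : ℝ} (he : e ^ 2 = 1) {p : P6} (h0 : 0 < p 0) (h2 : 0 < p 2)
    (h : 1 - p 0 * p 1 ≠ 0) : c3 e p ≠ 0 := by
  have he0 : e ≠ 0 := by rintro rfl; simp at he
  have := (den_pos p).ne'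
  unfold c3
  have := h0.ne'
  have := h2.ne'
  positivity

theorem mv_norm {e : ℝ} (he : e ^ 2 = 1) (p : P6) (b : V)
    (h : c0 e p - c1 e p * b 0 - c2 e p * b 1 - c3 e p * b 2 = 1) :
    mv e p b ⬝ᵥ mv e p b = b ⬝ᵥ b := by
  have h1 := congrArg nrm (mul_normal e p b h)
  have h2 : nrm (e • comm (qv (n1 p)) (qv (n0 p))) = 1 := by
    have h3 := nrm_comm (qv_ne_zero (n1 p)) (qv_ne_zero (n0 p))
    have h4 : ∀ q : ℍ[ℝ], nrm (e • q) = e ^ 2 * nrm q := by intro q; simp [nrm]; ring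
    rw [h4, h3, he, one_mul]
  rw [nrm_mul, h2] at h1
  simp only [nrm, qv_re, qv_imI, qv_imJ, qv_imK] at h1
  simp only [dotProduct, Fin.sum_univ_three]
  linarith

theorem n3_re {e : ℝ} (he : e ^ 2 = 1) {p : P6} (hp : p ∈ U e) :
    c0 e p - c1 e p * n3 e p 0 - c2 e p * n3 e p 1 - c3 e p * n3 e p 2 = 1 := by
  have := c3_ne_zero he hp.1 hp.2.1 hp.2.2.1
  simp [n3]; field_simp; ring

theorem sec_mem {e : ℝ} (he : e ^ 2 = 1) {p : P6} (hp : p ∈ U e) : sec e p ∈ W e := by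
  have hre := n3_re he hp
  have hn := mv_norm he p _ hre
  obtain ⟨h0, h2, h1, hv⟩ := hp
  refine ⟨?_, ?_, ?_, ?_⟩
  · simp [sec, n0, n1, cross_apply, dotProduct, Fin.sum_univ_three, h0.ne', h2.ne']
  · simpa [sec, n0, n1, dotProduct, Fin.sum_univ_three] using h1
  · intro h
    apply hv
    change n3 e p ⬝ᵥ n3 e p = 0 at h
    rw [h, dotProduct_self_eq_zero] at hn
    rw [dotProduct_self_eq_zero] at h
    rw [hn, h]; simp
  · rw [K_eq_iff]
    change qv (sol _ _ _) * qv (n3 e p) = (e • comm (qv (n1 p)) (qv (n0 p)) * qv (n3 e p)) * _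
    rw [mul_normal e p _ hre]
    exact (sol_spec _ _ _ hn hv).1

theorem sec_dot {e : ℝ} (he : e ^ 2 = 1) {p : P6} (hp : p ∈ U e) :
    sec e p 2 ⬝ᵥ sec e p 3 = p 5 :=
  (sol_spec _ _ _ (mv_norm he p _ (n3_re he hp)) hp.2.2.2).2

theorem normal_eq {e : ℝ} (he : e ^ 2 = 1) {a : Fin 4 → V} (ha : a ∈ W e) (p : P6)
    (h0 : 0 < p 0) (h2 : 0 < p 2) (e0 : a 0 = n0 p) (e1 : a 1 = n1 p) (e3 : a 3 0 = p 3)
    (e4 : a 3 1 = p 4) (e5 : a 2 ⬝ᵥ a 3 = p 5) : p ∈ U e ∧ sec e p = a := by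
  obtain ⟨-, h1, hb, hK⟩ := ha
  have h1' : 1 - p 0 * p 1 ≠ 0 := by
    simpa [e0, e1, n0, n1, dotProduct, Fin.sum_univ_three] using h1
  have hc := c3_ne_zero he h0 h2 h1'
  rw [K_eq_iff, e0, e1] at hK
  have hre : (e • comm (qv (n1 p)) (qv (n0 p)) * qv (a 3)).re = 1 := by
    have h3 : e • comm (qv (n1 p)) (qv (n0 p)) * qv (a 3) =
        qv (a 2) * qv (a 3) * (qv (a 2))⁻¹ := by
      rw [hK, mul_inv_cancel_right₀ (qv_ne_zero _)]
    obtain ⟨g, hg⟩ : ∃ b, qv (a 2) * qv (a 3) * (qv (a 2))⁻¹ = qv b :=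
      ⟨_, conj_qv (qv_ne_zero _) _⟩
    rw [h3, hg]; rfl
  obtain ⟨k0, k1, k2, k3⟩ := comm_normal e p
  have hre' : c0 e p - c1 e p * a 3 0 - c2 e p * a 3 1 - c3 e p * a 3 2 = 1 := by
    rw [← k0, ← k1, ← k2, ← k3]
    generalize e • comm (qv (n1 p)) (qv (n0 p)) = c at hre ⊢
    simpa using hre
  rw [mul_normal e p _ hre'] at hK
  have hn3 : n3 e p = a 3 := by
    ext i
    fin_cases i
    · simp [n3, e3]
    · simp [n3, e4]
    · simp only [n3, ← e3, ← e4]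
      simp
      field_simp
      linear_combination hre'
  obtain ⟨hv, hs⟩ := sol_unique _ _ _ hK hb
  refine ⟨⟨h0, h2, h1', by rwa [hn3]⟩, ?_⟩
  ext1 i
  fin_cases i
  · simp [sec, e0]
  · simp [sec, e1]
  · simp [sec, hn3, ← e5, hs]
  · simp [sec, hn3]

theorem W_act {e : ℝ} (g : SO3) {a : Fin 4 → V} (ha : a ∈ W e) :
    (fun i => g.1 *ᵥ a i) ∈ W e := by
  obtain ⟨h0, h1, h2, h3⟩ := ha
  refine ⟨?_, ?_, ?_, K_act g a e h3⟩
  · simpa only [cross_equiv, dot_inv] using h0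
  · simpa only [dot_inv] using h1
  · simpa only [dot_inv] using h2

end Pool.Agent.H221Z.CV
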