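import Pool.Agent.H221Z.CV3

set_option autoImplicit false

namespace Pool.Agent.H221Z.CV

open Matrix Quaternion
open scoped ContDiff

/-- The Gram-Schmidt frame of two vectors. -/
noncomputable def frame (a b : V) : Matrix (Fin 3) (Fin 3) ℝ :=
  Matrix.of ![(√(a ⬝ᵥ a))⁻¹ • a,
    (√((a ⨯₃ b) ⬝ᵥ (a ⨯₃ b)) * √(a ⬝ᵥ a))⁻¹ • ((a ⨯₃ b) ⨯₃ a),
    (√((a ⨯₃ b) ⬝ᵥ (a ⨯₃ b)))⁻¹ • (a ⨯₃ b)]

theorem dot_self_nonneg (a : V) : 0 ≤ a ⬝ᵥ a := by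
  simp only [dotProduct, Fin.sum_univ_three]
  nlinarith [mul_self_nonneg (a 0), mul_self_nonneg (a 1), mul_self_nonneg (a 2)]

theorem dot_ne_of_cross {a b : V} (h : (a ⨯₃ b) ⬝ᵥ (a ⨯₃ b) ≠ 0) : a ⬝ᵥ a ≠ 0 := by
  intro h0
  rw [dotProduct_self_eq_zero] at h0
  apply h; simp [h0]

theorem sqrt_facts {a : V} (h : a ⬝ᵥ a ≠ 0) : 0 < √(a ⬝ᵥ a) ∧ √(a ⬝ᵥ a) ^ 2 = a ⬝ᵥ a :=
  ⟨Real.sqrt_pos.2 (lt_of_le_of_ne (dot_self_nonneg a) (Ne.symm h)),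
    Real.sq_sqrt (dot_self_nonneg a)⟩

theorem frame_mem {a b : V} (h : (a ⨯₃ b) ⬝ᵥ (a ⨯₃ b) ≠ 0) :
    frame a b ∈ Matrix.specialOrthogonalGroup (Fin 3) ℝ := by
  obtain ⟨hs, hs2⟩ := sqrt_facts (dot_ne_of_cross h)
  obtain ⟨hn, hn2⟩ := sqrt_facts h
  have hna : (a ⨯₃ b) ⬝ᵥ a = 0 := by
    rw [dotProduct_comm]; exact dot_self_cross a b
  unfold frame
  generalize √(a ⬝ᵥ a) = s at *
  generalize √((a ⨯₃ b) ⬝ᵥ (a ⨯₃ b)) = ν at *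
  generalize a ⨯₃ b = n at *
  simp only [dotProduct, Fin.sum_univ_three] at hs2 hn2 hna
  have hs' := hs.ne'
  have hn' := hn.ne'
  rw [mem_SO3_iff]
  constructor
  · ext i j
    fin_cases i <;> fin_cases j <;>
      simp [Matrix.mul_apply, Fin.sum_univ_three, cross_apply] <;> field_simp
    · linear_combination -hs2
    · ring
    · linear_combination hna
    · ring
    · linear_combination (-ν ^ 2) * hs2 - (a 0 * a 0 + a 1 * a 1 + a 2 * a 2) * hn2 -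
        (n 0 * a 0 + n 1 * a 1 + n 2 * a 2) * hna
    · ring
    · linear_combination hna
    · ring
    · linear_combination -hn2
  · simp [Matrix.det_fin_three, cross_apply]
    field_simp
    linear_combination (-ν ^ 2) * hs2 - (a 0 * a 0 + a 1 * a 1 + a 2 * a 2) * hn2 -
        (n 0 * a 0 + n 1 * a 1 + n 2 * a 2) * hna

/-- The invariant chart. -/
noncomputable def chart (a : Fin 4 → V) : P6 :=
  ![√(a 0 ⬝ᵥ a 0), (√(a 0 ⬝ᵥ a 0))⁻¹ * (a 0 ⬝ᵥ a 1),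
    (√((a 0 ⨯₃ a 1) ⬝ᵥ (a 0 ⨯₃ a 1)) * √(a 0 ⬝ᵥ a 0))⁻¹ * (((a 0 ⨯₃ a 1) ⨯₃ a 0) ⬝ᵥ a 1),
    (√(a 0 ⬝ᵥ a 0))⁻¹ * (a 0 ⬝ᵥ a 3),
    (√((a 0 ⨯₃ a 1) ⬝ᵥ (a 0 ⨯₃ a 1)) * √(a 0 ⬝ᵥ a 0))⁻¹ * (((a 0 ⨯₃ a 1) ⨯₃ a 0) ⬝ᵥ a 3),
    a 2 ⬝ᵥ a 3]

theorem chart_act (g : SO3) (a : Fin 4 → V) : chart (fun i => g.1 *ᵥ a i) = chart a := by
  simp only [chart, cross_equiv, dot_inv]

theorem frame_mulVec (a b v : V) : frame a b *ᵥ v =
    ![(√(a ⬝ᵥ a))⁻¹ * (a ⬝ᵥ v),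
      (√((a ⨯₃ b) ⬝ᵥ (a ⨯₃ b)) * √(a ⬝ᵥ a))⁻¹ * (((a ⨯₃ b) ⨯₃ a) ⬝ᵥ v),
      (√((a ⨯₃ b) ⬝ᵥ (a ⨯₃ b)))⁻¹ * ((a ⨯₃ b) ⬝ᵥ v)] := by
  ext i
  fin_cases i
  · change ((√(a ⬝ᵥ a))⁻¹ • a) ⬝ᵥ v = _
    rw [smul_dotProduct]; rfl
  · change ((√((a ⨯₃ b) ⬝ᵥ (a ⨯₃ b)) * √(a ⬝ᵥ a))⁻¹ • ((a ⨯₃ b) ⨯₃ a)) ⬝ᵥ v = _
    rw [smul_dotProduct]; rfl
  · change ((√((a ⨯₃ b) ⬝ᵥ (a ⨯₃ b)))⁻¹ • (a ⨯₃ b)) ⬝ᵥ v = _
    rw [smul_dotProduct]; rfl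

theorem chart_normal {e : ℝ} (he : e ^ 2 = 1) {a : Fin 4 → V} (ha : a ∈ W e) :
    chart a ∈ U e ∧ ∃ g : SO3, sec e (chart a) = fun i => g.1 *ᵥ a i := by
  have h := ha.1
  obtain ⟨hs, hs2⟩ := sqrt_facts (dot_ne_of_cross h)
  obtain ⟨hn, hn2⟩ := sqrt_facts h
  let g : SO3 := ⟨frame (a 0) (a 1), frame_mem h⟩
  have t1 : ((a 0 ⨯₃ a 1) ⨯₃ a 0) ⬝ᵥ a 1 = (a 0 ⨯₃ a 1) ⬝ᵥ (a 0 ⨯₃ a 1) := by
    simp [cross_apply, dotProduct, Fin.sum_univ_three]; ring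
  have t2 : ((a 0 ⨯₃ a 1) ⨯₃ a 0) ⬝ᵥ a 0 = 0 := by
    simp [cross_apply, dotProduct, Fin.sum_univ_three]; ring
  have t3 : (a 0 ⨯₃ a 1) ⬝ᵥ a 0 = 0 := by
    simp [cross_apply, dotProduct, Fin.sum_univ_three]; ring
  have t4 : (a 0 ⨯₃ a 1) ⬝ᵥ a 1 = 0 := by
    simp [cross_apply, dotProduct, Fin.sum_univ_three]; ring
  have key := normal_eq he (W_act g ha) (chart a) hs ?_ ?_ ?_ ?_ ?_ ?_
  · exact ⟨key.1, g, key.2⟩
  · change 0 < (√((a 0 ⨯₃ a 1) ⬝ᵥ (a 0 ⨯₃ a 1)) * √(a 0 ⬝ᵥ a 0))⁻¹ *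
      (((a 0 ⨯₃ a 1) ⨯₃ a 0) ⬝ᵥ a 1)
    rw [t1]
    have : 0 < (a 0 ⨯₃ a 1) ⬝ᵥ (a 0 ⨯₃ a 1) := lt_of_le_of_ne (dot_self_nonneg _) (Ne.symm h)
    positivity
  · change frame (a 0) (a 1) *ᵥ a 0 = ![√(a 0 ⬝ᵥ a 0), 0, 0]
    rw [frame_mulVec, t2, t3, mul_zero, mul_zero]
    congr 1
    field_simp
    exact hs2.symm
  · change frame (a 0) (a 1) *ᵥ a 1 = _
    rw [frame_mulVec, t4, mul_zero]
    rfl
  · change (frame (a 0) (a 1) *ᵥ a 3) 0 = _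
    rw [frame_mulVec]; rfl
  · change (frame (a 0) (a 1) *ᵥ a 3) 1 = _
    rw [frame_mulVec]; rfl
  · exact dot_inv g _ _

theorem chart_sec {e : ℝ} (he : e ^ 2 = 1) {p : P6} (hp : p ∈ U e) : chart (sec e p) = p := by
  have h5 := sec_dot he hp
  obtain ⟨h0, h2, -, -⟩ := hp
  have e0 : sec e p 0 = ![p 0, 0, 0] := rfl
  have e1 : sec e p 1 = ![p 1, p 2, 0] := rfl
  have e3 : sec e p 3 0 = p 3 := rfl
  have e4 : sec e p 3 1 = p 4 := rfl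
  have s1 : √(sec e p 0 ⬝ᵥ sec e p 0) = p 0 := by
    rw [e0]; simp [dotProduct, Fin.sum_univ_three, Real.sqrt_mul_self h0.le]
  have s2 : √((sec e p 0 ⨯₃ sec e p 1) ⬝ᵥ (sec e p 0 ⨯₃ sec e p 1)) = p 0 * p 2 := by
    rw [e0, e1]
    simp [dotProduct, Fin.sum_univ_three, cross_apply,
      Real.sqrt_mul_self (mul_pos h0 h2).le]
  have h0' := h0.ne'
  have h2' := h2.ne'
  unfold chart
  rw [s1, s2, h5, e0, e1]
  ext i
  fin_cases i <;> simp [dotProduct, Fin.sum_univ_three, cross_apply, e3, e4] <;> field_simp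

theorem eq_one_of_fix (g : SO3) {a b : V} (h : (a ⨯₃ b) ⬝ᵥ (a ⨯₃ b) ≠ 0)
    (ha : g.1 *ᵥ a = a) (hb : g.1 *ᵥ b = b) : g = 1 := by
  have hn : g.1 *ᵥ (a ⨯₃ b) = a ⨯₃ b := by rw [← cross_equiv, ha, hb]
  have hm : g.1 *ᵥ ((a ⨯₃ b) ⨯₃ a) = (a ⨯₃ b) ⨯₃ a := by rw [← cross_equiv, ha, hn]
  have hF := (SO3_rel ⟨frame a b, frame_mem h⟩).2.1
  have hsm : ∀ (t : ℝ) (v : V), g.1 *ᵥ v = v → g.1 *ᵥ (t • v) = t • v := by
    intro t v hv; rw [Matrix.mulVec_smul, hv]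
  have hrow : ∀ i, g.1 *ᵥ (frame a b i) = frame a b i := by
    intro i
    fin_cases i
    · exact hsm _ _ ha
    · exact hsm _ _ hm
    · exact hsm _ _ hn
  have h1 : g.1 * (frame a b)ᵀ = (frame a b)ᵀ := by
    ext i j
    exact congrFun (hrow j) i
  apply Subtype.ext
  change g.1 = 1
  simp only at hF
  rw [← mul_one g.1, ← hF, ← mul_assoc, h1]

/-! Smoothness. -/

section smooth
variable {E : Type*} [NormedAddCommGroup E] [NormedSpace ℝ E] {x : E}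

theorem cd_dot {f g : E → V} (hf : ContDiffAt ℝ ∞ f x) (hg : ContDiffAt ℝ ∞ g x) :
    ContDiffAt ℝ ∞ (fun y => f y ⬝ᵥ g y) x := by
  simp only [dotProduct, Fin.sum_univ_three]
  have f0 := contDiffAt_pi.1 hf
  have g0 := contDiffAt_pi.1 hg
  exact (((f0 0).mul (g0 0)).add ((f0 1).mul (g0 1))).add ((f0 2).mul (g0 2))

theorem cd_cross {f g : E → V} (hf : ContDiffAt ℝ ∞ f x) (hg : ContDiffAt ℝ ∞ g x) :
    ContDiffAt ℝ ∞ (fun y => f y ⨯₃ g y) x := by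
  have f0 := contDiffAt_pi.1 hf
  have g0 := contDiffAt_pi.1 hg
  rw [contDiffAt_pi]
  intro i
  fin_cases i
  · exact ((f0 1).mul (g0 2)).sub ((f0 2).mul (g0 1))
  · exact ((f0 2).mul (g0 0)).sub ((f0 0).mul (g0 2))
  · exact ((f0 0).mul (g0 1)).sub ((f0 1).mul (g0 0))

theorem cd_chart {f : E → Fin 4 → V} (hf : ContDiffAt ℝ ∞ f x)
    (h : (f x 0 ⨯₃ f x 1) ⬝ᵥ (f x 0 ⨯₃ f x 1) ≠ 0) :
    ContDiffAt ℝ ∞ (fun y => chart (f y)) x := by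
  have f0 := contDiffAt_pi.1 hf
  have h' := dot_ne_of_cross h
  have s1 := (cd_dot (f0 0) (f0 0)).sqrt h'
  have n := cd_cross (f0 0) (f0 1)
  have s2 := (cd_dot n n).sqrt h
  have i1 := s1.inv (sqrt_facts h').1.ne'
  have i2 := (s2.mul s1).inv (mul_pos (sqrt_facts h).1 (sqrt_facts h').1).ne'
  rw [contDiffAt_pi]
  intro i
  fin_cases i
  · exact s1
  · exact i1.mul (cd_dot (f0 0) (f0 1))
  · exact i2.mul (cd_dot (cd_cross n (f0 0)) (f0 1))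
  · exact i1.mul (cd_dot (f0 0) (f0 3))
  · exact i2.mul (cd_dot (cd_cross n (f0 0)) (f0 3))
  · exact cd_dot (f0 2) (f0 3)

theorem cd_cay {f : E → Fin 3 → Fin 3 → ℝ} (hf : ∀ i j, ContDiffAt ℝ ∞ (fun y => f y i j) x)
    (h : (quat (Matrix.of (f x))).re ≠ 0) :
    ContDiffAt ℝ ∞ (fun y => cay (Matrix.of (f y))) x := by
  have t : ContDiffAt ℝ ∞ (fun y => (quat (Matrix.of (f y))).re) x :=
    ((contDiffAt_const.add (hf 0 0)).add (hf 1 1)).add (hf 2 2)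
  rw [contDiffAt_pi]
  intro i
  fin_cases i
  · exact ((hf 2 1).sub (hf 1 2)).div t h
  · exact ((hf 0 2).sub (hf 2 0)).div t h
  · exact ((hf 1 0).sub (hf 0 1)).div t h

theorem cd_rotN {f : E → V} (hf : ContDiffAt ℝ ∞ f x) (i j : Fin 3) :
    ContDiffAt ℝ ∞ (fun y => rotN (qv (f y)) i j) x := by
  have f0 := contDiffAt_pi.1 hf
  have a0 := f0 0
  have a1 := f0 1
  have a2 := f0 2
  have hn : ContDiffAt ℝ ∞ (fun y => (nrm (qv (f y)))⁻¹) x := by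
    refine ContDiffAt.inv (f := fun y => nrm (qv (f y))) ?_ (nrm_qv_pos _).ne'
    simp only [nrm, qv_re, qv_imI, qv_imJ, qv_imK]
    fun_prop
  apply hn.mul
  fin_cases i <;> fin_cases j <;> simp [rotM] <;> fun_prop

end smooth

theorem cd_c (e : ℝ) (p : P6) : ContDiffAt ℝ ∞ (c0 e) p ∧ ContDiffAt ℝ ∞ (c1 e) p ∧
    ContDiffAt ℝ ∞ (c2 e) p ∧ ContDiffAt ℝ ∞ (c3 e) p := by
  have hd : ContDiffAt ℝ ∞ den p := by unfold den; fun_prop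
  have h := (den_pos p).ne'
  refine ⟨?_, ?_, ?_, ?_⟩
  · unfold c0; exact ContDiffAt.div (by fun_prop) hd h
  · unfold c1; exact ContDiffAt.div (by fun_prop) hd h
  · unfold c2; exact ContDiffAt.div (by fun_prop) hd h
  · unfold c3; exact ContDiffAt.div (by fun_prop) hd h

theorem cd_n3 {e : ℝ} {p : P6} (h : c3 e p ≠ 0) : ContDiffAt ℝ ∞ (n3 e) p := by
  obtain ⟨h0, h1, h2, h3⟩ := cd_c e p
  rw [contDiffAt_pi]
  intro i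
  fin_cases i
  · change ContDiffAt ℝ ∞ (fun q : P6 => q 3) p
    fun_prop
  · change ContDiffAt ℝ ∞ (fun q : P6 => q 4) p
    fun_prop
  · change ContDiffAt ℝ ∞ (fun q : P6 => (c0 e q - c1 e q * q 3 - c2 e q * q 4 - 1) / c3 e q) p
    exact ContDiffAt.div (by fun_prop) h3 h

theorem cd_mv {e : ℝ} {p : P6} (h : c3 e p ≠ 0) :
    ContDiffAt ℝ ∞ (fun q => mv e q (n3 e q)) p := by
  obtain ⟨h0, h1, h2, h3⟩ := cd_c e p
  have b := contDiffAt_pi.1 (cd_n3 h)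
  rw [contDiffAt_pi]
  intro i
  fin_cases i
  · exact (((h0.mul (b 0)).add h1).add (h2.mul (b 2))).sub (h3.mul (b 1))
  · exact (((h0.mul (b 1)).sub (h1.mul (b 2))).add h2).add (h3.mul (b 0))
  · exact (((h0.mul (b 2)).add (h1.mul (b 1))).sub (h2.mul (b 0))).add h3

theorem cd_sec {e : ℝ} (he : e ^ 2 = 1) {p : P6} (hp : p ∈ U e) : ContDiffAt ℝ ∞ (sec e) p := by
  have h := c3_ne_zero he hp.1 hp.2.1 hp.2.2.1
  have hb := cd_n3 h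
  have hm := cd_mv h
  have b := contDiffAt_pi.1 hb
  have m := contDiffAt_pi.1 hm
  have hk := (cd_dot (hb.add hm) (hb.add hm)).inv hp.2.2.2
  have hc : ∀ i, ContDiffAt ℝ ∞ (fun q : P6 => q i) p := by intro i; fun_prop
  have h5 : ContDiffAt ℝ ∞ (fun q : P6 => 2 * q 5) p := by fun_prop
  rw [contDiffAt_pi]
  intro i
  fin_cases i
  · rw [contDiffAt_pi]
    intro j
    fin_cases j
    · exact hc 0
    · exact contDiffAt_const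
    · exact contDiffAt_const
  · rw [contDiffAt_pi]
    intro j
    fin_cases j
    · exact hc 1
    · exact hc 2
    · exact contDiffAt_const
  · rw [contDiffAt_pi]
    intro j
    fin_cases j
    · exact hk.mul (((((b 1).add (m 1)).mul ((m 2).sub (b 2))).sub
        (((b 2).add (m 2)).mul ((m 1).sub (b 1)))).add (h5.mul ((b 0).add (m 0))))
    · exact hk.mul (((((b 2).add (m 2)).mul ((m 0).sub (b 0))).sub
        (((b 0).add (m 0)).mul ((m 2).sub (b 2)))).add (h5.mul ((b 1).add (m 1))))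
    · exact hk.mul (((((b 0).add (m 0)).mul ((m 1).sub (b 1))).sub
        (((b 1).add (m 1)).mul ((m 0).sub (b 0)))).add (h5.mul ((b 2).add (m 2))))
  · exact hb

theorem isOpen_U {e : ℝ} (he : e ^ 2 = 1) : IsOpen (U e) := by
  rw [isOpen_iff_mem_nhds]
  intro p hp
  have h := c3_ne_zero he hp.1 hp.2.1 hp.2.2.1
  have hb := cd_n3 h
  have hm := cd_mv h
  have h3 := (cd_dot (hb.add hm) (hb.add hm)).continuousAt.eventually_ne hp.2.2.2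
  have h0 : ∀ᶠ q : P6 in nhds p, 0 < q 0 :=
    (continuous_apply 0).continuousAt.eventually (lt_mem_nhds hp.1)
  have h1 : ∀ᶠ q : P6 in nhds p, 0 < q 2 :=
    (continuous_apply 2).continuousAt.eventually (lt_mem_nhds hp.2.1)
  have h2 : ∀ᶠ q : P6 in nhds p, 1 - q 0 * q 1 ≠ 0 :=
    ContinuousAt.eventually_ne (by fun_prop) hp.2.2.1
  filter_upwards [h0, h1, h2, h3] with q a b c d
  exact ⟨a, b, c, d⟩

end Pool.Agent.H221Z.CV
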