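import Pool.Agent.H221Z.CV4

set_option autoImplicit false

namespace Pool.Agent.H221Z.CV

open Matrix Quaternion
open scoped ContDiff

section generic
variable {R : Type*} [CommRing R] {S : Type*} [CommRing S]

/-- Base change of quaternions. -/
def qmap (f : R →+* S) (q : ℍ[R]) : ℍ[S] := ⟨f q.re, f q.imI, f q.imJ, f q.imK⟩

@[simp] theorem qmap_re (f : R →+* S) (q : ℍ[R]) : (qmap f q).re = f q.re := rfl
@[simp] theorem qmap_imI (f : R →+* S) (q : ℍ[R]) : (qmap f q).imI = f q.imI := rfl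
@[simp] theorem qmap_imJ (f : R →+* S) (q : ℍ[R]) : (qmap f q).imJ = f q.imJ := rfl
@[simp] theorem qmap_imK (f : R →+* S) (q : ℍ[R]) : (qmap f q).imK = f q.imK := rfl

theorem qmap_mul (f : R →+* S) (p q : ℍ[R]) : qmap f (p * q) = qmap f p * qmap f q := by
  ext <;> simp

theorem qmap_star (f : R →+* S) (p : ℍ[R]) : qmap f (star p) = star (qmap f p) := by
  ext <;> simp

theorem qmap_quat (f : R →+* S) (A : Matrix (Fin 3) (Fin 3) R) :
    qmap f (quat A) = quat (A.map f) := by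
  ext <;> simp [qmap, quat]

/-- Unnormalised product of commutators. -/
def QT (q : Fin 4 → ℍ[R]) : R :=
  ((q 0 * q 1 * star (q 0) * star (q 1)) * (q 2 * q 3 * star (q 2) * star (q 3))).re

/-- Product of the norms. -/
def PT (q : Fin 4 → ℍ[R]) : R := nrm (q 0) * nrm (q 1) * (nrm (q 2) * nrm (q 3))

theorem map_QT (f : R →+* S) (q : Fin 4 → ℍ[R]) : f (QT q) = QT (fun i => qmap f (q i)) := by
  simp only [QT, ← qmap_star, ← qmap_mul, qmap_re]

theorem map_PT (f : R →+* S) (q : Fin 4 → ℍ[R]) : f (PT q) = PT (fun i => qmap f (q i)) := by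
  simp [PT, nrm]

/-- The polynomial whose non-vanishing defines the open set. -/
def poly (e : R) (q : Fin 4 → ℍ[R]) : R :=
  ((q 0).re * (q 1).re * (q 2).re * (q 3).re) *
  (((q 0).imJ * (q 1).imK - (q 0).imK * (q 1).imJ) ^ 2 +
    ((q 0).imK * (q 1).imI - (q 0).imI * (q 1).imK) ^ 2 +
    ((q 0).imI * (q 1).imJ - (q 0).imJ * (q 1).imI) ^ 2) *
  ((q 0).re * (q 1).re -
    ((q 0).imI * (q 1).imI + (q 0).imJ * (q 1).imJ + (q 0).imK * (q 1).imK)) *
  ((q 3).imI ^ 2 + (q 3).imJ ^ 2 + (q 3).imK ^ 2) * (QT q + e * PT q)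

theorem map_poly (f : R →+* S) (e : R) (q : Fin 4 → ℍ[R]) :
    f (poly e q) = poly (f e) (fun i => qmap f (q i)) := by
  simp [poly, map_QT, map_PT]

end generic

/-- The good representations into one factor. -/
def Good (e : ℝ) (A : Fin 4 → SO3) : Prop :=
  (∀ i, (quat (A i).1).re ≠ 0) ∧ (fun i => cay (A i).1) ∈ W e

/-- The surface relation in one factor. -/
def Rel (A : Fin 4 → SO3) : Prop :=
  (A 0 * A 1 * (A 0)⁻¹ * (A 1)⁻¹) * (A 2 * A 3 * (A 2)⁻¹ * (A 3)⁻¹) = 1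

theorem K_re (A : Fin 4 → SO3) (h : ∀ i, (quat (A i).1).re ≠ 0) :
    PT (fun i => quat (A i).1) ≠ 0 ∧
    (K (fun i => cay (A i).1)).re * PT (fun i => quat (A i).1) = QT (fun i => quat (A i).1) := by
  have hq : ∀ i, nrm (quat (A i).1) ≠ 0 := by
    intro i; rw [(quat_spec (A i)).1]; exact mul_ne_zero (by norm_num) (h i)
  have h0 := hq 0
  have h1 := hq 1
  have h2 := hq 2
  have h3 := hq 3
  have hK : K (fun i => cay (A i).1) =
      comm (quat (A 0).1) (quat (A 1).1) * comm (quat (A 2).1) (quat (A 3).1) := by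
    rw [quat_eq_smul _ (h 0), quat_eq_smul _ (h 1), quat_eq_smul _ (h 2), quat_eq_smul _ (h 3),
      comm_smul (h 0) (h 1), comm_smul (h 2) (h 3)]
    rfl
  refine ⟨by unfold PT; positivity, ?_⟩
  rw [hK, comm_eq, comm_eq, smul_mul_smul_comm, Quaternion.re_smul, smul_eq_mul]
  unfold PT QT
  field_simp

theorem rel_iff (A : Fin 4 → SO3) (h : ∀ i, (quat (A i).1).re ≠ 0) :
    Rel A ↔ rot (K (fun i => cay (A i).1)) = 1 := by
  rw [rot_K]
  simp only [rot_qv_cay _ (h _)]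
  rfl

theorem poly_iff {e : ℝ} (he : e ^ 2 = 1) (A : Fin 4 → SO3) (hA : Rel A) :
    poly e (fun i => quat (A i).1) ≠ 0 ↔ Good e A := by
  have he0 : e ≠ 0 := by rintro rfl; simp at he
  have key : (∀ i, (quat (A i).1).re ≠ 0) → (poly e (fun i => quat (A i).1) ≠ 0 ↔
      (fun i => cay (A i).1) ∈ W e) := by
    intro h
    obtain ⟨hP, hQ⟩ := K_re A h
    have h0 := h 0
    have h1 := h 1
    have h2 := h 2
    have h3 := h 3
    have e1 : poly e (fun i => quat (A i).1) =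
        ((quat (A 0).1).re ^ 4 * (quat (A 1).1).re ^ 4 * (quat (A 2).1).re *
          (quat (A 3).1).re ^ 3 * PT (fun i => quat (A i).1)) *
        (((cay (A 0).1 ⨯₃ cay (A 1).1) ⬝ᵥ (cay (A 0).1 ⨯₃ cay (A 1).1)) *
        ((1 - cay (A 0).1 ⬝ᵥ cay (A 1).1) * ((cay (A 3).1 ⬝ᵥ cay (A 3).1) *
        ((K (fun i => cay (A i).1)).re + e)))) := by
      unfold poly
      rw [← hQ]
      generalize (K (fun i => cay (A i).1)).re = k
      generalize PT (fun i => quat (A i).1) = P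
      simp only [cay, cross_apply, dotProduct, Fin.sum_univ_three]
      simp
      field_simp
    have hc : (quat (A 0).1).re ^ 4 * (quat (A 1).1).re ^ 4 * (quat (A 2).1).re *
          (quat (A 3).1).re ^ 3 * PT (fun i => quat (A i).1) ≠ 0 := by positivity
    rw [e1, ne_eq, mul_eq_zero_iff_left hc, ← ne_eq, mul_ne_zero_iff, mul_ne_zero_iff,
      mul_ne_zero_iff]
    constructor
    · rintro ⟨a, b, c, d⟩
      exact ⟨a, b, c, K_eq_of_rot _ he ((rel_iff A h).1 hA) d⟩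
    · rintro ⟨a, b, c, d⟩
      refine ⟨a, b, c, ?_⟩
      rw [d]
      simpa using he0
  constructor
  · intro hp
    have h : ∀ i, (quat (A i).1).re ≠ 0 := by
      have := hp
      unfold poly at this
      simp only [mul_ne_zero_iff] at this
      obtain ⟨⟨⟨⟨⟨⟨⟨a, b⟩, c⟩, d⟩, -⟩, -⟩, -⟩, -⟩ := this
      intro i
      fin_cases i
      exacts [a, b, c, d]
    exact ⟨h, (key h).1 hp⟩
  · rintro ⟨h, hW⟩
    exact (key h).2 hW

theorem Good.conj {e : ℝ} {A : Fin 4 → SO3} (h : Good e A) (g : SO3) :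
    Good e (fun i => g * A i * g⁻¹) := by
  refine ⟨fun i => by rw [quat_re_conj]; exact h.1 i, ?_⟩
  simp only [cay_conj g _ (h.1 _)]
  exact W_act g h.2

theorem good_sec {e : ℝ} (he : e ^ 2 = 1) {p : P6} (hp : p ∈ U e) :
    Good e (fun i => rot (qv (sec e p i))) ∧ Rel (fun i => rot (qv (sec e p i))) ∧
    (fun i => cay (rot (qv (sec e p i))).1) = sec e p := by
  have h1 : (fun i => cay (rot (qv (sec e p i))).1) = sec e p := by
    ext1 i; rw [rot_val (qv_ne_zero _), cay_rotN_qv]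
  have h2 : ∀ i, (quat (rot (qv (sec e p i))).1).re ≠ 0 := by
    intro i; rw [rot_val (qv_ne_zero _)]; exact quat_rotN_qv_re _
  refine ⟨⟨h2, by rw [h1]; exact sec_mem he hp⟩, ?_, h1⟩
  rw [rel_iff _ h2, h1]
  exact rot_K_of_eq _ (sec_mem he hp).2.2.2

theorem Good.normal {e : ℝ} (he : e ^ 2 = 1) {A : Fin 4 → SO3} (h : Good e A) :
    chart (fun i => cay (A i).1) ∈ U e ∧
    ∃ g : SO3, ∀ i, rot (qv (sec e (chart (fun i => cay (A i).1)) i)) = g * A i * g⁻¹ := by
  obtain ⟨h1, g, hg⟩ := chart_normal he h.2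
  refine ⟨h1, g, fun i => ?_⟩
  rw [hg, ← SO3_conj_qv, rot_qv_cay _ (h.1 i)]

theorem Good.free {e : ℝ} {A : Fin 4 → SO3} (h : Good e A) (g : SO3)
    (hg : ∀ i, g * A i * g⁻¹ = A i) : g = 1 := by
  have := fun i => cay_conj g (A i) (h.1 i)
  simp only [hg] at this
  exact eq_one_of_fix g h.2.1 (this 0).symm (this 1).symm

theorem Good.QT_eq {e : ℝ} {A : Fin 4 → SO3} (h : Good e A) :
    PT (fun i => quat (A i).1) ≠ 0 ∧
      QT (fun i => quat (A i).1) = e * PT (fun i => quat (A i).1) := by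
  obtain ⟨h1, h2⟩ := K_re A h.1
  refine ⟨h1, ?_⟩
  rw [← h2, h.2.2.2.2]; rfl

theorem U_nonempty {e : ℝ} (he : e = 1 ∨ e = -1) : (![1, 0, 1, 0, 0, 0] : P6) ∈ U e := by
  refine ⟨by simp, by simp, by simp, ?_⟩
  rcases he with rfl | rfl <;>
    simp [n3, mv, c0, c1, c2, c3, den, dotProduct, Fin.sum_univ_three] <;> norm_num

/-- Pairs of conjugate elements of the quadratic field. -/
def SQ : Subring (ℝ × ℝ) where
  carrier := {z | ∃ x y : ℚ, z.1 = (x : ℝ) + √2 * (y : ℝ) ∧ z.2 = (x : ℝ) - √2 * (y : ℝ)}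
  zero_mem' := ⟨0, 0, by simp, by simp⟩
  one_mem' := ⟨1, 0, by simp, by simp⟩
  add_mem' := by
    rintro a b ⟨x, y, h1, h2⟩ ⟨x', y', h3, h4⟩
    refine ⟨x + x', y + y', ?_, ?_⟩
    · rw [Prod.fst_add, h1, h3]; push_cast; ring
    · rw [Prod.snd_add, h2, h4]; push_cast; ring
  neg_mem' := by
    rintro a ⟨x, y, h1, h2⟩
    refine ⟨-x, -y, ?_, ?_⟩
    · rw [Prod.fst_neg, h1]; push_cast; ring
    · rw [Prod.snd_neg, h2]; push_cast; ring
  mul_mem' := by
    rintro a b ⟨x, y, h1, h2⟩ ⟨x', y', h3, h4⟩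
    have h : √2 ^ 2 = (2 : ℝ) := Real.sq_sqrt (by norm_num)
    refine ⟨x * x' + 2 * y * y', x * y' + x' * y, ?_, ?_⟩
    · rw [Prod.fst_mul, h1, h3]; push_cast; linear_combination (y * y' : ℝ) * h
    · rw [Prod.snd_mul, h2, h4]; push_cast; linear_combination (y * y' : ℝ) * h

theorem SQ_zero (z : SQ) (h : z.1.1 = 0) : z.1.2 = 0 := by
  obtain ⟨x, y, h1, h2⟩ := z.2
  have hy : y = 0 := by
    by_contra hy
    have hy' : (y : ℝ) ≠ 0 := by exact_mod_cast hy
    apply irrational_sqrt_two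
    refine ⟨-x / y, ?_⟩
    push_cast
    field_simp
    linarith
  subst hy
  simp at h1 h2
  rw [h2, ← h1, h]

theorem not_rational {A B : Fin 4 → SO3} (hA : Good 1 A) (hB : Good (-1) B)
    (h : ∀ i, ((A i, B i) : GR) ∈ GQ) : False := by
  have hm : ∀ i a b, (((A i).1 a b, (B i).1 a b) : ℝ × ℝ) ∈ SQ := by
    intro i a b
    obtain ⟨X, Y, hXY⟩ := h i
    exact ⟨X a b, Y a b, hXY a b⟩
  let M : Fin 4 → Matrix (Fin 3) (Fin 3) SQ := fun i => Matrix.of fun a b => ⟨_, hm i a b⟩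
  let f1 : SQ →+* ℝ := (RingHom.fst ℝ ℝ).comp SQ.subtype
  let f2 : SQ →+* ℝ := (RingHom.snd ℝ ℝ).comp SQ.subtype
  have e1 : (fun i => qmap f1 (quat (M i))) = fun i => quat (A i).1 := by
    ext1 i; rw [qmap_quat]; rfl
  have e2 : (fun i => qmap f2 (quat (M i))) = fun i => quat (B i).1 := by
    ext1 i; rw [qmap_quat]; rfl
  obtain ⟨-, a2⟩ := hA.QT_eq
  obtain ⟨b1, b2⟩ := hB.QT_eq
  have k1 : f1 (QT (fun i => quat (M i)) - PT (fun i => quat (M i))) = 0 := by
    rw [map_sub, map_QT, map_PT, e1, a2]; ring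
  have k2 : f2 (QT (fun i => quat (M i)) - PT (fun i => quat (M i))) = 0 :=
    SQ_zero (QT (fun i => quat (M i)) - PT (fun i => quat (M i))) k1
  rw [map_sub, map_QT, map_PT, e2, b2] at k2
  apply b1
  linarith

theorem isOpenEmbedding_of_section {X Y : Type*} [TopologicalSpace X] [TopologicalSpace Y]
    (r : X → X → Prop) (φ : X → Y) (hφ : Continuous φ) (hr : ∀ a b, r a b → φ a = φ b)
    (T : Set Y) (hT : IsOpen T) (hmem : ∀ x, φ x ∈ T) (σ : T → X) (hσ : Continuous σ)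
    (h1 : ∀ u, φ (σ u) = u) (h2 : ∀ x, r x (σ ⟨φ x, hmem x⟩)) :
    Topology.IsOpenEmbedding (Quot.lift φ hr) := by
  let F : Quot r ≃ₜ T :=
    { toFun := Quot.lift (fun x => ⟨φ x, hmem x⟩) (fun a b h => Subtype.ext (hr a b h))
      invFun := fun u => Quot.mk r (σ u)
      left_inv := by
        rintro ⟨x⟩
        exact (Quot.sound (h2 x)).symm
      right_inv := fun u => Subtype.ext (h1 u)
      continuous_toFun := continuous_quot_lift _ (hφ.subtype_mk _)
      continuous_invFun := continuous_quot_mk.comp hσ }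
  have : Quot.lift φ hr = Subtype.val ∘ F := by
    ext ⟨x⟩; rfl
  rw [this]
  exact hT.isOpenEmbedding_subtypeVal.comp F.isOpenEmbedding

end Pool.Agent.H221Z.CV
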