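import Pool.Agent.H221Z.CV5

set_option autoImplicit false

namespace Pool.Agent.H221Z.CV

open Matrix Quaternion
open scoped ContDiff

/-- The open set. -/
def Om : Set Rep := {ρ | Good 1 (fun i => (ρ.1 i).1) ∧ Good (-1) (fun i => (ρ.1 i).2)}

/-- Matrices from coordinates. -/
def mat {R : Type*} (c : Idx → R) (k : Fin 2) (i : Fin 4) : Matrix (Fin 3) (Fin 3) R :=
  Matrix.of fun a b => c (i, k, a, b)

theorem mat_coord0 (ρ : Rep) (i : Fin 4) : mat (coord ρ) 0 i = (ρ.1 i).1.1 := rfl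
theorem mat_coord1 (ρ : Rep) (i : Fin 4) : mat (coord ρ) 1 i = (ρ.1 i).2.1 := rfl

theorem rel_fst (ρ : Rep) : Rel (fun i => (ρ.1 i).1) := congrArg Prod.fst ρ.2
theorem rel_snd (ρ : Rep) : Rel (fun i => (ρ.1 i).2) := congrArg Prod.snd ρ.2

theorem h1 : (1 : ℝ) ^ 2 = 1 := by norm_num
theorem h2 : (-1 : ℝ) ^ 2 = 1 := by norm_num

theorem zariski : IsZariskiOpen Om := by
  refine ⟨{poly 1 (fun i => quat (mat MvPolynomial.X 0 i)) *
    poly (-1) (fun i => quat (mat MvPolynomial.X 1 i))}, ?_⟩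
  ext ρ
  simp only [Set.mem_singleton_iff, exists_eq_left, Set.mem_ofPred_eq, map_mul, map_poly,
    qmap_quat, map_one, map_neg, mul_ne_zero_iff]
  have e : ∀ k i, (mat MvPolynomial.X k i).map (MvPolynomial.eval (coord ρ)) =
      mat (coord ρ) k i := by
    intro k i; ext a b; simp [mat]
  simp only [e, mat_coord0, mat_coord1]
  rw [poly_iff h1 _ (rel_fst ρ), poly_iff h2 _ (rel_snd ρ)]
  rfl

theorem invariant (ρ : Rep) (h : ρ ∈ Om) (ρ' : Rep) (hc : Conj ρ ρ') : ρ' ∈ Om := by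
  obtain ⟨g, hg⟩ := hc
  constructor
  · simp only [hg]; exact h.1.conj g.1
  · simp only [hg]; exact h.2.conj g.2

/-- The chart in ambient coordinates. -/
noncomputable def Phi (c : Idx → ℝ) : Fin 12 → ℝ :=
  Fin.append (chart fun i => cay (mat c 0 i)) (chart fun i => cay (mat c 1 i))

/-- First half. -/
def lo (y : Fin 12 → ℝ) : P6 := fun i => y (Fin.castAdd 6 i)
/-- Second half. -/
def hi (y : Fin 12 → ℝ) : P6 := fun i => y (Fin.natAdd 6 i)

theorem lo_append (p q : P6) : lo (Fin.append p q) = p := by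
  ext i; exact Fin.append_left p q i
theorem hi_append (p q : P6) : hi (Fin.append p q) = q := by
  ext i; exact Fin.append_right p q i
theorem append_lo_hi (y : Fin 12 → ℝ) : Fin.append (lo y) (hi y) = y :=
  Fin.append_castAdd_natAdd (m := 6) (n := 6) (f := y)

/-- The section in ambient coordinates. -/
noncomputable def Sig (y : Fin 12 → ℝ) : Idx → ℝ :=
  fun k => (![rotN (qv (sec 1 (lo y) k.1)), rotN (qv (sec (-1) (hi y) k.1))] k.2.1)
    k.2.2.1 k.2.2.2

/-- The image of the chart. -/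
def T : Set (Fin 12 → ℝ) := {y | lo y ∈ U 1 ∧ hi y ∈ U (-1)}

theorem cd_lo (y : Fin 12 → ℝ) : ContDiffAt ℝ ∞ lo y := by
  rw [contDiffAt_pi]; intro i; unfold lo; fun_prop
theorem cd_hi (y : Fin 12 → ℝ) : ContDiffAt ℝ ∞ hi y := by
  rw [contDiffAt_pi]; intro i; unfold hi; fun_prop

theorem isOpen_T : IsOpen T :=
  ((isOpen_U h1).preimage (continuous_iff_continuousAt.2 fun y => (cd_lo y).continuousAt)).inter
    ((isOpen_U h2).preimage (continuous_iff_continuousAt.2 fun y => (cd_hi y).continuousAt))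

theorem cd_Sig {y : Fin 12 → ℝ} (hy : y ∈ T) : ContDiffAt ℝ ∞ Sig y := by
  have a := contDiffAt_pi.1 ((cd_sec h1 hy.1).comp y (cd_lo y))
  have b := contDiffAt_pi.1 ((cd_sec h2 hy.2).comp y (cd_hi y))
  rw [contDiffAt_pi]
  rintro ⟨i, k, r, s⟩
  fin_cases k
  · exact cd_rotN (a i) r s
  · exact cd_rotN (b i) r s

theorem cd_Phi {ρ : Rep} (h : ρ ∈ Om) : ContDiffAt ℝ ∞ Phi (coord ρ) := by
  have key : ∀ k : Fin 2, (∀ i, (quat (mat (coord ρ) k i)).re ≠ 0) →
      ContDiffAt ℝ ∞ (fun c : Idx → ℝ => fun i => cay (mat c k i)) (coord ρ) := by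
    intro k hk
    rw [contDiffAt_pi]
    intro i
    exact cd_cay (f := fun c : Idx → ℝ => fun a b => c (i, k, a, b))
      (fun a b => by fun_prop) (hk i)
  have a := contDiffAt_pi.1 (cd_chart (key 0 h.1.1) h.1.2.1)
  have b := contDiffAt_pi.1 (cd_chart (key 1 h.2.1) h.2.2.1)
  rw [contDiffAt_pi]
  intro j
  induction j using Fin.addCases (m := 6) (n := 6) with
  | left i => simpa only [Phi, Fin.append_left] using a i
  | right i => simpa only [Phi, Fin.append_right] using b i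

theorem continuous_coord : Continuous coord := by
  rw [continuous_pi_iff]
  rintro ⟨i, k, r, s⟩
  have h : Continuous fun ρ : Rep => ρ.1 i := (continuous_apply i).comp continuous_subtype_val
  fin_cases k
  · exact (continuous_subtype_val.comp (continuous_fst.comp h)).matrix_elem r s
  · exact (continuous_subtype_val.comp (continuous_snd.comp h)).matrix_elem r s

/-- The section as a representation. -/
noncomputable def secRep (u : T) : Om :=
  ⟨⟨fun i => (rot (qv (sec 1 (lo u.1) i)), rot (qv (sec (-1) (hi u.1) i))),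
    Prod.ext (good_sec h1 u.2.1).2.1 (good_sec h2 u.2.2).2.1⟩,
    (good_sec h1 u.2.1).1, (good_sec h2 u.2.2).1⟩

theorem coord_secRep (u : T) : coord (secRep u).1 = Sig u.1 := by
  ext ⟨i, k, r, s⟩
  fin_cases k
  · change (rot (qv (sec 1 (lo u.1) i))).1 r s = rotN (qv (sec 1 (lo u.1) i)) r s
    rw [rot_val (qv_ne_zero _)]
  · change (rot (qv (sec (-1) (hi u.1) i))).1 r s = rotN (qv (sec (-1) (hi u.1) i)) r s
    rw [rot_val (qv_ne_zero _)]

theorem continuous_secRep : Continuous secRep := by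
  have hS : Continuous fun u : T => coord (secRep u).1 := by
    simp only [coord_secRep]
    exact continuous_iff_continuousAt.2 fun u =>
      (cd_Sig u.2).continuousAt.comp continuous_subtype_val.continuousAt
  refine Continuous.subtype_mk (Continuous.subtype_mk ?_ _) _
  rw [continuous_pi_iff]
  intro i
  refine Continuous.prodMk (continuous_induced_rng.2 ?_) (continuous_induced_rng.2 ?_)
  · exact continuous_matrix fun r s => (continuous_apply (i, 0, r, s)).comp hS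
  · exact continuous_matrix fun r s => (continuous_apply (i, 1, r, s)).comp hS

theorem Phi_secRep (u : T) : Phi (coord (secRep u).1) = u.1 := by
  have a := (good_sec h1 u.2.1).2.2
  have b := (good_sec h2 u.2.2).2.2
  change Fin.append (chart fun i => cay (rot (qv (sec 1 (lo u.1) i))).1)
    (chart fun i => cay (rot (qv (sec (-1) (hi u.1) i))).1) = u.1
  rw [a, b, chart_sec h1 u.2.1, chart_sec h2 u.2.2, append_lo_hi]

theorem Phi_mem (ρ : Om) : Phi (coord ρ.1) ∈ T := by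
  constructor
  · rw [Phi, lo_append]; exact (ρ.2.1.normal h1).1
  · rw [Phi, hi_append]; exact (ρ.2.2.normal h2).1

theorem conj_secRep (ρ : Om) : Conj ρ.1 (secRep ⟨Phi (coord ρ.1), Phi_mem ρ⟩).1 := by
  obtain ⟨g, hg⟩ := (ρ.2.1.normal h1).2
  obtain ⟨g', hg'⟩ := (ρ.2.2.normal h2).2
  refine ⟨(g, g'), fun i => Prod.ext ?_ ?_⟩
  · change rot (qv (sec 1 (lo (Phi (coord ρ.1))) i)) = _
    rw [Phi, lo_append]; exact hg i
  · change rot (qv (sec (-1) (hi (Phi (coord ρ.1))) i)) = _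
    rw [Phi, hi_append]; exact hg' i

theorem Phi_conj (ρ ρ' : Om) (h : Conj ρ.1 ρ'.1) : Phi (coord ρ.1) = Phi (coord ρ'.1) := by
  obtain ⟨g, hg⟩ := h
  simp only [Phi, mat_coord0, mat_coord1, hg, Prod.fst_mul, Prod.snd_mul, Prod.fst_inv,
    Prod.snd_inv, cay_conj _ _ (ρ.2.1.1 _), cay_conj _ _ (ρ.2.2.1 _), chart_act]

theorem main : ∃ Ω : Set Rep, IsZariskiOpen Ω ∧ (∀ ρ ∈ Ω, ∀ ρ', Conj ρ ρ' → ρ' ∈ Ω) ∧
    Ω.Nonempty ∧
    (∀ ρ ∈ Ω, ∀ g : GR, (∀ i, g * ρ.1 i * g⁻¹ = ρ.1 i) → g = 1) ∧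
    (∃ φ : Orbits Ω → (Fin 12 → ℝ), Topology.IsOpenEmbedding φ ∧
      (∃ Φ : (Idx → ℝ) → (Fin 12 → ℝ), ∀ ρ : Ω,
        ContDiffAt ℝ ∞ Φ (coord ρ.1) ∧ φ (Quot.mk _ ρ) = Φ (coord ρ.1)) ∧
      (∃ σ : (Fin 12 → ℝ) → (Idx → ℝ), ∀ y ∈ Set.range φ,
        ContDiffAt ℝ ∞ σ y ∧ ∃ ρ : Ω, coord ρ.1 = σ y ∧ φ (Quot.mk _ ρ) = y)) ∧
    ∀ ρ ∈ Ω, ¬ ∃ g : GR, ∀ i, g * ρ.1 i * g⁻¹ ∈ GQ := by
  refine ⟨Om, zariski, invariant, ?_, ?_, ?_, ?_⟩
  · let u : T := ⟨Fin.append ![1, 0, 1, 0, 0, 0] ![1, 0, 1, 0, 0, 0],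
      by rw [lo_append]; exact U_nonempty (Or.inl rfl),
      by rw [hi_append]; exact U_nonempty (Or.inr rfl)⟩
    exact ⟨(secRep u).1, (secRep u).2⟩
  · intro ρ h g hg
    exact Prod.ext (h.1.free g.1 fun i => congrArg Prod.fst (hg i))
      (h.2.free g.2 fun i => congrArg Prod.snd (hg i))
  · have hc : Continuous fun ρ : Om => Phi (coord ρ.1) :=
      continuous_iff_continuousAt.2 fun ρ => ContinuousAt.comp (f := fun ρ : Om => coord ρ.1)
        (cd_Phi ρ.2).continuousAt (continuous_coord.comp continuous_subtype_val).continuousAt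
    refine ⟨Quot.lift (fun ρ : Om => Phi (coord ρ.1)) Phi_conj,
      isOpenEmbedding_of_section _ _ hc Phi_conj T isOpen_T Phi_mem secRep continuous_secRep
        Phi_secRep conj_secRep, ⟨Phi, fun ρ => ⟨cd_Phi ρ.2, rfl⟩⟩, Sig, ?_⟩
    rintro y ⟨⟨ρ⟩, rfl⟩
    exact ⟨cd_Sig (Phi_mem ρ), secRep ⟨_, Phi_mem ρ⟩, coord_secRep _, Phi_secRep _⟩
  · rintro ρ h ⟨g, hg⟩
    exact not_rational (h.1.conj g.1) (h.2.conj g.2) hg

end Pool.Agent.H221Z.CV
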