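import Mathlib

set_option autoImplicit false

namespace Pool.Agent.H221Z.CV

/-- The rotation group SO(3) of real 3 by 3 orthogonal matrices of determinant one. -/
abbrev SO3 : Type := Matrix.specialOrthogonalGroup (Fin 3) ℝ

/-- The real points G(R) = SO(3) × SO(3) of the connected semisimple rational group
G = Res SO_3, the restriction of scalars from Q(√2) to Q of the special orthogonal group of the
form x² + y² + z². The two factors belong to the two real embeddings of Q(√2). -/
abbrev GR : Type := SO3 × SO3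

/-- The rational points G(Q) = SO_3(Q(√2)) inside G(R): the pairs (X + √2 Y, X - √2 Y) with
X, Y rational matrices. -/
def GQ : Set GR :=
  {g | ∃ X Y : Matrix (Fin 3) (Fin 3) ℚ, ∀ a b,
    g.1.1 a b = (X a b : ℝ) + √2 * (Y a b : ℝ) ∧ g.2.1 a b = (X a b : ℝ) - √2 * (Y a b : ℝ)}

/-- Hom(π₁(S), G(R)) for the closed orientable surface S of genus two: the images of the standard
generators, subject to the surface relation, with the topology of a subset of G(R)⁴. -/
abbrev Rep : Type :=
  {ρ : Fin 4 → GR //
    (ρ 0 * ρ 1 * (ρ 0)⁻¹ * (ρ 1)⁻¹) * (ρ 2 * ρ 3 * (ρ 2)⁻¹ * (ρ 3)⁻¹) = 1}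

/-- Two representations are conjugate under G(R). -/
def Conj (ρ ρ' : Rep) : Prop := ∃ g : GR, ∀ i, ρ'.1 i = g * ρ.1 i * g⁻¹

/-- Index set of the matrix entries of a representation: generator, factor, row, column. -/
abbrev Idx : Type := Fin 4 × Fin 2 × Fin 3 × Fin 3

/-- The matrix entries of a representation. -/
def coord (ρ : Rep) : Idx → ℝ :=
  fun k => (![(ρ.1 k.1).1.1, (ρ.1 k.1).2.1] k.2.1) k.2.2.1 k.2.2.2

/-- Zariski-open sets: complements of common zero sets of real polynomials in the entries. -/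
def IsZariskiOpen (Ω : Set Rep) : Prop :=
  ∃ S : Set (MvPolynomial Idx ℝ), Ω = {ρ | ∃ p ∈ S, MvPolynomial.eval (coord ρ) p ≠ 0}

/-- The quotient Ω / G(R), which carries the quotient topology. -/
abbrev Orbits (Ω : Set Rep) : Type := Quot (fun ρ ρ' : Ω => Conj ρ.1 ρ'.1)

end Pool.Agent.H221Z.CV
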