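import Mathlib
import Pool.Agent.Helper450.Kneser

set_option autoImplicit false
set_option linter.unusedSectionVars false

open Finset
open scoped Pointwise

namespace Pool.Agent.H221Z.Cay

variable {G G' : Type*} [AddCommGroup G] [Fintype G] [DecidableEq G]
  [AddCommGroup G'] [Fintype G'] [DecidableEq G']

theorem card_shift (P : G → Prop) [DecidablePred P] (c : G) :
    (univ.filter fun x => P (x + c)).card = (univ.filter P).card := by
  apply Finset.card_bij (fun x _ => x + c)
  · intro a ha; simpa using ha
  · intro a _ b _ h; exact add_right_cancel h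
  · intro b hb; exact ⟨b - c, by simpa using hb, by simp⟩

theorem cover3 (P Q R : G → Prop) [DecidablePred P] [DecidablePred Q] [DecidablePred R]
    (h : ∀ x, ¬ Q x → ¬ R x → P x) :
    Fintype.card G ≤ (univ.filter P).card + (univ.filter Q).card + (univ.filter R).card := by
  have : (univ : Finset G) ⊆ (univ.filter P ∪ univ.filter Q) ∪ univ.filter R := by
    intro x _
    simp only [mem_union, mem_filter, mem_univ, true_and]
    by_cases hq : Q x
    · exact Or.inl (Or.inr hq)
    · by_cases hr : R x
      · exact Or.inr hr
      · exact Or.inl (Or.inl (h x hq hr))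
  calc Fintype.card G = (univ : Finset G).card := rfl
    _ ≤ _ := card_le_card this
    _ ≤ _ := (card_union_le _ _).trans (Nat.add_le_add_right (card_union_le _ _) _)

/-- Number of solutions of `F (x + s) - F x = v`. -/
def U (F : G → G') (s : G) (v : G') : ℕ := (univ.filter fun x => F (x + s) - F x = v).card

theorem U_add (F : G → G') (s : G) {v v' : G'} (h : v ≠ v') :
    U F s v + U F s v' ≤ Fintype.card G := by
  unfold U
  rw [← card_union_of_disjoint]
  · exact card_le_univ _
  · rw [disjoint_filter]
    intro x _ h1 h2
    exact h (h1.symm.trans h2)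

theorem U_le (F : G → G') (s : G) (v : G') : U F s v ≤ Fintype.card G := card_le_univ _

theorem U_neg (F : G → G') (s : G) (v : G') : U F (-s) (-v) = U F s v := by
  unfold U
  rw [← card_shift (fun x => F (x + -s) - F x = -v) s]
  congr 1
  ext x
  simp only [mem_filter, mem_univ, true_and, add_neg_cancel_right]
  rw [← neg_sub, neg_inj]

variable (f g h : G → G')

/-- Errors in a column. -/
def col (y : G) : ℕ := (univ.filter fun x => f x + g y ≠ h (x + y)).card

/-- Errors in a row. -/
def row (x : G) : ℕ := (univ.filter fun y => f x + g y ≠ h (x + y)).card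

/-- Total number of errors. -/
def err : ℕ := (univ.filter fun p : G × G => f p.1 + g p.2 ≠ h (p.1 + p.2)).card

theorem sum_col : ∑ y, col f g h y = err f g h := by
  unfold col err
  simp only [card_filter]
  rw [Fintype.sum_prod_type, sum_comm]

theorem sum_row : ∑ x, row f g h x = err f g h := by
  unfold row err
  simp only [card_filter]
  rw [Fintype.sum_prod_type]

theorem Uf_ge (y y' : G) :
    Fintype.card G ≤ U f (y' - y) (g y' - g y) + col f g h y + col f g h y' := by
  have := cover3 (fun x => f (x + (y' - y)) - f x = g y' - g y)
    (fun x => f (x + (y' - y)) + g y ≠ h (x + (y' - y) + y)) (fun x => f x + g y' ≠ h (x + y'))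
    (by
      intro x h1 h2
      rw [not_not] at h1 h2
      rw [add_assoc, sub_add_cancel, ← h2] at h1
      rw [sub_eq_sub_iff_add_eq_add, h1, add_comm])
  rwa [card_shift (fun x => f x + g y ≠ h (x + y)) (y' - y)] at this

theorem Uh_ge (y y' : G) :
    Fintype.card G ≤ U h (y' - y) (g y' - g y) + col f g h y + col f g h y' := by
  have := cover3 (fun z => h (z + (y' - y)) - h z = g y' - g y)
    (fun z => f (z + -y) + g y ≠ h (z + -y + y)) (fun z => f (z + -y) + g y' ≠ h (z + -y + y'))
    (by
      intro x h1 h2
      rw [not_not] at h1 h2
      have e1 : x + -y + y = x := by abel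
      have e2 : x + -y + y' = x + (y' - y) := by abel
      rw [e1] at h1
      rw [e2] at h2
      rw [← h1, ← h2]; abel)
  rwa [card_shift (fun x => f x + g y ≠ h (x + y)) (-y),
    card_shift (fun x => f x + g y' ≠ h (x + y')) (-y)] at this

theorem Uh_ge_row (x s : G) :
    Fintype.card G ≤ U h s (f (x + s) - f x) + row f g h x + row f g h (x + s) := by
  have := cover3 (fun z => h (z + s) - h z = f (x + s) - f x)
    (fun z => f x + g (z + -x) ≠ h (x + (z + -x)))
    (fun z => f (x + s) + g (z + -x) ≠ h (x + s + (z + -x)))
    (by
      intro z h1 h2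
      rw [not_not] at h1 h2
      have e1 : x + (z + -x) = z := by abel
      have e2 : x + s + (z + -x) = z + s := by abel
      rw [e1] at h1
      rw [e2] at h2
      rw [← h1, ← h2]; abel)
  rwa [card_shift (fun y => f x + g y ≠ h (x + y)) (-x),
    card_shift (fun y => f (x + s) + g y ≠ h (x + s + y)) (-x)] at this

theorem collision (s : G) :
    Fintype.card G ^ 2 ≤ ∑ x, U h s (f (x + s) - f x) + 2 * err f g h := by
  have h1 : ∑ x : G, row f g h (x + s) = err f g h := by
    rw [← sum_row]
    exact Fintype.sum_equiv (Equiv.addRight s) _ _ (fun _ => rfl)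
  calc Fintype.card G ^ 2 = ∑ _x : G, Fintype.card G := by simp [sq]
    _ ≤ ∑ x, (U h s (f (x + s) - f x) + row f g h x + row f g h (x + s)) :=
        sum_le_sum fun x _ => Uh_ge_row f g h x s
    _ = _ := by rw [sum_add_distrib, sum_add_distrib, h1, sum_row]; ring

theorem majority (hD : 4 * err f g h < Fintype.card G ^ 2) (s : G) :
    ∃ v, Fintype.card G < 2 * U f s v ∧ Fintype.card G < 2 * U h s v ∧
      ((Fintype.card G : ℤ) ^ 2 - 4 * err f g h ≤
        (2 * U f s v - Fintype.card G) * (2 * U h s v - Fintype.card G)) := by
  obtain ⟨v, -, hv⟩ := exists_max_image (univ : Finset G') (U h s) ⟨0, mem_univ _⟩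
  have hc := collision f g h s
  rw [← sum_filter_add_sum_filter_not univ (fun x => f (x + s) - f x = v)] at hc
  have e1 : ∑ x ∈ univ.filter (fun x => f (x + s) - f x = v), U h s (f (x + s) - f x) =
      U f s v * U h s v := by
    rw [sum_congr rfl (g := fun _ => U h s v)]
    · simp [U]
    · intro x hx
      rw [(mem_filter.1 hx).2]
  have e0 : U f s v + (univ.filter (fun x => ¬ f (x + s) - f x = v)).card = Fintype.card G :=
    card_filter_add_card_filter_not _
  have e2 : ∑ x ∈ univ.filter (fun x => ¬ f (x + s) - f x = v), U h s (f (x + s) - f x) ≤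
      (univ.filter (fun x => ¬ f (x + s) - f x = v)).card * U h s v := by
    rw [← smul_eq_mul]
    exact sum_le_card_nsmul _ _ _ fun x _ => hv _ (mem_univ _)
  have e3 : ∑ x ∈ univ.filter (fun x => ¬ f (x + s) - f x = v), U h s (f (x + s) - f x) ≤
      (univ.filter (fun x => ¬ f (x + s) - f x = v)).card * (Fintype.card G - U h s v) := by
    rw [← smul_eq_mul]
    refine sum_le_card_nsmul _ _ _ fun x hx => ?_
    have := U_add h s (mem_filter.1 hx).2
    omega
  have hw := U_le h s v
  rw [e1] at hc
  generalize ∑ x ∈ univ.filter (fun x => ¬ f (x + s) - f x = v), U h s (f (x + s) - f x) = T at *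
  generalize (univ.filter (fun x => ¬ f (x + s) - f x = v)).card = u' at *
  refine ⟨v, ?_⟩
  generalize U f s v = u at *
  generalize U h s v = w at *
  generalize err f g h = D at *
  generalize Fintype.card G = n at *
  subst e0
  zify [hw] at *
  have hu : (0 : ℤ) ≤ u := by positivity
  have hu' : (0 : ℤ) ≤ u' := by positivity
  have k1 : ((u : ℤ) + u') < 2 * w := by nlinarith
  have k2 : ((u : ℤ) + u') ^ 2 - 4 * D ≤ (2 * u - (u + u')) * (2 * w - (u + u')) := by nlinarith
  refine ⟨?_, k1, k2⟩
  by_contra hcon
  have : (2 * (u : ℤ) - (u + u')) * (2 * w - (u + u')) ≤ 0 :=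
    mul_nonpos_of_nonpos_of_nonneg (by linarith) (by linarith)
  linarith

theorem layer (b : G → ℕ) (k c : ℕ)
    (H : ∀ r r', 2 * (r + r') ≤ c →
      (univ.filter fun y => b y ≤ r).card + (univ.filter fun y => b y ≤ r').card ≤
        Fintype.card G + k) :
    c * Fintype.card G ≤ 4 * ∑ y, b y + c * k := by
  rcases le_or_gt (Fintype.card G) k with hk | hk
  · nlinarith [Nat.zero_le (∑ y, b y)]
  set M := c / 2 with hM
  have h1 : ∑ r ∈ range (M + 1), (univ.filter fun y => ¬ b y ≤ r).card ≤ ∑ y, b y := by
    simp only [card_filter]
    rw [sum_comm]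
    refine sum_le_sum fun y _ => ?_
    rw [← card_filter]
    calc _ ≤ (range (b y)).card := card_le_card fun r hr => by
          simp only [mem_filter, mem_range] at hr ⊢; omega
      _ = b y := card_range _
  have h2 : ∀ r, (univ.filter fun y => b y ≤ r).card + (univ.filter fun y => ¬ b y ≤ r).card =
      Fintype.card G := fun r => card_filter_add_card_filter_not _
  have h3 := sum_range_reflect (fun r => (univ.filter fun y => ¬ b y ≤ r).card) (M + 1)
  have h4 : ∑ _r ∈ range (M + 1), Fintype.card G ≤
      ∑ r ∈ range (M + 1), ((univ.filter fun y => ¬ b y ≤ r).card +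
        (univ.filter fun y => ¬ b y ≤ M + 1 - 1 - r).card + k) := by
    refine sum_le_sum fun r hr => ?_
    have hr' := mem_range.1 hr
    have := H r (M + 1 - 1 - r) (by omega)
    have := h2 r
    have := h2 (M + 1 - 1 - r)
    omega
  rw [sum_add_distrib, sum_add_distrib, h3] at h4
  simp only [sum_const, card_range, smul_eq_mul] at h4
  have h5 : c ≤ 2 * (M + 1) := by omega
  obtain ⟨d, hd⟩ : ∃ d, Fintype.card G = k + d := ⟨Fintype.card G - k, by omega⟩
  rw [hd] at h4 ⊢
  nlinarith

theorem core (hf : Function.Injective f) (hD : 4 * err f g h < Fintype.card G ^ 2) :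
    ∃ (H : AddSubgroup G) (ψ : H →+ G'), Function.Injective ψ ∧ Odd H.index ∧
      Fintype.card G ^ 2 ≤ 4 * err f g h + Nat.card H ^ 2 := by
  classical
  choose φ hφ1 hφ2 hφ3 using majority f g h hD
  have huniq : ∀ s v, Fintype.card G < 2 * U f s v → v = φ s := by
    intro s v hv
    by_contra hne
    have := U_add f s hne
    have := hφ1 s
    omega
  have hneg : ∀ s, φ (-s) = -φ s := fun s => (huniq _ _ (by rw [U_neg]; exact hφ1 s)).symm
  have hzero : φ 0 = 0 := by
    refine (huniq _ _ ?_).symm
    have : U f 0 0 = Fintype.card G := by simp [U]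
    have h0 : 0 < Fintype.card G := Fintype.card_pos
    omega
  have hinj : Function.Injective φ := by
    intro s s' hs
    have a := hφ1 s
    have b := hφ1 s'
    by_contra hne
    have : U f s (φ s) + U f s' (φ s') ≤ Fintype.card G := by
      unfold U
      rw [← card_union_of_disjoint]
      · exact card_le_univ _
      · rw [disjoint_filter]
        intro x _ h1 h2
        rw [← hs, ← h1, sub_left_inj] at h2
        exact hne (add_left_cancel (hf h2)).symm
    omega
  have hbad : ∀ y y', g y' - g y ≠ φ (y' - y) →
      U f (y' - y) (φ (y' - y)) ≤ col f g h y + col f g h y' ∧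
      U h (y' - y) (φ (y' - y)) ≤ col f g h y + col f g h y' := by
    intro y y' hne
    have := U_add f (y' - y) hne
    have := U_add h (y' - y) hne
    have := Uf_ge f g h y y'
    have := Uh_ge f g h y y'
    omega
  have hbad1 : ∀ y y' s, y' = y + s → g y' - g y ≠ φ s →
      Fintype.card G < 2 * (col f g h y + col f g h y') := by
    intro y y' s hs hne
    have e : s = y' - y := by rw [hs]; abel
    subst e
    have := (hbad y y' hne).1
    have := hφ1 (y' - y)
    omega
  let H : AddSubgroup G :=
    { carrier := {t | ∀ s, φ (s + t) = φ s + φ t}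
      zero_mem' := by intro s; simp [hzero]
      add_mem' := by
        intro a b ha hb s
        rw [← add_assoc, hb, ha, hb, add_assoc]
      neg_mem' := by
        intro a ha s
        have := ha (s + -a)
        rw [neg_add_cancel_right] at this
        rw [this, hneg]; abel }
  have hH : ∀ t, t ∈ H ↔ ∀ s, φ (s + t) = φ s + φ t := fun t => Iff.rfl
  let ψ : H →+ G' := AddMonoidHom.mk' (fun t => φ t.1) (fun a b => b.2 a.1)
  refine ⟨H, ψ, fun a b hab => Subtype.ext (hinj hab), ?_, ?_⟩
  · by_contra hodd
    rw [Nat.not_odd_iff_even, even_iff_two_dvd] at hodd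
    have : Fact (Nat.Prime 2) := ⟨Nat.prime_two⟩
    obtain ⟨q, hq⟩ := exists_prime_addOrderOf_dvd_card' (G := G ⧸ H) 2 hodd
    obtain ⟨t, rfl⟩ := QuotientAddGroup.mk_surjective q
    have ht1 : t ∉ H := by
      intro ht
      rw [(QuotientAddGroup.eq_zero_iff t).2 ht] at hq
      simp at hq
    have ht2 : t + t ∈ H := by
      rw [← QuotientAddGroup.eq_zero_iff, QuotientAddGroup.mk_add, ← two_nsmul, ← hq]
      exact addOrderOf_nsmul_eq_zero _
    rw [hH] at ht1 ht2
    push Not at ht1
    obtain ⟨s, hs⟩ := ht1
    have h2t : φ (t + t) = φ t + φ t := by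
      have := ht2 (-t)
      rw [neg_add_cancel_left, hneg, eq_neg_add_iff_add_eq] at this
      exact this.symm
    have hst : φ (s + t) = φ (s - t) + φ t + φ t := by
      have := ht2 (s - t)
      rw [h2t, ← add_assoc, sub_add_cancel] at this
      rw [this]; abel
    have key : ∀ x, Fintype.card G ≤ col f g h x + col f g h (x + t) + col f g h (x + s) +
        col f g h (x + (s + t)) := by
      intro x
      by_cases h1 : g (x + t) - g x = g (x + (s + t)) - g (x + s)
      · by_cases h2 : g (x + t) - g x = φ t
        · have h1' : g (x + s) - g x = g (x + (s + t)) - g (x + t) := by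
            rw [sub_eq_sub_iff_add_eq_add] at h1 ⊢
            rw [add_comm, h1]
          by_cases h3 : g (x + s) - g x = φ s
          · have a := hbad1 x (x + (s + t)) (s + t) rfl (by
              intro hh
              apply hs
              rw [← hh, ← h3, ← h2, h1]; abel)
            have b := hbad1 (x + t) (x + s) (s - t) (by abel) (by
              intro hh
              apply hs
              rw [hst, ← hh, ← h3, ← h2]; abel)
            omega
          · have a := hbad1 x (x + s) s rfl h3
            have b := hbad1 (x + t) (x + (s + t)) s (by abel) (by rw [← h1']; exact h3)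
            omega
        · have a := hbad1 x (x + t) t rfl h2
          have b := hbad1 (x + s) (x + (s + t)) t (by abel) (by rw [← h1]; exact h2)
          omega
      · have a := Uf_ge f g h x (x + t)
        have b := Uf_ge f g h (x + s) (x + (s + t))
        have e1 : x + t - x = t := by abel
        have e2 : x + (s + t) - (x + s) = t := by abel
        rw [e1] at a
        rw [e2] at b
        have := U_add f t h1
        omega
    have hsum : ∀ c : G, ∑ x : G, col f g h (x + c) = err f g h := by
      intro c
      rw [← sum_col]
      exact Fintype.sum_equiv (Equiv.addRight c) _ _ (fun _ => rfl)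
    have : ∑ _x : G, Fintype.card G ≤ ∑ x : G, (col f g h x + col f g h (x + t) +
        col f g h (x + s) + col f g h (x + (s + t))) := sum_le_sum fun x _ => key x
    rw [sum_add_distrib, sum_add_distrib, sum_add_distrib, hsum, hsum, hsum, sum_col] at this
    simp only [sum_const, card_univ, smul_eq_mul] at this
    nlinarith
  · by_contra hcon
    rw [not_le] at hcon
    set k := Nat.card H with hk
    have hbad2 : ∀ y y', g y' - g y ≠ φ (y' - y) →
        Fintype.card G + k < 2 * (col f g h y + col f g h y') := by
      intro y y' hne
      obtain ⟨a, b⟩ := hbad y y' hne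
      have c1 := hφ1 (y' - y)
      have c2 := hφ2 (y' - y)
      have c3 := hφ3 (y' - y)
      generalize col f g h y + col f g h y' = B at *
      generalize U f (y' - y) (φ (y' - y)) = u at *
      generalize U h (y' - y) (φ (y' - y)) = w at *
      generalize err f g h = D at *
      generalize Fintype.card G = n at *
      by_contra hle
      rw [not_lt] at hle
      zify at *
      have : (2 * (u : ℤ) - n) * (2 * w - n) ≤ k * k :=
        mul_le_mul (by linarith) (by linarith) (by linarith) (by positivity)
      nlinarith
    have hlay := layer (col f g h) k (Fintype.card G + k) (by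
      intro r r' hr
      by_contra hgt
      rw [not_le] at hgt
      set X := univ.filter fun y => col f g h y ≤ r with hX
      set Y := univ.filter fun y => col f g h y ≤ r' with hY
      have hXle : X.card ≤ Fintype.card G := card_le_univ _
      have hYle : Y.card ≤ Fintype.card G := card_le_univ _
      have hgood : ∀ y' ∈ X, ∀ y ∈ Y, g y' - g y = φ (y' - y) := by
        intro y' hy' y hy
        by_contra hne
        have := hbad2 y y' hne
        have := (mem_filter.1 hy').2
        have := (mem_filter.1 hy).2
        omega
      let A : Finset (G × G') := X.image fun y => (y, g y)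
      let B : Finset (G × G') := Y.image fun y => (-y, -g y)
      let Φ : Finset (G × G') := univ.image fun s => (s, φ s)
      have hA : A.card = X.card :=
        card_image_of_injective _ fun a b hab => congrArg Prod.fst hab
      have hB : B.card = Y.card :=
        card_image_of_injective _ fun a b hab => neg_injective (congrArg Prod.fst hab)
      have hΦ : Φ.card = Fintype.card G :=
        card_image_of_injective _ fun a b hab => congrArg Prod.fst hab
      have hmem : ∀ p : G × G', p ∈ Φ ↔ p.2 = φ p.1 := by
        rintro ⟨a, b⟩
        simp only [Φ, mem_image, mem_univ, true_and, Prod.mk.injEq]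
        constructor
        · rintro ⟨s, rfl, rfl⟩; rfl
        · rintro rfl; exact ⟨a, rfl, rfl⟩
      have hAB : A + B = Φ := by
        ext p
        rw [hmem, mem_add]
        constructor
        · rintro ⟨a, ha, b, hb, rfl⟩
          obtain ⟨y', hy', rfl⟩ := mem_image.1 ha
          obtain ⟨y, hy, rfl⟩ := mem_image.1 hb
          have := hgood y' hy' y hy
          simpa [sub_eq_add_neg] using this
        · intro hp
          have hnd : ¬ Disjoint X (Y.image fun y => y + p.1) := by
            intro hd
            have h1 := card_union_of_disjoint hd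
            rw [card_image_of_injective _ (add_left_injective p.1)] at h1
            have h2 : (X ∪ Y.image fun y => y + p.1).card ≤ Fintype.card G := card_le_univ _
            omega
          rw [not_disjoint_iff] at hnd
          obtain ⟨y', hy', hy''⟩ := hnd
          obtain ⟨y, hy, rfl⟩ := mem_image.1 hy''
          refine ⟨_, mem_image_of_mem _ hy', _, mem_image_of_mem _ hy, ?_⟩
          have := hgood _ hy' y hy
          rw [add_sub_cancel_left] at this
          ext
          · simp
          · simp only [Prod.mk_add_mk]
            rw [hp, ← this]; abel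
      have hkn := Pool.Agent.Helper450.Kneser.kneser A B
        (by rw [← card_pos, hA]; omega) (by rw [← card_pos, hB]; omega)
      rw [hAB, hA, hB, hΦ] at hkn
      have hst : (Pool.Agent.Helper450.Kneser.fs (Pool.Agent.Helper450.Kneser.stab Φ)).card ≤ k := by
        have hk' : k = (univ.filter fun t => t ∈ H).card := by
          rw [hk, Nat.card_eq_fintype_card, Fintype.card_subtype]
        rw [hk']
        have hp : ∀ p ∈ Pool.Agent.Helper450.Kneser.fs (Pool.Agent.Helper450.Kneser.stab Φ),
            ∀ s, φ s + p.2 = φ (s + p.1) := by
          intro p hp s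
          rw [Pool.Agent.Helper450.Kneser.mem_fs] at hp
          have := Pool.Agent.Helper450.Kneser.stab_add hp ((hmem (s, φ s)).2 rfl)
          rw [hmem] at this
          exact this
        have hp2 : ∀ p ∈ Pool.Agent.Helper450.Kneser.fs (Pool.Agent.Helper450.Kneser.stab Φ),
            p.2 = φ p.1 := by
          intro p h'
          have := hp p h' 0
          simpa [hzero] using this
        apply card_le_card_of_injOn Prod.fst
        · intro p h'
          simp only [coe_filter, mem_univ, true_and, Set.mem_ofPred_eq]
          rw [hH]
          intro s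
          rw [← hp p h' s, hp2 p h']
        · intro p h1 q h2 hpq
          exact Prod.ext hpq (by rw [hp2 p h1, hp2 q h2, hpq])
      omega)
    rw [sum_col] at hlay
    nlinarith

end Pool.Agent.H221Z.Cay
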