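import Mathlib

set_option autoImplicit false

namespace Pool.Agent.H221Z.Cay

/-- `A` is a Cayley table of the abelian group `G` (written additively): there are bijections
`α, β, γ` from the index set to `G` with `γ (A i j) = α i + β j`. -/
def IsCayleyTable {n : ℕ} (G : Type) [AddCommGroup G] (A : Fin n → Fin n → Fin n) : Prop :=
  ∃ α β γ : Fin n ≃ G, ∀ i j, γ (A i j) = α i + β j

/-- For every abelian group `G` of order `n`, every Cayley table `A` of `G` and every set `S` of
`k` cells, `A` with the cells of `S` deleted determines `G`. -/
def Determines (n k : ℕ) : Prop :=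
  ∀ (G : Type) [AddCommGroup G] (A : Fin n → Fin n → Fin n), IsCayleyTable G A →
    ∀ S : Finset (Fin n × Fin n), S.card = k →
      ∀ (G' : Type) [AddCommGroup G'] (A' : Fin n → Fin n → Fin n), IsCayleyTable G' A' →
        (∀ i j, (i, j) ∉ S → A' i j = A i j) → Nonempty (G' ≃+ G)

/-- `k (n) = k`: the number `k` is the greatest number of cells, at most `n ^ 2`, whose deletion
always leaves the group determined. -/
def IsK (n k : ℕ) : Prop := IsGreatest {l | l ≤ n ^ 2 ∧ Determines n l} k

end Pool.Agent.H221Z.Cay
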