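import Pool.Agent.H221Z.CayCore
import Pool.Agent.H221Z.CayDefs

set_option autoImplicit false

open Finset

namespace Pool.Agent.H221Z.Cay

theorem split_mul {G : Type*} [CommGroup G] (H : Subgroup G)
    (hc : Nat.Coprime (Nat.card H) H.index) :
    ∃ N : Subgroup G, Nat.card N = H.index ∧ Nonempty (H × N ≃* G) := by
  obtain ⟨N, hN⟩ := Subgroup.exists_right_complement'_of_coprime hc
  refine ⟨N, hN.symm.index_eq_card.symm, ⟨MulEquiv.ofBijective (H.subtype.coprod N.subtype) ?_⟩⟩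
  exact hN

theorem cyclic_of_squarefree {G : Type*} [CommGroup G] (h : Squarefree (Nat.card G)) :
    IsCyclic G := by
  have : Finite G := Nat.finite_of_card_ne_zero h.ne_zero
  have := IsZGroup.of_squarefree h
  infer_instance

theorem iso_mul {G G' : Type*} [CommGroup G] [CommGroup G'] [Finite G] (H : Subgroup G)
    (ψ : H →* G') (hψ : Function.Injective ψ) (hcard : Nat.card G = Nat.card G')
    (hc : Nat.Coprime (Nat.card H) H.index) (hsq : Squarefree H.index) : Nonempty (G' ≃* G) := by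
  have e := MonoidHom.ofInjective hψ
  have h1 : Nat.card ψ.range = Nat.card H := (Nat.card_congr e.toEquiv).symm
  have h2 : ψ.range.index = H.index := by
    have a := ψ.range.card_mul_index
    have b := H.card_mul_index
    rw [h1, ← hcard, ← b] at a
    exact Nat.eq_of_mul_eq_mul_left Nat.card_pos a
  obtain ⟨N, hN, ⟨u⟩⟩ := split_mul H hc
  obtain ⟨N', hN', ⟨u'⟩⟩ := split_mul ψ.range (by rw [h1, h2]; exact hc)
  have := cyclic_of_squarefree (G := N) (by rw [hN]; exact hsq)
  have := cyclic_of_squarefree (G := N') (by rw [hN', h2]; exact hsq)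
  have v : N' ≃* N := mulEquivOfCyclicCardEq (by rw [hN, hN', h2])
  exact ⟨u'.symm.trans ((MulEquiv.prodCongr e.symm v).trans u)⟩

theorem iso_add {G G' : Type*} [AddCommGroup G] [AddCommGroup G'] [Finite G] (H : AddSubgroup G)
    (ψ : H →+ G') (hψ : Function.Injective ψ) (hcard : Nat.card G = Nat.card G')
    (hc : Nat.Coprime (Nat.card H) H.index) (hsq : Squarefree H.index) : Nonempty (G' ≃+ G) := by
  let ψ' : AddSubgroup.toSubgroup H →* Multiplicative G' :=
    MonoidHom.mk' (fun x => Multiplicative.ofAdd (ψ ⟨Multiplicative.toAdd x.1, x.2⟩))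
      (fun a b => ψ.map_add ⟨Multiplicative.toAdd a.1, a.2⟩ ⟨Multiplicative.toAdd b.1, b.2⟩)
  obtain ⟨e⟩ := iso_mul (AddSubgroup.toSubgroup H) ψ'
    (fun a b hab => Subtype.ext (congrArg Subtype.val (hψ hab))) hcard
    (by rw [AddSubgroup.index_toSubgroup]; exact hc)
    (by rw [AddSubgroup.index_toSubgroup]; exact hsq)
  exact ⟨MulEquiv.toAdditive e⟩

theorem four_mul_odd {q n : ℕ} (hq : Odd q) (h : q ∣ n) :
    4 * (q ^ 2 / 4 * (n / q) ^ 2) + (n / q) ^ 2 = n ^ 2 := by
  obtain ⟨c, rfl⟩ := h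
  obtain ⟨a, rfl⟩ := hq
  rw [Nat.mul_div_cancel_left _ (by omega)]
  have : (2 * a + 1) ^ 2 / 4 = a * a + a := by
    have : (2 * a + 1) ^ 2 = 1 + 4 * (a * a + a) := by ring
    rw [this, Nat.add_mul_div_left _ _ (by norm_num)]; simp
  rw [this]; ring

theorem four_mul_le {q n : ℕ} : 4 * (q ^ 2 / 4 * (n / q) ^ 2) ≤ n ^ 2 := by
  have h1 : 4 * (q ^ 2 / 4) ≤ q ^ 2 := Nat.mul_div_le _ _
  have h2 : q * (n / q) ≤ n := Nat.mul_div_le _ _
  calc 4 * (q ^ 2 / 4 * (n / q) ^ 2) = 4 * (q ^ 2 / 4) * (n / q) ^ 2 := by ring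
    _ ≤ q ^ 2 * (n / q) ^ 2 := Nat.mul_le_mul_right _ h1
    _ = (q * (n / q)) ^ 2 := by ring
    _ ≤ n ^ 2 := Nat.pow_le_pow_left h2 2

theorem lower {n k : ℕ} (_hn : 1 ≤ n)
    (hk : ∀ q : ℕ, q.Prime → q ^ 2 ∣ n → k < q ^ 2 / 4 * (n / q) ^ 2) : Determines n k := by
  classical
  rintro G _ A ⟨α, β, γ, hA⟩ S hS G' _ A' ⟨α', β', γ', hA'⟩ hagree
  have : Fintype G := Fintype.ofEquiv _ α
  have : Fintype G' := Fintype.ofEquiv _ α'
  have hG : Nat.card G = n := by rw [← Nat.card_congr α]; simp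
  have hG' : Nat.card G' = n := by rw [← Nat.card_congr α']; simp
  by_cases hsq : Squarefree n
  · refine iso_add (⊥ : AddSubgroup G) 0 (fun a b _ => Subsingleton.elim a b)
      (hG.trans hG'.symm) (by simp) ?_
    rw [AddSubgroup.index_bot, hG]; exact hsq
  rw [Nat.squarefree_iff_prime_squarefree] at hsq
  push Not at hsq
  obtain ⟨q0, hq0, hq0'⟩ := hsq
  have hk0 := hk q0 hq0 (by rwa [sq])
  have hk1 := four_mul_le (q := q0) (n := n)
  let f : G → G' := fun x => α' (α.symm x)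
  let g : G → G' := fun x => β' (β.symm x)
  let h : G → G' := fun x => γ' (γ.symm x)
  have herr : err f g h ≤ k := by
    rw [← hS]
    apply card_le_card_of_injOn (fun p => (α.symm p.1, β.symm p.2))
    · intro p hp
      simp only [coe_filter, mem_univ, true_and, Set.mem_ofPred_eq] at hp
      by_contra hne
      apply hp
      have h1 := hagree _ _ hne
      have h2 := hA (α.symm p.1) (β.symm p.2)
      rw [Equiv.apply_symm_apply, Equiv.apply_symm_apply] at h2
      simp only [f, g, h]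
      rw [← hA', h1, ← h2, Equiv.symm_apply_apply]
    · intro p _ q _ hpq
      simp only [Prod.mk.injEq, EmbeddingLike.apply_eq_iff_eq] at hpq
      exact Prod.ext hpq.1 hpq.2
  have hF : Fintype.card G = n := by rw [← Nat.card_eq_fintype_card, hG]
  obtain ⟨H, ψ, hψ, hodd, hb⟩ := core f g h (α'.injective.comp α.symm.injective)
    (by rw [hF]; omega)
  rw [hF] at hb
  have hmul := H.card_mul_index
  rw [hG] at hmul
  have key : ∀ q : ℕ, q.Prime → q ∣ H.index → ¬ q ^ 2 ∣ n := by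
    intro q hq hqi hq2
    have hqo : Odd q := hodd.of_dvd_nat hqi
    have h1 := hk q hq hq2
    have h2 := four_mul_odd hqo (dvd_trans (dvd_pow_self q two_ne_zero) hq2)
    have h3 : Nat.card H ≤ n / q := by
      rw [Nat.le_div_iff_mul_le hq.pos, ← hmul]
      refine Nat.mul_le_mul_left _ (Nat.le_of_dvd hodd.pos hqi)
    have h4 := Nat.pow_le_pow_left h3 2
    omega
  refine iso_add H ψ hψ (hG.trans hG'.symm) ?_ ?_
  · apply Nat.Coprime.symm
    apply Nat.coprime_of_dvd
    intro q hq h1 h2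
    apply key q hq h1
    rw [← hmul, sq]
    exact Nat.mul_dvd_mul h2 h1
  · rw [Nat.squarefree_iff_prime_squarefree]
    intro q hq h1
    apply key q hq (dvd_trans (dvd_mul_left q q) h1)
    rw [← hmul, sq]
    exact dvd_mul_of_dvd_right h1 _

/-- Digit map. -/
def dig (p m k : ℕ) (x : ZMod p × ZMod m) : ZMod (p * m) :=
  ((k + (x.1 - k).val + p * x.2.val : ℕ) : ZMod (p * m))

theorem dig_bij (p m k : ℕ) [NeZero p] [NeZero m] : Function.Bijective (dig p m k) := by
  rw [Fintype.bijective_iff_injective_and_card]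
  refine ⟨?_, by simp [ZMod.card]⟩
  rintro ⟨a, b⟩ ⟨a', b'⟩ h
  simp only [dig, add_assoc] at h
  rw [Nat.cast_add, Nat.cast_add k, add_right_inj, ZMod.natCast_eq_natCast_iff'] at h
  have h1 := ZMod.val_lt (a - (k : ZMod p))
  have h2 := ZMod.val_lt (a' - (k : ZMod p))
  have h3 := ZMod.val_lt b
  have h4 := ZMod.val_lt b'
  rw [Nat.mod_eq_of_lt (by nlinarith), Nat.mod_eq_of_lt (by nlinarith)] at h
  have h5 := congrArg (· % p) h
  simp only [Nat.add_mul_mod_self_left, Nat.mod_eq_of_lt h1, Nat.mod_eq_of_lt h2] at h5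
  rw [h5, add_right_inj] at h
  have h6 := Nat.eq_of_mul_eq_mul_left (NeZero.pos p) h
  exact Prod.ext (sub_left_injective (ZMod.val_injective p h5)) (ZMod.val_injective m h6)

theorem dig_add (p m k : ℕ) [NeZero p] [NeZero m] (x y : ZMod p × ZMod m)
    (h1 : k ≤ x.1.val + y.1.val) (h2 : x.1.val + y.1.val < p + k) :
    dig p m k (x + y) = dig p m 0 x + dig p m 0 y := by
  have e1 : (x.1 + y.1 - k).val = x.1.val + y.1.val - k := by
    have : x.1 + y.1 - k = ((x.1.val + y.1.val - k : ℕ) : ZMod p) := by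
      rw [Nat.cast_sub h1]; simp
    rw [this, ZMod.val_cast_of_lt (by omega)]
  have e2 : ((p * (x.2 + y.2).val : ℕ) : ZMod (p * m)) = ((p * (x.2.val + y.2.val) : ℕ)) := by
    rw [ZMod.val_add, ← Nat.mul_mod_mul_left, ZMod.natCast_mod]
  simp only [dig, Prod.fst_add, Prod.snd_add, e1]
  rw [Nat.cast_add, e2, ← Nat.cast_add, ← Nat.cast_add]
  congr 1
  simp only [Nat.cast_zero, sub_zero, mul_add]
  omega

theorem tri (k : ℕ) (T : Finset (ℕ × ℕ)) (h : ∀ x ∈ T, x.1 + x.2 < k) :
    2 * T.card ≤ k * (k + 1) := by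
  have h1 : T ⊆ (range k).biUnion HasAntidiagonal.antidiagonal := by
    intro x hx
    simp only [mem_biUnion, mem_range, HasAntidiagonal.mem_antidiagonal]
    exact ⟨_, h x hx, rfl⟩
  have h2 : T.card ≤ ∑ s ∈ range k, (s + 1) := by
    refine (card_le_card h1).trans (card_biUnion_le.trans (le_of_eq ?_))
    simp
  have h3 : ∀ k, 2 * ∑ s ∈ range k, (s + 1) = k * (k + 1) := by
    intro k
    induction k with
    | zero => simp
    | succ k ih => rw [sum_range_succ, mul_add, ih]; ring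
  rw [← h3]; omega

theorem bad_count (p : ℕ) [NeZero p] :
    (univ.filter fun x : ZMod p × ZMod p =>
      ¬ ((p - 1) / 2 ≤ x.1.val + x.2.val ∧ x.1.val + x.2.val < p + (p - 1) / 2)).card ≤
      p ^ 2 / 4 := by
  have hp := NeZero.pos p
  set k := (p - 1) / 2 with hk
  have hs : (univ.filter fun x : ZMod p × ZMod p =>
      ¬ (k ≤ x.1.val + x.2.val ∧ x.1.val + x.2.val < p + k)) ⊆
      (univ.filter fun x : ZMod p × ZMod p => x.1.val + x.2.val < k) ∪
      (univ.filter fun x : ZMod p × ZMod p => p + k ≤ x.1.val + x.2.val) := by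
    intro x hx
    simp only [mem_filter, mem_univ, true_and, mem_union] at hx ⊢
    omega
  have h1 := tri k ((univ.filter fun x : ZMod p × ZMod p => x.1.val + x.2.val < k).image
    fun x => (x.1.val, x.2.val)) (by
      intro x hx
      obtain ⟨y, hy, rfl⟩ := mem_image.1 hx
      exact (mem_filter.1 hy).2)
  rw [card_image_of_injective _ (fun a b hab => Prod.ext
    (ZMod.val_injective p (congrArg Prod.fst hab))
    (ZMod.val_injective p (congrArg Prod.snd hab)))] at h1
  have h2 := tri (p - 1 - k)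
    ((univ.filter fun x : ZMod p × ZMod p => p + k ≤ x.1.val + x.2.val).image
    fun x => (p - 1 - x.1.val, p - 1 - x.2.val)) (by
      intro x hx
      obtain ⟨y, hy, rfl⟩ := mem_image.1 hx
      have := (mem_filter.1 hy).2
      have := ZMod.val_lt y.1
      have := ZMod.val_lt y.2
      simp only
      omega)
  rw [card_image_of_injective _ (fun a b hab => by
    have := ZMod.val_lt a.1
    have := ZMod.val_lt a.2
    have := ZMod.val_lt b.1
    have := ZMod.val_lt b.2
    simp only [Prod.mk.injEq] at hab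
    exact Prod.ext (ZMod.val_injective p (by omega)) (ZMod.val_injective p (by omega)))] at h2
  have h3 := (card_le_card hs).trans (card_union_le _ _)
  rw [Nat.le_div_iff_mul_le (by norm_num)]
  rcases Nat.even_or_odd' p with ⟨a, ha | ha⟩
  · have e1 : k + 1 = a := by omega
    have e2 : p - 1 - k = k + 1 := by omega
    rw [e2] at h2
    have e3 : p ^ 2 = 4 * ((k + 1) * (k + 1)) := by rw [ha, ← e1]; ring
    nlinarith
  · have e1 : k = a := by omega
    have e2 : p - 1 - k = k := by omega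
    rw [e2] at h2
    have e3 : p ^ 2 = 4 * (k * (k + 1)) + 1 := by rw [ha, ← e1]; ring
    nlinarith

theorem upper {n p k : ℕ} (hn : 1 ≤ n) (hp : p.Prime) (hd : p ^ 2 ∣ n) (hk : k ≤ n ^ 2)
    (h : Determines n k) : k < p ^ 2 / 4 * (n / p) ^ 2 := by
  classical
  by_contra hcon
  rw [not_lt] at hcon
  obtain ⟨c, hc⟩ := hd
  set m := p * c with hm
  have hnm : n = p * m := by rw [hc, hm]; ring
  have hm0 : 0 < m := Nat.pos_of_mul_pos_left (hnm ▸ hn)
  have : NeZero p := ⟨hp.ne_zero⟩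
  have : NeZero m := ⟨hm0.ne'⟩
  have hdiv : n / p = m := by rw [hnm, Nat.mul_div_cancel_left _ hp.pos]
  rw [hdiv] at hcon
  let ι : Fin n ≃ ZMod p × ZMod m := Fintype.equivOfCardEq (by simp [ZMod.card, hnm])
  let E : ℕ → (ZMod p × ZMod m) ≃ ZMod (p * m) := fun k => Equiv.ofBijective _ (dig_bij p m k)
  let A : Fin n → Fin n → Fin n := fun i j => ι.symm (ι i + ι j)
  let A' : Fin n → Fin n → Fin n := fun i j =>
    (ι.trans (E ((p - 1) / 2))).symm (E 0 (ι i) + E 0 (ι j))
  let S0 : Finset (Fin n × Fin n) := univ.filter fun x =>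
    ¬ ((p - 1) / 2 ≤ (ι x.1).1.val + (ι x.2).1.val ∧
      (ι x.1).1.val + (ι x.2).1.val < p + (p - 1) / 2)
  have hS0 : S0.card ≤ k := by
    refine le_trans ?_ hcon
    calc S0.card ≤ ((univ.filter fun x : ZMod p × ZMod p =>
          ¬ ((p - 1) / 2 ≤ x.1.val + x.2.val ∧ x.1.val + x.2.val < p + (p - 1) / 2)) ×ˢ
          (univ : Finset (ZMod m × ZMod m))).card := by
          apply card_le_card_of_injOn
            (fun x => (((ι x.1).1, (ι x.2).1), ((ι x.1).2, (ι x.2).2)))
          · intro x hx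
            simpa [S0] using hx
          · intro x _ y _ hxy
            simp only [Prod.mk.injEq] at hxy
            exact Prod.ext (ι.injective (Prod.ext hxy.1.1 hxy.2.1))
              (ι.injective (Prod.ext hxy.1.2 hxy.2.2))
      _ ≤ p ^ 2 / 4 * m ^ 2 := by
          rw [card_product, card_univ, Fintype.card_prod, ZMod.card, ← sq]
          exact Nat.mul_le_mul_right _ (bad_count p)
  obtain ⟨S, hS1, -, hS2⟩ := exists_subsuperset_card_eq (subset_univ S0) hS0
    (by simpa [sq] using hk)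
  obtain ⟨e⟩ := h (ZMod p × ZMod m) A ⟨ι, ι, ι, fun i j => by simp [A]⟩ S hS2
    (ZMod (p * m)) A' ⟨ι.trans (E 0), ι.trans (E 0), ι.trans (E ((p - 1) / 2)), fun i j => by
      simp only [A', Equiv.apply_symm_apply]; rfl⟩ (by
      intro i j hij
      have h1 : (i, j) ∉ S0 := fun h' => hij (hS1 h')
      simp only [S0, mem_filter, mem_univ, true_and, not_not] at h1
      simp only [A', A]
      rw [Equiv.symm_apply_eq]
      simp only [Equiv.trans_apply, Equiv.apply_symm_apply]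
      exact (dig_add p m _ _ _ h1.1 h1.2).symm)
  have h1 : m • e 1 = 0 := by
    ext
    · simp [hm]
    · simp
  rw [← map_nsmul, map_eq_zero_iff _ e.injective, nsmul_one, ZMod.natCast_eq_zero_iff] at h1
  have h2 := Nat.le_of_dvd hm0 h1
  have := hp.two_le
  nlinarith

theorem isK_of {n p : ℕ} (hn : 1 ≤ n) (hp : p.Prime) (hd : p ^ 2 ∣ n)
    (hmin : ∀ q : ℕ, q.Prime → q ^ 2 ∣ n → p ^ 2 / 4 * (n / p) ^ 2 ≤ q ^ 2 / 4 * (n / q) ^ 2) :
    IsK n (p ^ 2 / 4 * (n / p) ^ 2 - 1) := by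
  have h0 := upper (k := 0) hn hp hd (Nat.zero_le _) (lower hn (by
    intro q hq hq2
    have h1 : 0 < q ^ 2 / 4 := Nat.div_pos (Nat.pow_le_pow_left hq.two_le 2) (by norm_num)
    have h2 : 0 < n / q :=
      Nat.div_pos (Nat.le_of_dvd hn (dvd_trans (dvd_pow_self q two_ne_zero) hq2)) hq.pos
    positivity))
  have h1 := four_mul_le (q := p) (n := n)
  refine ⟨⟨by omega, lower hn fun q hq hq2 => ?_⟩, ?_⟩
  · have := hmin q hq hq2
    omega
  · rintro l ⟨hl1, hl2⟩
    have := upper hn hp hd hl1 hl2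
    omega

theorem main (n : ℕ) (hn : 1 ≤ n) :
    (Squarefree n → IsK n (n ^ 2)) ∧
    (∀ p : ℕ, p.Prime → Odd p → p ^ 2 ∣ n → (∀ q : ℕ, q.Prime → Odd q → q ^ 2 ∣ n → p ≤ q) →
      IsK n ((p ^ 2 - 1) / 4 * (n / p) ^ 2 - 1)) ∧
    (4 ∣ n → (∀ q : ℕ, q.Prime → Odd q → ¬ q ^ 2 ∣ n) → IsK n (n ^ 2 / 4 - 1)) := by
  have h2 : 4 ∣ n → 4 * (2 ^ 2 / 4 * (n / 2) ^ 2) = n ^ 2 := by
    rintro ⟨c, rfl⟩
    have : 4 * c / 2 = 2 * c := by omega
    rw [this]; ring
  refine ⟨fun hsq => ⟨⟨le_rfl, lower hn fun q hq hq2 => ?_⟩, fun l hl => hl.1⟩, ?_, ?_⟩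
  · rw [Nat.squarefree_iff_prime_squarefree] at hsq
    exact absurd (by rwa [sq] at hq2) (hsq q hq)
  · intro p hp hpo hd hmin
    have e : (p ^ 2 - 1) / 4 = p ^ 2 / 4 := by
      obtain ⟨a, rfl⟩ := hpo
      have : (2 * a + 1) ^ 2 = 4 * (a * a + a) + 1 := by ring
      rw [this]; omega
    rw [e]
    refine isK_of hn hp hd fun q hq hq2 => ?_
    have a := four_mul_odd hpo (dvd_trans (dvd_pow_self p two_ne_zero) hd)
    rcases hq.eq_two_or_odd' with rfl | hqo
    · have := h2 hq2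
      omega
    · have b := four_mul_odd hqo (dvd_trans (dvd_pow_self q two_ne_zero) hq2)
      have c := Nat.pow_le_pow_left (Nat.div_le_div_left (a := n) (hmin q hq hqo hq2) hp.pos) 2
      omega
  · intro h4 hno
    have e : n ^ 2 / 4 = 2 ^ 2 / 4 * (n / 2) ^ 2 := by
      have := h2 h4
      omega
    rw [e]
    refine isK_of hn Nat.prime_two h4 fun q hq hq2 => ?_
    rcases hq.eq_two_or_odd' with rfl | hqo
    · exact le_rfl
    · exact absurd hq2 (hno q hq hqo)

end Pool.Agent.H221Z.Cay
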