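import Pool.Agent.H221Z.KRWDefs

set_option autoImplicit false

open Filter Topology
open scoped ENNReal

namespace Pool.Agent.H221Z.KRW

variable {d : ℕ}

/-- weight of walks of length `n` -/
noncomputable def W (c : Lat d → ℝ≥0∞) (n : ℕ) (x y : Lat d) : ℝ≥0∞ :=
  ∑' γ : Fin (n + 1) → Lat d,
    if γ 0 = x ∧ γ (Fin.last n) = y then ∏ i : Fin n, c (γ i.castSucc - γ i.succ) else 0

lemma W_zero (c : Lat d → ℝ≥0∞) (x y : Lat d) : W c 0 x y = if x = y then 1 else 0 := by
  unfold W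
  rw [tsum_eq_single (fun _ => x)]
  · simp
  · intro γ hγ
    rw [if_neg]
    rintro ⟨h, _⟩
    apply hγ
    funext i
    have hi : i = 0 := Fin.ext (by have := i.2; simp only [Fin.val_zero]; omega)
    rw [hi, h]

lemma W_succ (c : Lat d → ℝ≥0∞) (n : ℕ) (x y : Lat d) :
    W c (n + 1) x y = ∑' z, c (x - z) * W c n z y := by
  unfold W
  rw [← (Fin.consEquiv (fun _ : Fin (n + 2) => Lat d)).tsum_eq, ENNReal.tsum_prod']
  rw [tsum_eq_single x]
  · simp_rw [← ENNReal.tsum_mul_left]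
    rw [ENNReal.tsum_comm]
    congr 1
    funext γ
    rw [tsum_eq_single (γ 0)]
    · simp only [Fin.consEquiv_apply, Fin.cons_zero, true_and]
      have h1 : (Fin.cons x γ : Fin (n + 2) → Lat d) (Fin.last (n + 1)) = γ (Fin.last n) := by
        rw [← Fin.succ_last, Fin.cons_succ]
      rw [h1]
      split_ifs with h
      · rw [Fin.prod_univ_succ]
        congr 1
      · simp
    · intro z hz
      rw [if_neg, mul_zero]
      rintro ⟨h, _⟩
      exact hz h.symm
  · intro a ha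
    rw [ENNReal.tsum_eq_zero]
    intro γ
    rw [if_neg]
    rintro ⟨h, _⟩
    apply ha
    simpa using h

lemma W_shift (c : Lat d → ℝ≥0∞) (n : ℕ) : ∀ x y a : Lat d, W c n (x + a) (y + a) = W c n x y := by
  induction n with
  | zero => intro x y a; simp [W_zero]
  | succ n ih =>
    intro x y a
    rw [W_succ, W_succ, ← (Equiv.addRight a).tsum_eq]
    congr 1
    funext z
    simp only [Equiv.coe_addRight]
    rw [ih, add_sub_add_right_eq_sub]

lemma W_mass (c : Lat d → ℝ≥0∞) (n : ℕ) : ∀ x : Lat d, ∑' y, W c n x y = (∑' z, c z) ^ n := by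
  induction n with
  | zero =>
    intro x
    simp_rw [W_zero]
    rw [tsum_eq_single x (fun y hy => if_neg (Ne.symm hy))]
    simp
  | succ n ih =>
    intro x
    simp_rw [W_succ]
    rw [ENNReal.tsum_comm]
    simp_rw [ENNReal.tsum_mul_left, ih]
    rw [ENNReal.tsum_mul_right, pow_succ', ← (Equiv.subLeft x).tsum_eq c]
    simp

variable {N : (Fin d → ℝ) → ℝ} {ψ : Lat d → ℝ}

lemma J_nonneg (h : Admissible N ψ) (x : Lat d) : 0 ≤ J N ψ x := by
  unfold J
  split_ifs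
  · exact le_rfl
  · exact mul_nonneg (h.psi_nonneg x) (Real.exp_pos _).le

lemma J_pos (h : Admissible N ψ) {x : Lat d} (hx : x ≠ 0) : 0 < J N ψ x := by
  unfold J
  rw [if_neg hx]
  exact mul_pos (h.psi_pos x hx) (Real.exp_pos _)

lemma N_neg (h : Admissible N ψ) (u : Fin d → ℝ) : N (-u) = N u := by
  have := h.norm_smul (-1) u
  simpa using this

lemma toR_neg (x : Lat d) : toR (-x) = -toR x := by
  funext i; simp [toR]

lemma J_neg (h : Admissible N ψ) (x : Lat d) : J N ψ (-x) = J N ψ x := by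
  unfold J
  have h1 : ψ (-x) = ψ x := by
    have := h.psi_symm 1 (fun _ => -1) x
    rw [← this]
    congr 1
    funext i
    simp
  rw [h1, toR_neg, N_neg h]
  simp only [neg_eq_zero]

lemma G_eq (lam : ℝ) (x y : Lat d) :
    G N ψ lam x y = ∑' n, W (fun z => ENNReal.ofReal (lam * J N ψ z)) n x y := rfl

lemma c_mass (h : Admissible N ψ) {lam : ℝ} (hl : 0 ≤ lam) :
    ∑' z, ENNReal.ofReal (lam * J N ψ z) = ENNReal.ofReal lam := by
  rw [← ENNReal.ofReal_tsum_of_nonneg (fun z => mul_nonneg hl (J_nonneg h z))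
    (h.normalised.summable.mul_left lam), (h.normalised.mul_left lam).tsum_eq, mul_one]

lemma G_mass (h : Admissible N ψ) {lam : ℝ} (hl : 0 ≤ lam) :
    ∑' y, G N ψ lam 0 y = (1 - ENNReal.ofReal lam)⁻¹ := by
  simp_rw [G_eq]
  rw [ENNReal.tsum_comm]
  simp_rw [W_mass, c_mass h hl]
  exact ENNReal.tsum_geometric _

lemma G_mass_lt (h : Admissible N ψ) {lam : ℝ} (hl : 0 ≤ lam) :
    ∑' y, G N ψ lam 0 y < ∞ ↔ lam < 1 := by
  rw [G_mass h hl, ENNReal.inv_lt_top, tsub_pos_iff_lt, ENNReal.ofReal_lt_one]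

lemma lamC_eq (h : Admissible N ψ) : lamC N ψ = 1 := by
  unfold lamC
  have : {lam : ℝ | 0 ≤ lam ∧ ∑' x : Lat d, G N ψ lam 0 x < ∞} = Set.Ico 0 1 := by
    ext lam
    simp only [Set.mem_ofPred_eq, Set.mem_Ico]
    exact and_congr_right fun hl => G_mass_lt h hl
  rw [this, csSup_Ico one_pos]

lemma G_rec (h : Admissible N ψ) (lam : ℝ) (y : Lat d) :
    G N ψ lam 0 y = (if y = 0 then 1 else 0) +
      ∑' z, ENNReal.ofReal (lam * J N ψ z) * G N ψ lam 0 (y - z) := by
  rw [G_eq, tsum_eq_zero_add' ENNReal.summable, W_zero]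
  congr 1
  · simp [eq_comm]
  · simp_rw [W_succ, G_eq, ← ENNReal.tsum_mul_left]
    rw [ENNReal.tsum_comm]
    congr 1
    funext z
    congr 1
    funext n
    rw [zero_sub, J_neg h]
    congr 1
    have := W_shift (fun z => ENNReal.ofReal (lam * J N ψ z)) n 0 (y - z) z
    rw [← this]
    simp

/-- the real valued two-point function -/
noncomputable def g (N : (Fin d → ℝ) → ℝ) (ψ : Lat d → ℝ) (lam : ℝ) (y : Lat d) : ℝ :=
  (G N ψ lam 0 y).toReal

lemma G_ne_top (h : Admissible N ψ) {lam : ℝ} (hl : 0 ≤ lam) (hl1 : lam < 1) (y : Lat d) :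
    G N ψ lam 0 y ≠ ∞ :=
  ne_top_of_le_ne_top ((G_mass_lt h hl).2 hl1).ne (ENNReal.le_tsum y)

lemma g_bdd (h : Admissible N ψ) {lam : ℝ} (hl : 0 ≤ lam) (hl1 : lam < 1) :
    ∃ B, ∀ y, g N ψ lam y ≤ B :=
  ⟨(∑' y, G N ψ lam 0 y).toReal, fun y =>
    ENNReal.toReal_mono ((G_mass_lt h hl).2 hl1).ne (ENNReal.le_tsum y)⟩

lemma g_nonneg (lam : ℝ) (y : Lat d) : 0 ≤ g N ψ lam y := ENNReal.toReal_nonneg

lemma g_rec (h : Admissible N ψ) {lam : ℝ} (hl : 0 ≤ lam) (hl1 : lam < 1) (y : Lat d) :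
    g N ψ lam y = (if y = 0 then 1 else 0) + lam * ∑' z, J N ψ z * g N ψ lam (y - z) := by
  have h1 := G_rec h lam y
  have h2 : ∑' z, ENNReal.ofReal (lam * J N ψ z) * G N ψ lam 0 (y - z) ≠ ∞ := by
    intro h3
    rw [h3] at h1
    exact G_ne_top h hl hl1 y (by simpa using h1)
  unfold g
  rw [h1, ENNReal.toReal_add (by split_ifs <;> simp) h2, ENNReal.tsum_toReal_eq
    (fun z => ENNReal.mul_ne_top ENNReal.ofReal_ne_top (G_ne_top h hl hl1 _)), ← tsum_mul_left]
  congr 1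
  · split_ifs <;> simp
  · congr 1
    funext z
    rw [ENNReal.toReal_mul, ENNReal.toReal_ofReal (mul_nonneg hl (J_nonneg h z)), mul_assoc]

end Pool.Agent.H221Z.KRW
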