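import Pool.Agent.H221Z.KRW1

set_option autoImplicit false

open Filter Topology

namespace Pool.Agent.H221Z.KRW

variable {d : ℕ} {N : (Fin d → ℝ) → ℝ} {ψ : Lat d → ℝ}

/-- maximum principle -/
lemma maxp (h : Admissible N ψ) {lam : ℝ} (hl : 0 < lam) (hl1 : lam < 1) (D : Lat d → ℝ)
    (hB : ∃ B, ∀ x, D x ≤ B)
    (hD : ∀ x, D x ≤ 0 ∨ (Summable (fun z => J N ψ z * D (x - z)) ∧
      D x ≤ lam * ∑' z, J N ψ z * D (x - z))) : ∀ x, D x ≤ 0 := by
  obtain ⟨B, hB⟩ := hB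
  have hbdd : BddAbove (Set.range D) := ⟨B, by rintro _ ⟨x, rfl⟩; exact hB x⟩
  set M := ⨆ x, D x with hM
  have hle : ∀ x, D x ≤ M := fun x => le_ciSup hbdd x
  by_contra hcon
  push Not at hcon
  obtain ⟨x0, hx0⟩ := hcon
  have hMpos : 0 < M := hx0.trans_le (hle x0)
  have h2 : ∀ x, D x ≤ lam * M := by
    intro x
    rcases hD x with h1 | ⟨h1, h2⟩
    · exact h1.trans (by positivity)
    · refine h2.trans (mul_le_mul_of_nonneg_left ?_ hl.le)
      have h3 : HasSum (fun z => J N ψ z * M) M := by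
        simpa using h.normalised.mul_right M
      rw [← h3.tsum_eq]
      exact h1.tsum_le_tsum (fun z => mul_le_mul_of_nonneg_left (hle _) (J_nonneg h z))
        h3.summable
  have h3 : M ≤ lam * M := ciSup_le h2
  nlinarith

lemma sum_Jg (h : Admissible N ψ) {lam : ℝ} (hl : 0 < lam) (hl1 : lam < 1) (x : Lat d) :
    Summable (fun z => J N ψ z * g N ψ lam (x - z)) := by
  obtain ⟨B, hB⟩ := g_bdd h hl.le hl1
  refine Summable.of_nonneg_of_le (fun z => mul_nonneg (J_nonneg h z) (g_nonneg _ _))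
    (fun z => mul_le_mul_of_nonneg_left (hB _) (J_nonneg h z)) (h.normalised.summable.mul_right B)

lemma g_ge_fin (h : Admissible N ψ) {lam : ℝ} (hl : 0 < lam) (hl1 : lam < 1) (x : Lat d)
    (F : Finset (Lat d)) :
    (if x = 0 then 1 else 0) + lam * ∑ z ∈ F, J N ψ z * g N ψ lam (x - z) ≤ g N ψ lam x := by
  rw [g_rec h hl.le hl1 x]
  gcongr
  exact (sum_Jg h hl hl1 x).sum_le_tsum F
    (fun z _ => mul_nonneg (J_nonneg h z) (g_nonneg _ _))

lemma g_zero_ge (h : Admissible N ψ) {lam : ℝ} (hl : 0 < lam) (hl1 : lam < 1) :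
    1 ≤ g N ψ lam 0 := by
  have := g_ge_fin h hl hl1 0 ∅
  simpa using this

lemma g_ge_J (h : Admissible N ψ) {lam : ℝ} (hl : 0 < lam) (hl1 : lam < 1) (x : Lat d) :
    lam * J N ψ x ≤ g N ψ lam x := by
  have h1 := g_ge_fin h hl hl1 x {x}
  have h2 := g_zero_ge h hl hl1
  have h3 := J_nonneg h x
  simp only [Finset.sum_singleton, sub_self] at h1
  have h4 : (0 : ℝ) ≤ if x = 0 then 1 else 0 := by split_ifs <;> norm_num
  have h5 : lam * J N ψ x ≤ lam * (J N ψ x * g N ψ lam 0) :=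
    mul_le_mul_of_nonneg_left (le_mul_of_one_le_right h3 h2) hl.le
  linarith

lemma g_pos (h : Admissible N ψ) {lam : ℝ} (hl : 0 < lam) (hl1 : lam < 1) (x : Lat d) :
    0 < g N ψ lam x := by
  by_cases hx : x = 0
  · rw [hx]; linarith [g_zero_ge h hl hl1]
  · exact (mul_pos hl (J_pos h hx)).trans_le (g_ge_J h hl hl1 x)

/-- supermultiplicativity -/
lemma g_super (h : Admissible N ψ) {lam : ℝ} (hl : 0 < lam) (hl1 : lam < 1) (x y : Lat d) :
    g N ψ lam x * g N ψ lam y ≤ g N ψ lam (x + y) * g N ψ lam 0 := by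
  obtain ⟨B, hB⟩ := g_bdd h hl.le hl1
  have key := maxp h hl hl1
    (fun x => g N ψ lam x * g N ψ lam y - g N ψ lam (x + y) * g N ψ lam 0)
    ⟨B * g N ψ lam y, fun x => by
      have h1 := mul_le_mul_of_nonneg_right (hB x) (g_nonneg (N := N) (ψ := ψ) lam y)
      have h2 := mul_nonneg (g_nonneg (N := N) (ψ := ψ) lam (x + y))
        (g_nonneg (N := N) (ψ := ψ) lam 0)
      linarith⟩ ?_ x
  · linarith
  intro x
  by_cases hx : x = 0
  · left; rw [hx, zero_add, mul_comm, sub_self]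
  right
  have s1 := (sum_Jg h hl hl1 x).mul_right (g N ψ lam y)
  have s2 := (sum_Jg h hl hl1 (x + y)).mul_right (g N ψ lam 0)
  have e : (fun z => J N ψ z * (g N ψ lam (x - z) * g N ψ lam y -
      g N ψ lam (x - z + y) * g N ψ lam 0)) = fun z => J N ψ z * g N ψ lam (x - z) * g N ψ lam y -
      J N ψ z * g N ψ lam (x + y - z) * g N ψ lam 0 := by
    funext z
    rw [show x - z + y = x + y - z by abel]
    ring
  rw [e]
  refine ⟨s1.sub s2, ?_⟩
  rw [s1.tsum_sub s2, tsum_mul_right, tsum_mul_right]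
  have e1 := g_rec h hl.le hl1 x
  have e2 := g_rec h hl.le hl1 (x + y)
  rw [if_neg hx, zero_add] at e1
  have h4 : (0 : ℝ) ≤ if x + y = 0 then 1 else 0 := by split_ifs <;> norm_num
  have h5 : lam * ∑' z, J N ψ z * g N ψ lam (x + y - z) ≤ g N ψ lam (x + y) := by linarith
  have h6 := mul_le_mul_of_nonneg_right h5 (g_nonneg (N := N) (ψ := ψ) lam 0)
  rw [e1]
  nlinarith

lemma toR_sub (x y : Lat d) : toR (x - y) = toR x - toR y := by
  funext i; simp [toR]

lemma toR_add (x y : Lat d) : toR (x + y) = toR x + toR y := by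
  funext i; simp [toR]

lemma toR_zero : toR (0 : Lat d) = 0 := by
  funext i; simp [toR]

/-- `t` is feasible: `lam * ∑ J z exp (t z) ≤ 1`. -/
def Feas (N : (Fin d → ℝ) → ℝ) (ψ : Lat d → ℝ) (lam : ℝ) (t : (Fin d → ℝ) →ₗ[ℝ] ℝ) : Prop :=
  Summable (fun z => J N ψ z * Real.exp (t (toR z))) ∧
    lam * ∑' z, J N ψ z * Real.exp (t (toR z)) ≤ 1

lemma g_upper (h : Admissible N ψ) {lam : ℝ} (hl : 0 < lam) (hl1 : lam < 1)
    {t : (Fin d → ℝ) →ₗ[ℝ] ℝ} (ht : Feas N ψ lam t) (x : Lat d) :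
    g N ψ lam x ≤ g N ψ lam 0 * Real.exp (-t (toR x)) := by
  obtain ⟨B, hB⟩ := g_bdd h hl.le hl1
  have key := maxp h hl hl1
    (fun x => g N ψ lam x - g N ψ lam 0 * Real.exp (-t (toR x)))
    ⟨B, fun x => by
      have h2 := mul_nonneg (g_nonneg (N := N) (ψ := ψ) lam 0) (Real.exp_pos (-t (toR x))).le
      linarith [hB x]⟩ ?_ x
  · linarith
  intro x
  by_cases hx : x = 0
  · left; rw [hx, toR_zero]; simp
  right
  have s1 := sum_Jg h hl hl1 x
  have s2 := ht.1.mul_right (g N ψ lam 0 * Real.exp (-t (toR x)))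
  have e : (fun z => J N ψ z * (g N ψ lam (x - z) -
      g N ψ lam 0 * Real.exp (-t (toR (x - z))))) = fun z => J N ψ z * g N ψ lam (x - z) -
      J N ψ z * Real.exp (t (toR z)) * (g N ψ lam 0 * Real.exp (-t (toR x))) := by
    funext z
    rw [toR_sub, map_sub, neg_sub, sub_eq_add_neg (t (toR z)), Real.exp_add]
    ring
  rw [e]
  refine ⟨s1.sub s2, ?_⟩
  rw [s1.tsum_sub s2, tsum_mul_right]
  have e1 := g_rec h hl.le hl1 x
  rw [if_neg hx, zero_add] at e1
  have h2 := mul_nonneg (g_nonneg (N := N) (ψ := ψ) lam 0) (Real.exp_pos (-t (toR x))).le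
  have h6 := mul_le_mul_of_nonneg_right ht.2 h2
  rw [e1]
  nlinarith

lemma feas_zero (h : Admissible N ψ) {lam : ℝ} (hl1 : lam < 1) : Feas N ψ lam 0 := by
  unfold Feas
  simp only [LinearMap.zero_apply, Real.exp_zero, mul_one]
  rw [h.normalised.tsum_eq]
  exact ⟨h.normalised.summable, by linarith⟩

lemma g_le_zero (h : Admissible N ψ) {lam : ℝ} (hl : 0 < lam) (hl1 : lam < 1) (x : Lat d) :
    g N ψ lam x ≤ g N ψ lam 0 := by
  simpa using g_upper h hl hl1 (feas_zero h hl1) x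

/-- converse: a finite exponential moment of `g` forces feasibility on finite sets -/
lemma fin_le_of_summable (h : Admissible N ψ) {lam : ℝ} (hl : 0 < lam) (hl1 : lam < 1)
    {t : (Fin d → ℝ) →ₗ[ℝ] ℝ} (hs : Summable (fun x => g N ψ lam x * Real.exp (t (toR x))))
    (F : Finset (Lat d)) : lam * ∑ z ∈ F, J N ψ z * Real.exp (t (toR z)) ≤ 1 := by
  set S := ∑' x, g N ψ lam x * Real.exp (t (toR x)) with hS
  have hSpos : 0 < S :=
    hs.tsum_pos (fun x => mul_nonneg (g_nonneg _ _) (Real.exp_pos _).le) 0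
      (mul_pos (g_pos h hl hl1 0) (Real.exp_pos _))
  have h1 : ∀ z, HasSum (fun x => lam * (J N ψ z * g N ψ lam (x - z)) * Real.exp (t (toR x)))
      (lam * (J N ψ z * Real.exp (t (toR z))) * S) := by
    intro z
    have h2 := (Equiv.subRight z).hasSum_iff.2 hs.hasSum
    have h3 := h2.mul_left (lam * (J N ψ z * Real.exp (t (toR z))))
    have e : (fun x => lam * (J N ψ z * g N ψ lam (x - z)) * Real.exp (t (toR x))) =
        fun x => lam * (J N ψ z * Real.exp (t (toR z))) *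
          ((fun x => g N ψ lam x * Real.exp (t (toR x))) ∘ (Equiv.subRight z)) x := by
      funext x
      simp only [Function.comp, Equiv.subRight_apply]
      rw [toR_sub, map_sub, Real.exp_sub]
      field_simp
    rw [e]
    exact h3
  have h2 := hasSum_sum (s := F) (fun z _ => h1 z)
  have h3 : ∑ z ∈ F, lam * (J N ψ z * Real.exp (t (toR z))) * S ≤ S := by
    refine hasSum_le (fun x => ?_) h2 hs.hasSum
    rw [← Finset.sum_mul, ← Finset.mul_sum]
    refine mul_le_mul_of_nonneg_right ?_ (Real.exp_pos _).le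
    have h4 := g_ge_fin h hl hl1 x F
    have h5 : (0 : ℝ) ≤ if x = 0 then 1 else 0 := by split_ifs <;> norm_num
    linarith
  rw [← Finset.sum_mul, ← Finset.mul_sum] at h3
  by_contra hcon
  push Not at hcon
  nlinarith

/-! ### Fekete -/

/-- the lattice points with all coordinates in `{-1, 0, 1}` -/
noncomputable def box (d : ℕ) : Finset (Lat d) := Fintype.piFinset (fun _ => Finset.Icc (-1) 1)

lemma exists_c (h : Admissible N ψ) {lam : ℝ} (hl : 0 < lam) (hl1 : lam < 1) :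
    ∃ c : ℝ, 0 < c ∧ c * g N ψ lam 0 ≤ 1 ∧ ∀ x y z : Lat d, z - x - y ∈ box d →
      (c * g N ψ lam x) * (c * g N ψ lam y) ≤ c * g N ψ lam z := by
  have hne : (box d).Nonempty := ⟨0, by simp [box]⟩
  obtain ⟨e0, _, he0⟩ := Finset.exists_min_image (box d) (g N ψ lam) hne
  have h0 := g_pos h hl hl1 0
  have h1 := g_pos h hl hl1 e0
  refine ⟨g N ψ lam e0 / (g N ψ lam 0) ^ 2, by positivity, ?_, fun x y z hz => ?_⟩
  · have := g_le_zero h hl hl1 e0
    rw [div_mul_eq_mul_div, div_le_one (by positivity)]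
    nlinarith
  · have h2 := he0 _ hz
    have h3 := g_super h hl hl1 x y
    have h4 := g_super h hl hl1 (x + y) (z - x - y)
    rw [show x + y + (z - x - y) = z by abel] at h4
    have hx := g_pos h hl hl1 x
    have hy := g_pos h hl hl1 y
    have hxy := g_pos h hl hl1 (x + y)
    have hz' := g_pos h hl hl1 (z - x - y)
    have h5 : g N ψ lam e0 * (g N ψ lam x * g N ψ lam y) ≤ g N ψ lam z * (g N ψ lam 0) ^ 2 := by
      calc g N ψ lam e0 * (g N ψ lam x * g N ψ lam y)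
          ≤ g N ψ lam (z - x - y) * (g N ψ lam (x + y) * g N ψ lam 0) := by gcongr
        _ = (g N ψ lam (x + y) * g N ψ lam (z - x - y)) * g N ψ lam 0 := by ring
        _ ≤ (g N ψ lam z * g N ψ lam 0) * g N ψ lam 0 := by gcongr
        _ = _ := by ring
    have h6 : g N ψ lam e0 / (g N ψ lam 0) ^ 2 * (g N ψ lam x * g N ψ lam y) ≤ g N ψ lam z := by
      rw [div_mul_eq_mul_div, div_le_iff₀ (by positivity)]
      exact h5
    calc _ = g N ψ lam e0 / (g N ψ lam 0) ^ 2 *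
          (g N ψ lam e0 / (g N ψ lam 0) ^ 2 * (g N ψ lam x * g N ψ lam y)) := by ring
      _ ≤ _ := by gcongr

lemma floor_box (a b : ℝ) :
    ⌊a + b + 1 / 2⌋ - ⌊a + 1 / 2⌋ - ⌊b + 1 / 2⌋ ∈ Finset.Icc (-1 : ℤ) 1 := by
  have h1 := Int.floor_le (a + b + 1 / 2)
  have h2 := Int.lt_floor_add_one (a + b + 1 / 2)
  have h3 := Int.floor_le (a + 1 / 2)
  have h4 := Int.lt_floor_add_one (a + 1 / 2)
  have h5 := Int.floor_le (b + 1 / 2)
  have h6 := Int.lt_floor_add_one (b + 1 / 2)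
  rw [Finset.mem_Icc]
  constructor
  · have : ((-2 : ℤ) : ℝ) < ((⌊a + b + 1 / 2⌋ - ⌊a + 1 / 2⌋ - ⌊b + 1 / 2⌋ : ℤ) : ℝ) := by
      push_cast; linarith
    have := Int.cast_lt.mp this
    omega
  · have : ((⌊a + b + 1 / 2⌋ - ⌊a + 1 / 2⌋ - ⌊b + 1 / 2⌋ : ℤ) : ℝ) < ((2 : ℤ) : ℝ) := by
      push_cast; linarith
    have := Int.cast_lt.mp this
    omega

lemma latPt_box1 (s : Fin d → ℝ) (m n : ℕ) :
    latPt s (m + n) - latPt s m - latPt s n ∈ box d := by
  unfold box
  rw [Fintype.mem_piFinset]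
  intro i
  have := floor_box (m * s i) (n * s i)
  simpa [latPt, add_mul] using this

lemma latPt_box2 (u v : Fin d → ℝ) (n : ℕ) :
    latPt (u + v) n - latPt u n - latPt v n ∈ box d := by
  unfold box
  rw [Fintype.mem_piFinset]
  intro i
  have := floor_box (n * u i) (n * v i)
  simpa [latPt, mul_add] using this

lemma rate_eq (lam : ℝ) (s : Fin d → ℝ) (n : ℕ) :
    rate N ψ lam s n = -(Real.log (g N ψ lam (latPt s n)) / n) := rfl

lemma fekete (h : Admissible N ψ) {lam : ℝ} (hl : 0 < lam) (hl1 : lam < 1) :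
    ∃ c : ℝ, 0 < c ∧ (∀ x y z : Lat d, z - x - y ∈ box d →
      (c * g N ψ lam x) * (c * g N ψ lam y) ≤ c * g N ψ lam z) ∧ ∀ s : Fin d → ℝ,
      Tendsto (rate N ψ lam s) atTop (𝓝 (nu N ψ s lam)) ∧
      Tendsto (fun n : ℕ => -Real.log (c * g N ψ lam (latPt s n)) / n) atTop (𝓝 (nu N ψ s lam)) ∧
      nu N ψ s lam ≤ -Real.log (c * g N ψ lam (latPt s 1)) := by
  obtain ⟨c, hc, hc1, hc2⟩ := exists_c h hl hl1
  refine ⟨c, hc, hc2, fun s => ?_⟩
  have hp : ∀ x, 0 < c * g N ψ lam x := fun x => mul_pos hc (g_pos h hl hl1 x)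
  have hsub : Subadditive (fun n : ℕ => -Real.log (c * g N ψ lam (latPt s n))) := by
    intro m n
    have h1 := hc2 _ _ _ (latPt_box1 s m n)
    have h2 := Real.log_le_log (mul_pos (hp _) (hp _)) h1
    rw [Real.log_mul (hp _).ne' (hp _).ne'] at h2
    linarith
  have hbdd : BddBelow (Set.range fun n : ℕ => -Real.log (c * g N ψ lam (latPt s n)) / n) := by
    refine ⟨0, ?_⟩
    rintro _ ⟨n, rfl⟩
    refine div_nonneg ?_ (Nat.cast_nonneg n)
    rw [neg_nonneg]
    refine Real.log_nonpos (hp _).le ?_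
    exact (mul_le_mul_of_nonneg_left (g_le_zero h hl hl1 _) hc.le).trans hc1
  have h1 := hsub.tendsto_lim hbdd
  have h2 : Tendsto (rate N ψ lam s) atTop (𝓝 hsub.lim) := by
    have h3 : Tendsto (fun n : ℕ => Real.log c / n) atTop (𝓝 0) :=
      tendsto_const_div_atTop_nhds_zero_nat _
    have h4 := h1.add h3
    rw [add_zero] at h4
    refine h4.congr fun n => ?_
    rw [rate_eq, Real.log_mul hc.ne' (g_pos h hl hl1 _).ne']
    ring
  have h3 : nu N ψ s lam = hsub.lim := h2.limUnder_eq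
  rw [h3]
  refine ⟨h2, h1, ?_⟩
  simpa using hsub.lim_le_div hbdd (n := 1) one_ne_zero

lemma tendsto_rate (h : Admissible N ψ) {lam : ℝ} (hl : 0 < lam) (hl1 : lam < 1)
    (s : Fin d → ℝ) : Tendsto (rate N ψ lam s) atTop (𝓝 (nu N ψ s lam)) := by
  obtain ⟨c, _, _, h3⟩ := fekete h hl hl1
  exact (h3 s).1

lemma nu_add (h : Admissible N ψ) {lam : ℝ} (hl : 0 < lam) (hl1 : lam < 1)
    (u v : Fin d → ℝ) : nu N ψ (u + v) lam ≤ nu N ψ u lam + nu N ψ v lam := by
  obtain ⟨c, hc, hc2, h3⟩ := fekete h hl hl1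
  have hp : ∀ x, 0 < c * g N ψ lam x := fun x => mul_pos hc (g_pos h hl hl1 x)
  refine le_of_tendsto_of_tendsto' (h3 (u + v)).2.1 ((h3 u).2.1.add (h3 v).2.1) fun n => ?_
  rw [← add_div]
  refine div_le_div_of_nonneg_right ?_ (Nat.cast_nonneg n)
  have h1 := hc2 _ _ _ (latPt_box2 u v n)
  have h2 := Real.log_le_log (mul_pos (hp _) (hp _)) h1
  rw [Real.log_mul (hp _).ne' (hp _).ne'] at h2
  linarith

lemma latPt_toR (x : Lat d) : latPt (toR x) 1 = x := by
  funext i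
  simp only [latPt, toR, Nat.cast_one, one_mul]
  rw [Int.floor_eq_iff]
  constructor <;> linarith

lemma g_le_exp_nu (h : Admissible N ψ) {lam : ℝ} (hl : 0 < lam) (hl1 : lam < 1) :
    ∃ C : ℝ, 0 < C ∧ ∀ x, g N ψ lam x ≤ C * Real.exp (-nu N ψ (toR x) lam) := by
  obtain ⟨c, hc, _, h3⟩ := fekete h hl hl1
  refine ⟨c⁻¹, inv_pos.mpr hc, fun x => ?_⟩
  have h1 := (h3 (toR x)).2.2
  rw [latPt_toR] at h1
  have h2 : c * g N ψ lam x ≤ Real.exp (-nu N ψ (toR x) lam) := by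
    rw [← Real.log_le_iff_le_exp (mul_pos hc (g_pos h hl hl1 x))]
    linarith
  rw [← le_div_iff₀' hc, div_eq_inv_mul] at h2
  exact h2

lemma nu_nat_mul (h : Admissible N ψ) {lam : ℝ} (hl : 0 < lam) (hl1 : lam < 1)
    (u : Fin d → ℝ) {k : ℕ} (hk : 0 < k) : nu N ψ ((k : ℝ) • u) lam = k * nu N ψ u lam := by
  have h1 := tendsto_rate h hl hl1 ((k : ℝ) • u)
  have h2 := ((tendsto_rate h hl hl1 u).comp (tendsto_id.atTop_mul_const' hk)).const_mul (k : ℝ)
  refine tendsto_nhds_unique h1 (h2.congr fun n => ?_)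
  have e : latPt ((k : ℝ) • u) n = latPt u (n * k) := by
    funext i
    simp [latPt, mul_assoc]
  simp only [Function.comp, id, rate_eq, e]
  have hk' : (k : ℝ) ≠ 0 := by positivity
  rcases Nat.eq_zero_or_pos n with rfl | hn
  · simp
  · have hn' : (n : ℝ) ≠ 0 := by positivity
    push_cast
    field_simp

lemma tendsto_latPt (s : Fin d → ℝ) :
    Tendsto (fun n : ℕ => (n : ℝ)⁻¹ • toR (latPt s n)) atTop (𝓝 s) := by
  rw [tendsto_pi_nhds]
  intro i
  have h0 : Tendsto (fun n : ℕ => (1 : ℝ) / n) atTop (𝓝 0) :=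
    tendsto_const_div_atTop_nhds_zero_nat _
  have h1 : Tendsto (fun n : ℕ => s i - 1 / n) atTop (𝓝 (s i)) := by
    simpa using h0.const_sub (s i)
  have h2 : Tendsto (fun n : ℕ => s i + 1 / n) atTop (𝓝 (s i)) := by
    simpa using h0.const_add (s i)
  refine tendsto_of_tendsto_of_tendsto_of_le_of_le' h1 h2 ?_ ?_
  · filter_upwards [eventually_gt_atTop 0] with n hn
    have hn' : (0 : ℝ) < n := by positivity
    simp only [Pi.smul_apply, smul_eq_mul, toR, latPt]
    have := Int.lt_floor_add_one ((n : ℝ) * s i + 1 / 2)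
    rw [inv_mul_eq_div, le_div_iff₀ hn', sub_mul, div_mul_cancel₀ _ hn'.ne']
    linarith
  · filter_upwards [eventually_gt_atTop 0] with n hn
    have hn' : (0 : ℝ) < n := by positivity
    simp only [Pi.smul_apply, smul_eq_mul, toR, latPt]
    have := Int.floor_le ((n : ℝ) * s i + 1 / 2)
    rw [inv_mul_eq_div, div_le_iff₀ hn', add_mul, div_mul_cancel₀ _ hn'.ne']
    linarith

lemma nu_ge (h : Admissible N ψ) {lam : ℝ} (hl : 0 < lam) (hl1 : lam < 1)
    {t : (Fin d → ℝ) →ₗ[ℝ] ℝ} (ht : Feas N ψ lam t) (u : Fin d → ℝ) : t u ≤ nu N ψ u lam := by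
  have h1 : Tendsto (fun n : ℕ => t ((n : ℝ)⁻¹ • toR (latPt u n))) atTop (𝓝 (t u)) :=
    (t.continuous_of_finiteDimensional.tendsto u).comp (tendsto_latPt u)
  have h2 : Tendsto (fun n : ℕ => Real.log (g N ψ lam 0) / n) atTop (𝓝 0) :=
    tendsto_const_div_atTop_nhds_zero_nat _
  have h3 := h1.sub h2
  rw [sub_zero] at h3
  refine le_of_tendsto_of_tendsto' h3 (tendsto_rate h hl hl1 u) fun n => ?_
  have h4 := Real.log_le_log (g_pos h hl hl1 _) (g_upper h hl hl1 ht (latPt u n))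
  rw [Real.log_mul (g_pos h hl hl1 _).ne' (Real.exp_pos _).ne', Real.log_exp] at h4
  rw [rate_eq, map_smul, smul_eq_mul, inv_mul_eq_div, ← sub_div, ← neg_div]
  refine div_le_div_of_nonneg_right ?_ (Nat.cast_nonneg n)
  linarith

lemma nu_nonneg (h : Admissible N ψ) {lam : ℝ} (hl : 0 < lam) (hl1 : lam < 1)
    (u : Fin d → ℝ) : 0 ≤ nu N ψ u lam := by
  simpa using nu_ge h hl hl1 (feas_zero h hl1) u

end Pool.Agent.H221Z.KRW
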