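import Pool.Agent.H221Z.KRW2

set_option autoImplicit false

open Filter Topology

namespace Pool.Agent.H221Z.KRW

variable {d : ℕ} {N : (Fin d → ℝ) → ℝ} {ψ : Lat d → ℝ}

lemma N_zero (h : Admissible N ψ) : N 0 = 0 := by
  simpa using h.norm_smul 0 0

lemma toR_ne {x : Lat d} (hx : x ≠ 0) : toR x ≠ 0 := by
  intro h
  apply hx
  funext i
  have := congrFun h i
  simpa [toR] using this

lemma nu_zero (h : Admissible N ψ) {lam : ℝ} (hl : 0 < lam) (hl1 : lam < 1) :
    nu N ψ 0 lam = 0 := by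
  have h1 := nu_nat_mul h hl hl1 0 (k := 2) two_pos
  rw [smul_zero] at h1
  push_cast at h1
  linarith

lemma nu_le (h : Admissible N ψ) (hN : Continuous N) {lam : ℝ} (hl : 0 < lam) (hl1 : lam < 1)
    (u : Fin d → ℝ) : nu N ψ u lam ≤ N u := by
  by_cases hu : u = 0
  · rw [hu, nu_zero h hl hl1, N_zero h]
  have hne : ∀ x : Lat d, ∀ᶠ n : ℕ in atTop, latPt u n ≠ x := by
    intro x
    have h1 : Tendsto (fun n : ℕ => (n : ℝ)⁻¹ • toR x) atTop (𝓝 0) := by
      simpa using (tendsto_inv_atTop_nhds_zero_nat (𝕜 := ℝ)).smul_const (toR x)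
    have h2 := (tendsto_latPt u).sub h1
    rw [sub_zero] at h2
    filter_upwards [h2.eventually_ne hu] with n hn h3
    apply hn
    rw [h3, sub_self]
  have hcof : Tendsto (latPt u) atTop cofinite := by
    rw [Tendsto, Filter.le_cofinite_iff_compl_singleton_mem]
    exact hne
  have h1 : Tendsto (fun n : ℕ => N ((n : ℝ)⁻¹ • toR (latPt u n))) atTop (𝓝 (N u)) :=
    (hN.tendsto u).comp (tendsto_latPt u)
  have h2 := (h.psi_subexp.comp hcof).mul h1
  have h3 : Tendsto (fun n : ℕ => Real.log lam / n) atTop (𝓝 0) :=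
    tendsto_const_div_atTop_nhds_zero_nat _
  have h4 := (h1.sub h2).sub h3
  rw [zero_mul, sub_zero, sub_zero] at h4
  refine le_of_tendsto_of_tendsto (tendsto_rate h hl hl1 u) h4 ?_
  filter_upwards [hne 0, eventually_gt_atTop 0] with n hn hn0
  have hn' : (0 : ℝ) < n := by positivity
  have h5 := g_ge_J h hl hl1 (latPt u n)
  have h6 := Real.log_le_log (mul_pos hl (J_pos h hn)) h5
  have hψ := h.psi_pos _ hn
  have hNp := h.norm_pos _ (toR_ne hn)
  rw [J, if_neg hn, Real.log_mul hl.ne' (by positivity), Real.log_mul hψ.ne' (by positivity),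
    Real.log_exp] at h6
  simp only [Function.comp, rate_eq]
  rw [h.norm_smul, abs_of_pos (inv_pos.mpr hn')]
  have e : (n : ℝ)⁻¹ * N (toR (latPt u n)) - Real.log (ψ (latPt u n)) / N (toR (latPt u n)) *
      ((n : ℝ)⁻¹ * N (toR (latPt u n))) - Real.log lam / n =
      -((Real.log lam + (Real.log (ψ (latPt u n)) + -N (toR (latPt u n)))) / n) := by
    field_simp
    ring
  rw [e, neg_le_neg_iff]
  exact div_le_div_of_nonneg_right h6 hn'.le

lemma nu_cont (h : Admissible N ψ) (hN : Continuous N) {lam : ℝ} (hl : 0 < lam) (hl1 : lam < 1)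
    (u : Fin d → ℝ) : Continuous (fun c : ℝ => nu N ψ (c • u) lam) := by
  have key : ∀ a b : ℝ, nu N ψ (a • u) lam - nu N ψ (b • u) lam ≤ |a - b| * N u := by
    intro a b
    have h1 := nu_add h hl hl1 (b • u) ((a - b) • u)
    have h2 := nu_le h hN hl hl1 ((a - b) • u)
    rw [← add_smul, add_sub_cancel] at h1
    rw [h.norm_smul] at h2
    linarith
  have hNu : 0 ≤ N u := (nu_nonneg h hl hl1 u).trans (nu_le h hN hl hl1 u)
  refine (LipschitzWith.of_dist_le_mul (K := ⟨N u, hNu⟩) fun a b => ?_).continuous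
  rw [Real.dist_eq, Real.dist_eq, abs_le]
  have h1 := key a b
  have h2 := key b a
  rw [abs_sub_comm] at h2
  show -(N u * |a - b|) ≤ _ ∧ _ ≤ N u * |a - b|
  constructor <;> linarith

lemma nu_smul (h : Admissible N ψ) (hN : Continuous N) {lam : ℝ} (hl : 0 < lam) (hl1 : lam < 1)
    (c : ℝ) (hc : 0 < c) (u : Fin d → ℝ) : nu N ψ (c • u) lam = c * nu N ψ u lam := by
  have hq : ∀ q : ℚ, 0 < q → nu N ψ ((q : ℝ) • u) lam = q * nu N ψ u lam := by
    intro q hq
    have h1 := nu_nat_mul h hl hl1 ((q : ℝ) • u) q.den_pos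
    have hnum : 0 < q.num.toNat := by
      have := Rat.num_pos.mpr hq
      omega
    have h2 := nu_nat_mul h hl hl1 u hnum
    have hden : (0 : ℝ) < q.den := by exact_mod_cast q.den_pos
    have e : (q.den : ℝ) * q = (q.num.toNat : ℝ) := by
      have h3 : ((q.num.toNat : ℤ) : ℝ) = (q.num : ℝ) := by
        rw [Int.toNat_of_nonneg (Rat.num_pos.mpr hq).le]
      rw [Int.cast_natCast] at h3
      rw [h3, Rat.cast_def]
      field_simp
    rw [smul_smul, e, h2, ← e] at h1
    have : (q.den : ℝ) * nu N ψ ((q : ℝ) • u) lam = q.den * (q * nu N ψ u lam) := by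
      rw [← h1]; ring
    exact mul_left_cancel₀ hden.ne' this
  have hcl : IsClosed {c : ℝ | nu N ψ (c • u) lam = c * nu N ψ u lam} :=
    isClosed_eq (nu_cont h hN hl hl1 u) (continuous_id.mul continuous_const)
  have hmem : c ∈ closure {c : ℝ | nu N ψ (c • u) lam = c * nu N ψ u lam} := by
    rw [Metric.mem_closure_iff]
    intro ε hε
    obtain ⟨q, hq1, hq2⟩ := exists_rat_btwn (show c < c + ε by linarith)
    refine ⟨q, hq q (by exact_mod_cast hc.trans hq1), ?_⟩
    rw [Real.dist_eq, abs_lt]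
    constructor <;> linarith
  rwa [hcl.closure_eq] at hmem

lemma exists_dual (h : Admissible N ψ) (hN : Continuous N) {lam : ℝ} (hl : 0 < lam)
    (hl1 : lam < 1) {s : Fin d → ℝ} (hs : s ≠ 0) :
    ∃ t : (Fin d → ℝ) →ₗ[ℝ] ℝ, t s = nu N ψ s lam ∧ ∀ u, t u ≤ nu N ψ u lam := by
  obtain ⟨t, ht1, ht2⟩ := exists_extension_of_le_sublinear
    (LinearPMap.mkSpanSingleton (K := ℝ) s (nu N ψ s lam) hs) (fun u => nu N ψ u lam)
    (fun c hc u => nu_smul h hN hl hl1 c hc u) (nu_add h hl hl1) (by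
      rintro ⟨x, hx⟩
      obtain ⟨c, rfl⟩ := Submodule.mem_span_singleton.mp hx
      rw [LinearPMap.mkSpanSingleton'_apply]
      simp only [RingHom.id_apply, smul_eq_mul]
      rcases lt_or_ge 0 c with hc | hc
      · rw [nu_smul h hN hl hl1 c hc]
      · exact (mul_nonpos_of_nonpos_of_nonneg hc (nu_nonneg h hl hl1 s)).trans
          (nu_nonneg h hl hl1 _))
  refine ⟨t, ?_, ht2⟩
  have := ht1 ⟨s, Submodule.mem_span_singleton_self s⟩
  rw [LinearPMap.mkSpanSingleton_apply] at this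
  exact this

lemma summable_exp (h : Admissible N ψ) (hψ : Summable ψ) {η : ℝ} (hη : 0 < η) :
    Summable (fun x : Lat d => Real.exp (-(η * N (toR x)))) := by
  refine Summable.of_norm_bounded_eventually hψ ?_
  have h1 := h.psi_subexp.eventually (lt_mem_nhds (show -η < 0 by linarith))
  have h2 : ∀ᶠ x : Lat d in cofinite, x ≠ 0 := Filter.eventually_cofinite_ne 0
  filter_upwards [h1, h2] with x hx hx0
  have hNp := h.norm_pos _ (toR_ne hx0)
  rw [Real.norm_eq_abs, abs_of_pos (Real.exp_pos _),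
    ← Real.le_log_iff_exp_le (h.psi_pos x hx0)]
  rw [lt_div_iff₀ hNp] at hx
  linarith

/-- a vector dual for `nu` is feasible -/
lemma feas_of_dual (h : Admissible N ψ) (hψ : Summable ψ) {lam : ℝ} (hl : 0 < lam)
    (hl1 : lam < 1) {δ : ℝ} (hδ : 0 < δ) (hpos : ∀ u, δ * N u ≤ nu N ψ u lam)
    {t : (Fin d → ℝ) →ₗ[ℝ] ℝ} (ht : ∀ u, t u ≤ nu N ψ u lam) : Feas N ψ lam t := by
  obtain ⟨C, hC, hC2⟩ := g_le_exp_nu h hl hl1
  have h1 : ∀ θ : ℝ, 0 < θ → θ < 1 → ∀ F : Finset (Lat d),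
      lam * ∑ z ∈ F, J N ψ z * Real.exp (θ * t (toR z)) ≤ 1 := by
    intro θ h0 h1 F
    have := fin_le_of_summable h hl hl1 (t := θ • t) ?_ F
    · simpa using this
    refine Summable.of_nonneg_of_le (fun x => mul_nonneg (g_nonneg _ _) (Real.exp_pos _).le)
      (fun x => ?_) ((summable_exp h hψ (η := (1 - θ) * δ) (mul_pos (by linarith) hδ)).mul_left C)
    refine (mul_le_mul_of_nonneg_right (hC2 x) (Real.exp_pos _).le).trans ?_
    rw [mul_assoc, ← Real.exp_add]
    refine mul_le_mul_of_nonneg_left (Real.exp_le_exp.mpr ?_) hC.le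
    have h2 := ht (toR x)
    have h3 := hpos (toR x)
    simp only [LinearMap.smul_apply, smul_eq_mul]
    nlinarith
  have h2 : ∀ F : Finset (Lat d), lam * ∑ z ∈ F, J N ψ z * Real.exp (t (toR z)) ≤ 1 := by
    intro F
    have hc : Continuous (fun θ : ℝ => lam * ∑ z ∈ F, J N ψ z * Real.exp (θ * t (toR z))) := by
      fun_prop
    have h3 := (hc.tendsto 1).mono_left (nhdsWithin_le_nhds (s := Set.Iio 1))
    simp only [one_mul] at h3
    refine le_of_tendsto h3 ?_
    filter_upwards [Ioo_mem_nhdsLT (show (0 : ℝ) < 1 by norm_num)] with θ hθ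
    exact h1 θ hθ.1 hθ.2 F
  have h3 : ∀ F : Finset (Lat d), ∑ z ∈ F, J N ψ z * Real.exp (t (toR z)) ≤ 1 / lam := by
    intro F
    rw [le_div_iff₀' hl]
    exact h2 F
  have h4 := summable_of_sum_le (fun z => mul_nonneg (J_nonneg h z) (Real.exp_pos _).le) h3
  refine ⟨h4, ?_⟩
  rw [← le_div_iff₀' hl]
  exact h4.tsum_le_of_sum_le h3

lemma J_exp_le (h : Admissible N ψ) {a : ℝ} (x : Lat d) (ha : a ≤ N (toR x)) :
    J N ψ x * Real.exp a ≤ ψ x := by
  unfold J
  split_ifs
  · simpa using h.psi_nonneg x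
  · rw [mul_assoc, ← Real.exp_add]
    refine mul_le_of_le_one_right (h.psi_nonneg x) ?_
    rw [Real.exp_le_one_iff]
    linarith

lemma feas_small (h : Admissible N ψ) (hψ : Summable ψ) {lam : ℝ} (hl : 0 < lam)
    (hl1 : lam < 1) : ∃ δ : ℝ, 0 < δ ∧ ∀ t : (Fin d → ℝ) →ₗ[ℝ] ℝ, (∀ u, t u ≤ N u) →
      Feas N ψ lam (δ • t) := by
  set P := ∑' x, ψ x with hP
  have hP0 : 0 ≤ P := tsum_nonneg h.psi_nonneg
  refine ⟨(1 - lam) / (1 + P), div_pos (by linarith) (by linarith), fun t ht => ?_⟩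
  set δ := (1 - lam) / (1 + P) with hδ
  have hδ0 : 0 < δ := div_pos (by linarith) (by linarith)
  have hδ1 : δ ≤ 1 := by
    rw [hδ, div_le_one (by linarith)]
    linarith
  have hδ2 : δ * (1 + P) = 1 - lam := div_mul_cancel₀ _ (by linarith)
  have key : ∀ z, J N ψ z * Real.exp ((δ • t) (toR z)) ≤ J N ψ z + δ * ψ z := by
    intro z
    have h1 := convexOn_exp.2 (Set.mem_univ (t (toR z))) (Set.mem_univ 0) hδ0.le
      (show 0 ≤ 1 - δ by linarith) (by ring)
    simp only [smul_eq_mul, mul_zero, add_zero, Real.exp_zero, mul_one] at h1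
    have h2 := J_exp_le h z (ht (toR z))
    have h3 := J_nonneg h z
    simp only [LinearMap.smul_apply, smul_eq_mul]
    nlinarith [mul_le_mul_of_nonneg_left h1 h3, mul_le_mul_of_nonneg_left h2 hδ0.le,
      mul_nonneg h3 hδ0.le]
  have hs := h.normalised.add (hψ.hasSum.mul_left δ)
  have hs2 := Summable.of_nonneg_of_le
    (fun z => mul_nonneg (J_nonneg h z) (Real.exp_pos _).le) key hs.summable
  refine ⟨hs2, ?_⟩
  have h4 := hasSum_le key hs2.hasSum hs
  rw [← hP] at h4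
  have h5 := mul_le_mul_of_nonneg_left h4 hl.le
  nlinarith [mul_nonneg hδ0.le hP0]

end Pool.Agent.H221Z.KRW
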