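import Pool.Agent.H221Z.KRW3

set_option autoImplicit false

open Filter Topology

namespace Pool.Agent.H221Z.KRW

/-- The `ℓ¹` norm on the plane. -/
def l1 (u : Fin 2 → ℝ) : ℝ := |u 0| + |u 1|

lemma l1_cont : Continuous l1 := by
  unfold l1
  fun_prop

/-- the functional `u ↦ a u₀ + b u₁` -/
noncomputable def T (a b : ℝ) : (Fin 2 → ℝ) →ₗ[ℝ] ℝ :=
  a • LinearMap.proj 0 + b • LinearMap.proj 1

lemma T_apply (a b : ℝ) (u : Fin 2 → ℝ) : T a b u = a * u 0 + b * u 1 := by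
  simp [T]

lemma eq_T (t : (Fin 2 → ℝ) →ₗ[ℝ] ℝ) : t = T (t ![1, 0]) (t ![0, 1]) := by
  refine LinearMap.ext fun u => ?_
  have e : u = u 0 • ![(1 : ℝ), 0] + u 1 • ![(0 : ℝ), 1] := by
    funext i
    fin_cases i <;> simp
  rw [T_apply]
  conv_lhs => rw [e, map_add, map_smul, map_smul]
  simp only [smul_eq_mul]
  ring

lemma T_le {a b : ℝ} (ha : |a| ≤ 1) (hb : |b| ≤ 1) (u : Fin 2 → ℝ) : T a b u ≤ l1 u := by
  rw [T_apply, l1]
  have h1 : a * u 0 ≤ |u 0| :=
    (le_abs_self _).trans (by rw [abs_mul]; exact mul_le_of_le_one_left (abs_nonneg _) ha)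
  have h2 : b * u 1 ≤ |u 1| :=
    (le_abs_self _).trans (by rw [abs_mul]; exact mul_le_of_le_one_left (abs_nonneg _) hb)
  linarith

variable {ψ : Lat 2 → ℝ}

/-- the generating function of the couplings -/
noncomputable def C (ψ : Lat 2 → ℝ) (a b : ℝ) : ℝ :=
  ∑' z, J l1 ψ z * Real.exp (T a b (toR z))

lemma C_summable (h : Admissible l1 ψ) (hψ : Summable ψ) {a b : ℝ} (ha : |a| ≤ 1) (hb : |b| ≤ 1) :
    Summable (fun z => J l1 ψ z * Real.exp (T a b (toR z))) :=
  Summable.of_nonneg_of_le (fun z => mul_nonneg (J_nonneg h z) (Real.exp_pos _).le)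
    (fun z => J_exp_le h z (T_le ha hb _)) hψ

/-- reflection of the second coordinate -/
def refl1 : Lat 2 ≃ Lat 2 where
  toFun z := ![z 0, -z 1]
  invFun z := ![z 0, -z 1]
  left_inv z := by funext i; fin_cases i <;> simp
  right_inv z := by funext i; fin_cases i <;> simp

/-- exchange of the coordinates -/
def swp : Lat 2 ≃ Lat 2 where
  toFun z := ![z 1, z 0]
  invFun z := ![z 1, z 0]
  left_inv z := by funext i; fin_cases i <;> simp
  right_inv z := by funext i; fin_cases i <;> simp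

lemma J_refl1 (h : Admissible l1 ψ) (z : Lat 2) : J l1 ψ (refl1 z) = J l1 ψ z := by
  have h1 : ψ (refl1 z) = ψ z := by
    rw [← h.psi_symm 1 ![1, -1] z]
    congr 1
    funext i
    fin_cases i <;> simp [refl1]
  have h2 : refl1 z = 0 ↔ z = 0 := by
    rw [show (0 : Lat 2) = refl1 0 by funext i; fin_cases i <;> simp [refl1], refl1.apply_eq_iff_eq]
    rw [show refl1 0 = (0 : Lat 2) by funext i; fin_cases i <;> simp [refl1]]
  have h3 : l1 (toR (refl1 z)) = l1 (toR z) := by simp [l1, toR, refl1]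
  unfold J
  simp only [h1, h2, h3]

lemma J_swp (h : Admissible l1 ψ) (z : Lat 2) : J l1 ψ (swp z) = J l1 ψ z := by
  have h1 : ψ (swp z) = ψ z := by
    rw [← h.psi_symm (Equiv.swap 0 1) ![1, 1] z]
    congr 1
    funext i
    fin_cases i <;> simp [swp]
  have h2 : swp z = 0 ↔ z = 0 := by
    rw [show (0 : Lat 2) = swp 0 by funext i; fin_cases i <;> simp [swp], swp.apply_eq_iff_eq]
    rw [show swp 0 = (0 : Lat 2) by funext i; fin_cases i <;> simp [swp]]
  have h3 : l1 (toR (swp z)) = l1 (toR z) := by simp [l1, toR, swp, add_comm]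
  unfold J
  simp only [h1, h2, h3]

lemma C_neg (h : Admissible l1 ψ) (a b : ℝ) : C ψ a (-b) = C ψ a b := by
  unfold C
  rw [← refl1.tsum_eq]
  congr 1
  funext z
  rw [J_refl1 h]
  simp [T_apply, toR, refl1]

lemma C_swp (h : Admissible l1 ψ) (a b : ℝ) : C ψ a b = C ψ b a := by
  unfold C
  rw [← swp.tsum_eq]
  congr 1
  funext z
  rw [J_swp h]
  simp [T_apply, toR, swp, add_comm]

lemma C_cosh (h : Admissible l1 ψ) (hψ : Summable ψ) {a b : ℝ} (ha : |a| ≤ 1) (hb : |b| ≤ 1) :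
    HasSum (fun z : Lat 2 => J l1 ψ z * Real.exp (a * z 0) * Real.cosh (b * z 1)) (C ψ a b) := by
  have h1 := (C_summable h hψ ha hb).hasSum
  have h2 := (C_summable h hψ ha (b := -b) (by rwa [abs_neg])).hasSum
  have h3 := (h1.add h2).div_const 2
  have e : (C ψ a b + C ψ a (-b)) / 2 = C ψ a b := by rw [C_neg h]; ring
  unfold C at e
  rw [e] at h3
  have e2 : (fun z : Lat 2 => J l1 ψ z * Real.exp (a * z 0) * Real.cosh (b * z 1)) =
      fun z => (J l1 ψ z * Real.exp (T a b (toR z)) + J l1 ψ z * Real.exp (T a (-b) (toR z))) / 2 := by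
    funext z
    simp only [T_apply, toR, Real.cosh_eq, Real.exp_add, neg_mul]
    ring
  rw [e2]
  exact h3

lemma C_diff (h : Admissible l1 ψ) (hψ : Summable ψ) {a b b' : ℝ} (ha : |a| ≤ 1)
    (hb : |b| ≤ |b'|) (hb' : |b'| ≤ 1) :
    J l1 ψ ![0, 1] * (Real.cosh b' - Real.cosh b) ≤ C ψ a b' - C ψ a b := by
  have h1 := (C_cosh h hψ ha hb').sub (C_cosh h hψ ha (hb.trans hb'))
  have h2 := le_hasSum h1 ![0, 1] (fun z _ => by
    rw [← mul_sub]
    refine mul_nonneg (mul_nonneg (J_nonneg h z) (Real.exp_pos _).le) ?_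
    rw [sub_nonneg, Real.cosh_le_cosh, abs_mul, abs_mul]
    exact mul_le_mul_of_nonneg_right hb (abs_nonneg _))
  simpa [mul_sub] using h2

lemma J01_pos (h : Admissible l1 ψ) : 0 < J l1 ψ ![0, 1] := by
  apply J_pos h
  intro h1
  have := congrFun h1 1
  simp at this

lemma C_zero (h : Admissible l1 ψ) : C ψ 0 0 = 1 := by
  unfold C
  simp only [T_apply, zero_mul, add_zero, Real.exp_zero, mul_one]
  exact h.normalised.tsum_eq

lemma C_gt_one (h : Admissible l1 ψ) (hψ : Summable ψ) {b : ℝ} (hb : |b| ≤ 1) : 1 < C ψ 1 b := by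
  have h1 := C_diff h hψ (a := 1) (b := 0) (b' := b) (by simp) (by simp) hb
  have h2 := C_diff h hψ (a := 0) (b := 0) (b' := 1) (by simp) (by simp) (by simp)
  rw [C_zero h, C_swp h 0 1] at h2
  have h3 := J01_pos h
  have h4 : Real.cosh 0 < Real.cosh 1 := by rw [Real.cosh_lt_cosh]; simp
  have h5 : Real.cosh 0 ≤ Real.cosh b := by rw [Real.cosh_le_cosh]; simp
  nlinarith

lemma C_lt (h : Admissible l1 ψ) (hψ : Summable ψ) {b : ℝ} (hb : |b| < 1) : C ψ 1 b < C ψ 1 1 := by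
  have h1 := C_diff h hψ (a := 1) (b := b) (b' := 1) (by simp) (by simpa using hb.le) (by simp)
  have h3 := J01_pos h
  have h4 : Real.cosh b < Real.cosh 1 := by rw [Real.cosh_lt_cosh]; simpa using hb
  nlinarith

lemma cosh_diff {τ b : ℝ} (h1 : 1 / 2 ≤ τ) (h2 : τ ≤ b) :
    (b - τ) / 2 ≤ Real.cosh b - Real.cosh τ := by
  have e : Real.cosh b = Real.cosh τ * Real.cosh (b - τ) + Real.sinh τ * Real.sinh (b - τ) := by
    rw [← Real.cosh_add]; congr 1; ring
  have h3 : τ ≤ Real.sinh τ := Real.self_le_sinh_iff.mpr (by linarith)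
  have h4 : b - τ ≤ Real.sinh (b - τ) := Real.self_le_sinh_iff.mpr (by linarith)
  have h5 := Real.one_le_cosh (b - τ)
  have h6 := Real.cosh_pos τ
  have h7 : 1 / 2 * (b - τ) ≤ Real.sinh τ * Real.sinh (b - τ) :=
    mul_le_mul (by linarith) h4 (by linarith) (by linarith)
  nlinarith

lemma C_lip (h : Admissible l1 ψ) (hψ : Summable ψ)
    (hK : Summable (fun z : Lat 2 => ψ z * |(z 0 : ℝ)|)) {a b : ℝ} (ha : |a| ≤ 1) (hb : |b| ≤ 1) :
    C ψ 1 b - C ψ a b ≤ (∑' z : Lat 2, ψ z * |(z 0 : ℝ)|) * (1 - a) := by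
  have h1 := (C_summable h hψ (a := 1) (by simp) hb).hasSum.sub (C_summable h hψ ha hb).hasSum
  refine hasSum_le (fun z => ?_) h1 (hK.hasSum.mul_right (1 - a))
  have h2 := J_exp_le h z (T_le (a := 1) (by simp) hb (toR z))
  have h3 := Real.add_one_le_exp ((a - 1) * (z 0 : ℝ))
  have e : Real.exp (T a b (toR z)) = Real.exp (T 1 b (toR z)) * Real.exp ((a - 1) * (z 0 : ℝ)) := by
    rw [← Real.exp_add]
    congr 1
    simp only [T_apply, toR]
    ring
  have h4 : 0 ≤ J l1 ψ z * Real.exp (T 1 b (toR z)) := mul_nonneg (J_nonneg h z) (Real.exp_pos _).le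
  have ha1 : 0 ≤ 1 - a := by linarith [le_abs_self a]
  have h5 : (1 - a) * (z 0 : ℝ) ≤ (1 - a) * |(z 0 : ℝ)| :=
    mul_le_mul_of_nonneg_left (le_abs_self _) ha1
  have h6 : 0 ≤ (1 - a) * |(z 0 : ℝ)| := mul_nonneg ha1 (abs_nonneg _)
  rw [e, ← mul_assoc]
  set A := J l1 ψ z * Real.exp (T 1 b (toR z))
  have h7 : A - A * Real.exp ((a - 1) * (z 0 : ℝ)) ≤ A * ((1 - a) * |(z 0 : ℝ)|) := by
    nlinarith
  nlinarith

lemma C_analytic (h : Admissible l1 ψ) (hψ : Summable ψ) :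
    AnalyticOnNhd ℝ (fun b => C ψ 1 b) (Set.Ioo (-1) 1) := by
  set U : Set ℂ := {w | |w.re| < 1} with hU
  have hUo : IsOpen U := isOpen_lt (by fun_prop) continuous_const
  have h1 : DifferentiableOn ℂ
      (fun w : ℂ => ∑' z : Lat 2, (J l1 ψ z : ℂ) * Complex.exp ((z 0 : ℂ) + w * (z 1 : ℂ))) U := by
    refine Complex.differentiableOn_tsum_of_summable_norm hψ (fun z => ?_) hUo fun z w hw => ?_
    · fun_prop
    · rw [norm_mul, Complex.norm_exp, Complex.norm_real, Real.norm_eq_abs,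
        abs_of_nonneg (J_nonneg h z)]
      refine J_exp_le h z ?_
      have := T_le (a := 1) (b := w.re) (by simp) (le_of_lt hw) (toR z)
      simpa [T_apply, toR] using this
  intro b hb
  have hb' : (b : ℂ) ∈ U := by
    simp only [hU, Set.mem_ofPred_eq, Complex.ofReal_re, abs_lt]
    exact hb
  have h2 := (h1.analyticAt (hUo.mem_nhds hb')).re_ofReal
  refine h2.congr (Eventually.of_forall fun x => ?_)
  have e : (∑' z : Lat 2, (J l1 ψ z : ℂ) * Complex.exp ((z 0 : ℂ) + (x : ℂ) * (z 1 : ℂ))) =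
      ((C ψ 1 x : ℝ) : ℂ) := by
    unfold C
    rw [Complex.ofReal_tsum]
    congr 1
    funext z
    simp [T_apply, toR]
  simp only [e, Complex.ofReal_re]

end Pool.Agent.H221Z.KRW
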