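import Pool.Agent.H221Z.KRW4

set_option autoImplicit false

open Filter Topology

namespace Pool.Agent.H221Z.KRW

variable {ψ : Lat 2 → ℝ}

lemma nu_pos (h : Admissible l1 ψ) (hψ : Summable ψ) {lam : ℝ} (hl : 0 < lam) (hl1 : lam < 1) :
    ∃ δ : ℝ, 0 < δ ∧ ∀ u, δ * l1 u ≤ nu l1 ψ u lam := by
  obtain ⟨δ, hδ, h1⟩ := feas_small h hψ hl hl1
  refine ⟨δ, hδ, fun u => ?_⟩
  have sg : ∀ x : ℝ, ∃ a : ℝ, |a| ≤ 1 ∧ a * x = |x| := by
    intro x
    rcases le_total 0 x with hx | hx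
    · exact ⟨1, by simp, by rw [one_mul, abs_of_nonneg hx]⟩
    · exact ⟨-1, by simp, by rw [abs_of_nonpos hx]; ring⟩
  obtain ⟨a, ha, ha'⟩ := sg (u 0)
  obtain ⟨b, hb, hb'⟩ := sg (u 1)
  have h2 := nu_ge h hl hl1 (h1 (T a b) (T_le ha hb)) u
  simpa [T_apply, ha', hb', l1] using h2

lemma dual2 (h : Admissible l1 ψ) (hψ : Summable ψ) {lam : ℝ} (hl : 0 < lam) (hl1 : lam < 1)
    {s : Fin 2 → ℝ} (hs : s ≠ 0) :
    ∃ a b : ℝ, |a| ≤ 1 ∧ |b| ≤ 1 ∧ lam * C ψ a b ≤ 1 ∧ nu l1 ψ s lam = a * s 0 + b * s 1 := by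
  obtain ⟨t, ht1, ht2⟩ := exists_dual h l1_cont hl hl1 hs
  obtain ⟨δ, hδ, hpos⟩ := nu_pos h hψ hl hl1
  have hf := feas_of_dual h hψ hl hl1 hδ hpos ht2
  have ht3 : ∀ u, t u ≤ l1 u := fun u => (ht2 u).trans (nu_le h l1_cont hl hl1 u)
  have e := eq_T t
  generalize t ![1, 0] = a at e
  generalize t ![0, 1] = b at e
  subst e
  refine ⟨a, b, ?_, ?_, hf.2, by rw [← ht1, T_apply]⟩
  · have h1 := ht3 ![1, 0]
    have h2 := ht3 ![-1, 0]
    simp [T_apply, l1] at h1 h2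
    rw [abs_le]
    constructor <;> linarith
  · have h1 := ht3 ![0, 1]
    have h2 := ht3 ![0, -1]
    simp [T_apply, l1] at h1 h2
    rw [abs_le]
    constructor <;> linarith

lemma nu_ge2 (h : Admissible l1 ψ) (hψ : Summable ψ) {lam : ℝ} (hl : 0 < lam) (hl1 : lam < 1)
    {a b : ℝ} (ha : |a| ≤ 1) (hb : |b| ≤ 1) (hC : lam * C ψ a b ≤ 1) (s : Fin 2 → ℝ) :
    a * s 0 + b * s 1 ≤ nu l1 ψ s lam := by
  have := nu_ge h hl hl1 (t := T a b) ⟨C_summable h hψ ha hb, hC⟩ s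
  rwa [T_apply] at this

lemma lamExp_eq (h : Admissible l1 ψ) (hψ : Summable ψ) : lamExp l1 ψ = 1 := by
  unfold lamExp
  rw [lamC_eq h]
  have : {lam : ℝ | 0 < lam ∧ lam < 1 ∧ sInf ((fun s => nu l1 ψ s lam) '' Sph 2) = 0} = ∅ := by
    rw [Set.eq_empty_iff_forall_notMem]
    rintro lam ⟨hl, hl1, h0⟩
    obtain ⟨δ, hδ, hpos⟩ := nu_pos h hψ hl hl1
    have : δ ≤ sInf ((fun s => nu l1 ψ s lam) '' Sph 2) := by
      refine le_csInf ⟨_, ![1, 0], by simp [Sph], rfl⟩ ?_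
      rintro _ ⟨s, hs, rfl⟩
      refine le_trans ?_ (hpos s)
      refine le_mul_of_one_le_right hδ.le ?_
      simp only [Sph, Set.mem_ofPred_eq, Fin.sum_univ_two] at hs
      unfold l1
      rw [← sq_abs (s 0), ← sq_abs (s 1)] at hs
      nlinarith [abs_nonneg (s 0), abs_nonneg (s 1), mul_nonneg (abs_nonneg (s 0)) (abs_nonneg (s 1))]
    linarith
  rw [this]
  simp

lemma lamSat_eq (h : Admissible l1 ψ) (hψ : Summable ψ) {s : Fin 2 → ℝ} (h0 : 0 < s 0)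
    (h1 : 0 < s 1) : lamSat l1 ψ s = (C ψ 1 1)⁻¹ := by
  unfold lamSat
  rw [lamC_eq h]
  have hC := C_gt_one h hψ (b := 1) (by simp)
  have hs : s ≠ 0 := by
    intro h2
    rw [h2] at h0
    simp at h0
  have hl1s : l1 s = s 0 + s 1 := by rw [l1, abs_of_pos h0, abs_of_pos h1]
  have : {lam : ℝ | 0 < lam ∧ lam < 1 ∧ nu l1 ψ s lam = l1 s} = Set.Ioc 0 (C ψ 1 1)⁻¹ := by
    ext lam
    simp only [Set.mem_ofPred_eq, Set.mem_Ioc]
    refine and_congr_right fun hl => ?_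
    constructor
    · rintro ⟨hl1, h2⟩
      obtain ⟨a, b, ha, hb, hab, h3⟩ := dual2 h hψ hl hl1 hs
      rw [h2, hl1s] at h3
      have ha' := (abs_le.mp ha).2
      have hb' := (abs_le.mp hb).2
      have h4 : a = 1 := by nlinarith
      have h5 : b = 1 := by nlinarith
      rw [h4, h5] at hab
      rw [inv_eq_one_div, le_div_iff₀ (by linarith)]
      exact hab
    · intro h2
      have hl1 : lam < 1 := h2.trans_lt (inv_lt_one_of_one_lt₀ hC)
      refine ⟨hl1, le_antisymm (nu_le h l1_cont hl hl1 s) ?_⟩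
      rw [inv_eq_one_div, le_div_iff₀ (by linarith)] at h2
      have := nu_ge2 h hψ hl hl1 (a := 1) (b := 1) (by simp) (by simp) h2 s
      rw [hl1s]
      linarith
  rw [this, csSup_Ioc (by positivity)]

lemma nu_branch (h : Admissible l1 ψ) (hψ : Summable ψ)
    (hK : Summable (fun z : Lat 2 => ψ z * |(z 0 : ℝ)|)) {s : Fin 2 → ℝ} (h0 : 0 < s 0)
    (h1 : 0 < s 1)
    (hs : s 1 * (∑' z : Lat 2, ψ z * |(z 0 : ℝ)|) ≤ s 0 * (J l1 ψ ![0, 1] / 2))
    {τ : ℝ} (hτ : 1 / 2 ≤ τ) (hτ1 : τ ≤ 1) : nu l1 ψ s (C ψ 1 τ)⁻¹ = s 0 + τ * s 1 := by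
  have hτa : |τ| ≤ 1 := by rw [abs_le]; constructor <;> linarith
  have hC := C_gt_one h hψ hτa
  have hl : 0 < (C ψ 1 τ)⁻¹ := by positivity
  have hl1 : (C ψ 1 τ)⁻¹ < 1 := inv_lt_one_of_one_lt₀ hC
  have hs0 : s ≠ 0 := by
    intro h2
    rw [h2] at h0
    simp at h0
  refine le_antisymm ?_ ?_
  · obtain ⟨a, b, ha, hb, hab, h3⟩ := dual2 h hψ hl hl1 hs0
    rw [h3]
    have ha' := (abs_le.mp ha).2
    rcases le_total b τ with hbτ | hbτ
    · nlinarith
    rw [inv_mul_le_iff₀ (by linarith), mul_one] at hab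
    have h4 := C_lip h hψ hK ha hb
    have h5 := C_diff h hψ (a := 1) (b := τ) (b' := b) (by simp)
      (by rw [abs_of_nonneg (by linarith), abs_of_nonneg (by linarith)]; exact hbτ) hb
    have h6 := cosh_diff hτ hbτ
    have h7 := J01_pos h
    set K := ∑' z : Lat 2, ψ z * |(z 0 : ℝ)|
    set j := J l1 ψ ![0, 1]
    have h8 : j * ((b - τ) / 2) ≤ K * (1 - a) := by
      have := mul_le_mul_of_nonneg_left h6 h7.le
      linarith
    have h9 : j / 2 * (s 1 * (b - τ)) ≤ j / 2 * (s 0 * (1 - a)) := by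
      have h10 := mul_le_mul_of_nonneg_left h8 h1.le
      have h11 := mul_le_mul_of_nonneg_right hs (show 0 ≤ 1 - a by linarith)
      nlinarith
    have h10 := le_of_mul_le_mul_left h9 (by positivity)
    nlinarith
  · have := nu_ge2 h hψ hl hl1 (a := 1) (b := τ) (by simp) hτa
      (by rw [inv_mul_cancel₀ (by linarith)]) s
    linarith

theorem not_analytic (h : Admissible l1 ψ) (hψ : Summable ψ)
    (hK : Summable (fun z : Lat 2 => ψ z * |(z 0 : ℝ)|)) {s : Fin 2 → ℝ} (h0 : 0 < s 0)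
    (h1 : 0 < s 1)
    (hs : s 1 * (∑' z : Lat 2, ψ z * |(z 0 : ℝ)|) ≤ s 0 * (J l1 ψ ![0, 1] / 2)) :
    ∃ lam ∈ Set.Ioo (lamSat l1 ψ s) (lamExp l1 ψ), ¬ AnalyticAt ℝ (nu l1 ψ s) lam := by
  rw [lamSat_eq h hψ h0 h1, lamExp_eq h hψ]
  by_contra hcon
  push Not at hcon
  have hmem : ∀ τ ∈ Set.Ioo (-1 : ℝ) 1, (C ψ 1 τ)⁻¹ ∈ Set.Ioo (C ψ 1 1)⁻¹ 1 := by
    intro τ hτ
    have hτa : |τ| < 1 := abs_lt.mpr hτ
    have h2 := C_gt_one h hψ hτa.le
    exact ⟨inv_strictAnti₀ (by linarith) (C_lt h hψ hτa), inv_lt_one_of_one_lt₀ h2⟩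
  have han : AnalyticOnNhd ℝ (fun τ => nu l1 ψ s (C ψ 1 τ)⁻¹ - (s 0 + τ * s 1))
      (Set.Ioo (-1) 1) := by
    intro τ hτ
    have h2 := C_gt_one h hψ (abs_lt.mpr hτ).le
    have h3 : AnalyticAt ℝ (fun τ => (C ψ 1 τ)⁻¹) τ :=
      (C_analytic h hψ τ hτ).inv (by linarith)
    have h4 := AnalyticAt.comp (g := nu l1 ψ s) (f := fun τ => (C ψ 1 τ)⁻¹) (hcon _ (hmem τ hτ)) h3
    exact h4.sub (by fun_prop)
  have hz := han.eqOn_zero_of_preconnected_of_eventuallyEq_zero isPreconnected_Ioo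
    (z₀ := 3 / 4) (by constructor <;> norm_num) (by
      filter_upwards [Ioo_mem_nhds (show (1 : ℝ) / 2 < 3 / 4 by norm_num)
        (show (3 : ℝ) / 4 < 1 by norm_num)] with τ hτ
      rw [nu_branch h hψ hK h0 h1 hs hτ.1.le hτ.2.le]
      simp)
  have h2 := hz (show (1 / 2 : ℝ) ∈ Set.Ioo (-1) 1 by constructor <;> norm_num)
  have h3 := hz (show (-(1 / 2) : ℝ) ∈ Set.Ioo (-1) 1 by constructor <;> norm_num)
  simp only [C_neg h, Pi.zero_apply] at h2 h3
  linarith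

/-! ### an admissible prefactor -/

/-- the one-dimensional factor -/
noncomputable def p (n : ℤ) : ℝ := 1 / (1 + |(n : ℝ)|) ^ 3

lemma p_pos (n : ℤ) : 0 < p n := by unfold p; positivity

lemma sum_q : Summable (fun n : ℤ => 1 / (1 + |(n : ℝ)|) ^ 2) := by
  have h1 : Summable (fun n : ℕ => 1 / (1 + (n : ℝ)) ^ 2) := by
    have := (summable_nat_add_iff 1).mpr (Real.summable_one_div_nat_pow.mpr one_lt_two)
    simpa [add_comm] using this
  refine Summable.of_nat_of_neg ?_ ?_ <;> simpa using h1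

lemma sum_qq : Summable (fun z : Lat 2 => 1 / (1 + |(z 0 : ℝ)|) ^ 2 * (1 / (1 + |(z 1 : ℝ)|) ^ 2)) := by
  have h1 := sum_q.mul_of_nonneg sum_q (fun n => by positivity) (fun n => by positivity)
  have h2 := (finTwoArrowEquiv ℤ).summable_iff.mpr h1
  exact h2

lemma p_le (n : ℤ) : p n * (1 + |(n : ℝ)|) = 1 / (1 + |(n : ℝ)|) ^ 2 := by
  unfold p
  have : 0 < 1 + |(n : ℝ)| := by positivity
  field_simp

lemma sum_pp1 : Summable (fun z : Lat 2 => p (z 0) * p (z 1) * (1 + |(z 0 : ℝ)|)) := by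
  refine Summable.of_nonneg_of_le
    (fun z => mul_nonneg (mul_pos (p_pos _) (p_pos _)).le (by positivity)) (fun z => ?_) sum_qq
  rw [← p_le, ← p_le]
  have h1 := p_pos (z 0)
  have h2 := p_pos (z 1)
  have h3 : p (z 1) ≤ p (z 1) * (1 + |(z 1 : ℝ)|) :=
    le_mul_of_one_le_right h2.le (by linarith [abs_nonneg (z 1 : ℝ)])
  calc p (z 0) * p (z 1) * (1 + |(z 0 : ℝ)|) = p (z 0) * (1 + |(z 0 : ℝ)|) * p (z 1) := by ring
    _ ≤ _ := by gcongr

lemma sum_pp : Summable (fun z : Lat 2 => p (z 0) * p (z 1)) :=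
  Summable.of_nonneg_of_le (fun z => (mul_pos (p_pos _) (p_pos _)).le)
    (fun z => le_mul_of_one_le_right (mul_pos (p_pos _) (p_pos _)).le
      (by linarith [abs_nonneg (z 0 : ℝ)])) sum_pp1

lemma sum_ppK : Summable (fun z : Lat 2 => p (z 0) * p (z 1) * |(z 0 : ℝ)|) :=
  Summable.of_nonneg_of_le (fun z => mul_nonneg (mul_pos (p_pos _) (p_pos _)).le (abs_nonneg _))
    (fun z => mul_le_mul_of_nonneg_left (by linarith) (mul_pos (p_pos _) (p_pos _)).le) sum_pp1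

lemma l1_nonneg (u : Fin 2 → ℝ) : 0 ≤ l1 u := by unfold l1; positivity

lemma l1_cofinite : Tendsto (fun z : Lat 2 => l1 (toR z)) cofinite atTop := by
  rw [tendsto_atTop]
  intro b
  rw [eventually_cofinite]
  obtain ⟨n, hn⟩ := exists_nat_ge b
  refine (Fintype.piFinset (fun _ : Fin 2 => Finset.Icc (-(n : ℤ)) n)).finite_toSet.subset ?_
  intro z hz
  simp only [Set.mem_ofPred_eq, not_le, l1, toR] at hz
  simp only [Finset.mem_coe, Fintype.mem_piFinset, Finset.mem_Icc, ← abs_le]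
  have h0 : |z 0| ≤ n := by
    have : |(z 0 : ℝ)| ≤ n := by linarith [abs_nonneg (z 1 : ℝ)]
    exact_mod_cast this
  have h1 : |z 1| ≤ n := by
    have : |(z 1 : ℝ)| ≤ n := by linarith [abs_nonneg (z 0 : ℝ)]
    exact_mod_cast this
  intro i
  fin_cases i
  · exact h0
  · exact h1

lemma subexp_pp {c : ℝ} (hc : 0 < c) :
    Tendsto (fun z : Lat 2 => Real.log (c * (p (z 0) * p (z 1))) / l1 (toR z)) cofinite (𝓝 0) := by
  have h1 : Tendsto (fun r : ℝ => Real.log c / r) atTop (𝓝 0) := tendsto_const_nhds.div_atTop tendsto_id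
  have h2 : Tendsto (fun r : ℝ => Real.log (1 + r) / r) atTop (𝓝 0) := by
    have h3 := (Real.tendsto_pow_log_div_mul_add_atTop 1 (-1) 1 one_ne_zero).comp
      (tendsto_atTop_add_const_left atTop 1 tendsto_id)
    refine h3.congr fun r => ?_
    simp
  have h3 := (h1.sub (h2.const_mul 6)).comp l1_cofinite
  have h4 := h1.comp l1_cofinite
  rw [mul_zero, sub_zero] at h3
  refine tendsto_of_tendsto_of_tendsto_of_le_of_le h3 h4 (fun z => ?_) (fun z => ?_)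
  · simp only [Function.comp]
    rw [← mul_div_assoc, ← sub_div]
    refine div_le_div_of_nonneg_right ?_ (l1_nonneg _)
    rw [Real.log_mul hc.ne' (mul_pos (p_pos _) (p_pos _)).ne', Real.log_mul (p_pos _).ne' (p_pos _).ne']
    unfold p
    rw [one_div, one_div, Real.log_inv, Real.log_inv, Real.log_pow, Real.log_pow]
    have h5 : Real.log (1 + |(z 0 : ℝ)|) ≤ Real.log (1 + l1 (toR z)) :=
      Real.log_le_log (by positivity) (by simp [l1, toR])
    have h6 : Real.log (1 + |(z 1 : ℝ)|) ≤ Real.log (1 + l1 (toR z)) :=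
      Real.log_le_log (by positivity) (by simp [l1, toR])
    push_cast
    linarith
  · simp only [Function.comp]
    refine div_le_div_of_nonneg_right ?_ (l1_nonneg _)
    refine Real.log_le_log (mul_pos hc (mul_pos (p_pos _) (p_pos _))) ?_
    refine mul_le_of_le_one_right hc.le ?_
    have h5 : ∀ n, p n ≤ 1 := by
      intro n
      unfold p
      rw [div_le_one (by positivity)]
      exact one_le_pow₀ (by linarith [abs_nonneg (n : ℝ)])
    exact mul_le_one₀ (h5 _) (p_pos _).le (h5 _)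

lemma perm2 (σ : Equiv.Perm (Fin 2)) : (σ 0 = 0 ∧ σ 1 = 1) ∨ (σ 0 = 1 ∧ σ 1 = 0) := by
  revert σ
  decide

lemma abs_unit (ε : ℤˣ) : |((ε : ℤ) : ℝ)| = 1 := by
  rcases Int.units_eq_one_or ε with h | h <;> simp [h]

lemma p_unit (ε : ℤˣ) (n : ℤ) : p ((ε : ℤ) * n) = p n := by
  unfold p
  push_cast
  rw [abs_mul, abs_unit, one_mul]

lemma exists_admissible : ∃ c : ℝ, 0 < c ∧ Admissible l1 (fun z => c * (p (z 0) * p (z 1))) := by
  have hs : Summable (J l1 (fun z => p (z 0) * p (z 1))) := by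
    refine Summable.of_nonneg_of_le (fun z => ?_) (fun z => ?_) sum_pp
    · unfold J
      split_ifs
      · exact le_rfl
      · exact mul_nonneg (mul_pos (p_pos _) (p_pos _)).le (Real.exp_pos _).le
    · unfold J
      split_ifs
      · exact (mul_pos (p_pos _) (p_pos _)).le
      · refine mul_le_of_le_one_right (mul_pos (p_pos _) (p_pos _)).le ?_
        rw [Real.exp_le_one_iff, neg_nonpos]
        exact l1_nonneg _
  have hZ : 0 < ∑' z, J l1 (fun z => p (z 0) * p (z 1)) z := by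
    refine hs.tsum_pos (fun z => ?_) ![0, 1] ?_
    · unfold J
      split_ifs
      · exact le_rfl
      · exact mul_nonneg (mul_pos (p_pos _) (p_pos _)).le (Real.exp_pos _).le
    · unfold J
      rw [if_neg]
      · exact mul_pos (mul_pos (p_pos _) (p_pos _)) (Real.exp_pos _)
      · intro h1
        have := congrFun h1 1
        simp at this
  set Z := ∑' z, J l1 (fun z => p (z 0) * p (z 1)) z with hZdef
  refine ⟨Z⁻¹, inv_pos.mpr hZ, ?_⟩
  constructor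
  · intro u v
    simp only [l1, Pi.add_apply]
    linarith [abs_add_le (u 0) (v 0), abs_add_le (u 1) (v 1)]
  · intro c u
    simp only [l1, Pi.smul_apply, smul_eq_mul, abs_mul]
    ring
  · intro u hu
    by_contra hcon
    apply hu
    unfold l1 at hcon
    have h0 : |u 0| = 0 := by linarith [abs_nonneg (u 0), abs_nonneg (u 1)]
    have h1 : |u 1| = 0 := by linarith [abs_nonneg (u 0), abs_nonneg (u 1)]
    funext i
    fin_cases i
    · exact abs_eq_zero.mp h0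
    · exact abs_eq_zero.mp h1
  · intro σ ε u
    simp only [l1, abs_mul, abs_unit, one_mul]
    rcases perm2 σ with ⟨h0, h1⟩ | ⟨h0, h1⟩ <;> rw [h0, h1]
    ring
  · intro y
    exact (mul_pos (inv_pos.mpr hZ) (mul_pos (p_pos _) (p_pos _))).le
  · intro y _
    exact mul_pos (inv_pos.mpr hZ) (mul_pos (p_pos _) (p_pos _))
  · exact subexp_pp (inv_pos.mpr hZ)
  · intro σ ε y
    simp only [p_unit]
    rcases perm2 σ with ⟨h0, h1⟩ | ⟨h0, h1⟩ <;> rw [h0, h1]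
    ring
  · have h1 := hs.hasSum.mul_left Z⁻¹
    rw [← hZdef, inv_mul_cancel₀ hZ.ne'] at h1
    have e : J l1 (fun z => Z⁻¹ * (p (z 0) * p (z 1))) =
        fun z => Z⁻¹ * J l1 (fun z => p (z 0) * p (z 1)) z := by
      funext z
      unfold J
      split_ifs
      · simp
      · ring
    rw [e]
    exact h1

lemma exists_dir {K j : ℝ} (hK : 0 ≤ K) (hj : 0 < j) :
    ∃ s ∈ Sph 2, 0 < s 0 ∧ 0 < s 1 ∧ s 1 * K ≤ s 0 * j := by
  set r := Real.sqrt ((K + 1) ^ 2 + j ^ 2) with hr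
  have hr0 : 0 < r := Real.sqrt_pos.mpr (by positivity)
  have hr2 : r ^ 2 = (K + 1) ^ 2 + j ^ 2 := Real.sq_sqrt (by positivity)
  refine ⟨![(K + 1) / r, j / r], ?_, ?_, ?_, ?_⟩
  · simp only [Sph, Set.mem_ofPred_eq, Fin.sum_univ_two, Matrix.cons_val_zero, Matrix.cons_val_one]
    field_simp
    linarith
  · simp only [Matrix.cons_val_zero]
    positivity
  · simp only [Matrix.cons_val_one, Matrix.cons_val_zero]
    positivity
  · simp only [Matrix.cons_val_one, Matrix.cons_val_zero]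
    rw [div_mul_eq_mul_div, div_mul_eq_mul_div]
    refine div_le_div_of_nonneg_right ?_ hr0.le
    nlinarith

theorem main : ∃ (N : (Fin 2 → ℝ) → ℝ) (ψ : Lat 2 → ℝ), (∀ u, N u = |u 0| + |u 1|) ∧
    (∃ c : ℝ, ∀ z, ψ z = c / ((1 + |(z 0 : ℝ)|) ^ 3 * (1 + |(z 1 : ℝ)|) ^ 3)) ∧ Admissible N ψ ∧
    lamC N ψ = 1 ∧ lamExp N ψ = 1 ∧
    (∀ lam : ℝ, 0 < lam → lam < lamC N ψ → ∀ u : Fin 2 → ℝ,
      (∀ n : ℕ, 0 < G N ψ lam 0 (latPt u n) ∧ G N ψ lam 0 (latPt u n) < ⊤) ∧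
      Tendsto (rate N ψ lam u) atTop (𝓝 (nu N ψ u lam))) ∧
    ∃ s ∈ Sph 2, 0 < lamSat N ψ s ∧
      ∃ lam ∈ Set.Ioo (lamSat N ψ s) (lamExp N ψ), ¬ AnalyticAt ℝ (nu N ψ s) lam := by
  obtain ⟨c, hc, h⟩ := exists_admissible
  have hψ : Summable (fun z : Lat 2 => c * (p (z 0) * p (z 1))) := sum_pp.mul_left c
  have hK : Summable (fun z : Lat 2 => c * (p (z 0) * p (z 1)) * |(z 0 : ℝ)|) := by
    simpa only [mul_assoc] using sum_ppK.mul_left c
  refine ⟨l1, _, fun u => rfl, ⟨c, fun z => ?_⟩, h, lamC_eq h, lamExp_eq h hψ, ?_, ?_⟩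
  · simp only [p]
    field_simp
  · intro lam hl hl1 u
    rw [lamC_eq h] at hl1
    refine ⟨fun n => ⟨?_, (G_ne_top h hl.le hl1 _).lt_top⟩, tendsto_rate h hl hl1 u⟩
    exact (ENNReal.toReal_pos_iff.mp (g_pos h hl hl1 _)).1
  · obtain ⟨s, hs, h0, h1, h2⟩ := exists_dir
      (K := ∑' z : Lat 2, c * (p (z 0) * p (z 1)) * |(z 0 : ℝ)|)
      (tsum_nonneg fun z => mul_nonneg (h.psi_nonneg z) (abs_nonneg _))
      (half_pos (J01_pos h))
    refine ⟨s, hs, ?_, not_analytic h hψ hK h0 h1 h2⟩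
    rw [lamSat_eq h hψ h0 h1]
    have := C_gt_one h hψ (b := 1) (by simp)
    positivity

end Pool.Agent.H221Z.KRW
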