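import Mathlib

set_option autoImplicit false

/-!
Definitions for the killed random walk with exponentially decaying long range couplings.
-/

open Filter Topology
open scoped ENNReal

namespace Pool.Agent.H221Z.KRW

/-- The lattice `ℤ^d`. -/
abbrev Lat (d : ℕ) : Type := Fin d → ℤ

/-- A lattice point seen as a point of `ℝ^d`. -/
def toR {d : ℕ} (x : Lat d) : Fin d → ℝ := fun i => (x i : ℝ)

/-- The couplings `J_{ij} = J (i - j)`, with `J x = ψ x * exp (-|x|)` for `x ≠ 0` and `J 0 = 0`. -/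
noncomputable def J {d : ℕ} (N : (Fin d → ℝ) → ℝ) (ψ : Lat d → ℝ) (x : Lat d) : ℝ :=
  if x = 0 then 0 else ψ x * Real.exp (-N (toR x))

/-- The standing assumptions: `N` is a norm on `ℝ^d`, `ψ ≥ 0` is positive off the origin and
subexponential, both are invariant under the lattice symmetries (permutations and sign changes of
the coordinates), and the couplings sum to one. -/
structure Admissible {d : ℕ} (N : (Fin d → ℝ) → ℝ) (ψ : Lat d → ℝ) : Prop where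
  norm_add : ∀ u v, N (u + v) ≤ N u + N v
  norm_smul : ∀ (c : ℝ) u, N (c • u) = |c| * N u
  norm_pos : ∀ u, u ≠ 0 → 0 < N u
  norm_symm : ∀ (σ : Equiv.Perm (Fin d)) (ε : Fin d → ℤˣ) (u : Fin d → ℝ),
    N (fun i => ((ε i : ℤ) : ℝ) * u (σ i)) = N u
  psi_nonneg : ∀ y, 0 ≤ ψ y
  psi_pos : ∀ y, y ≠ 0 → 0 < ψ y
  psi_subexp : Tendsto (fun y => Real.log (ψ y) / N (toR y)) cofinite (𝓝 0)
  psi_symm : ∀ (σ : Equiv.Perm (Fin d)) (ε : Fin d → ℤˣ) (y : Lat d),
    ψ (fun i => (ε i : ℤ) * y (σ i)) = ψ y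
  normalised : HasSum (J N ψ) 1

/-- The two-point function of the killed random walk: the sum, over all finite walks
`γ = (γ_0, …, γ_n)` from `x` to `y`, of the product of the weights `lam * J (γ_{i-1} - γ_i)`. -/
noncomputable def G {d : ℕ} (N : (Fin d → ℝ) → ℝ) (ψ : Lat d → ℝ) (lam : ℝ) (x y : Lat d) :
    ℝ≥0∞ :=
  ∑' n : ℕ, ∑' γ : Fin (n + 1) → Lat d,
    if γ 0 = x ∧ γ (Fin.last n) = y then
      ∏ i : Fin n, ENNReal.ofReal (lam * J N ψ (γ i.castSucc - γ i.succ))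
    else 0

/-- The critical value: the supremum of the `lam ≥ 0` with finite susceptibility. -/
noncomputable def lamC {d : ℕ} (N : (Fin d → ℝ) → ℝ) (ψ : Lat d → ℝ) : ℝ :=
  sSup {lam : ℝ | 0 ≤ lam ∧ ∑' x : Lat d, G N ψ lam 0 x < ∞}

/-- The lattice point `z` with `n • s ∈ z + [-1/2, 1/2)^d`. -/
noncomputable def latPt {d : ℕ} (s : Fin d → ℝ) (n : ℕ) : Lat d :=
  fun i => ⌊(n : ℝ) * s i + 1 / 2⌋

/-- The sequence `-(1/n) log G_lam (0, n s)`. -/
noncomputable def rate {d : ℕ} (N : (Fin d → ℝ) → ℝ) (ψ : Lat d → ℝ) (lam : ℝ)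
    (s : Fin d → ℝ) (n : ℕ) : ℝ :=
  -(Real.log (G N ψ lam 0 (latPt s n)).toReal / n)

/-- The inverse correlation length: the limit of `rate`. -/
noncomputable def nu {d : ℕ} (N : (Fin d → ℝ) → ℝ) (ψ : Lat d → ℝ) (s : Fin d → ℝ)
    (lam : ℝ) : ℝ :=
  limUnder atTop (rate N ψ lam s)

/-- The Euclidean unit sphere. -/
def Sph (d : ℕ) : Set (Fin d → ℝ) := {s | ∑ i, s i ^ 2 = 1}

/-- `lam_exp = min (lam_c, inf {lam : inf_s nu_s (lam) = 0})`. -/
noncomputable def lamExp {d : ℕ} (N : (Fin d → ℝ) → ℝ) (ψ : Lat d → ℝ) : ℝ :=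
  sInf (insert (lamC N ψ)
    {lam : ℝ | 0 < lam ∧ lam < lamC N ψ ∧ sInf ((fun s => nu N ψ s lam) '' Sph d) = 0})

/-- `lam_sat (s) = sup {lam : nu_s (lam) = |s|}`. -/
noncomputable def lamSat {d : ℕ} (N : (Fin d → ℝ) → ℝ) (ψ : Lat d → ℝ) (s : Fin d → ℝ) : ℝ :=
  sSup {lam : ℝ | 0 < lam ∧ lam < lamC N ψ ∧ nu N ψ s lam = N s}

end Pool.Agent.H221Z.KRW
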