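import Mathlib

set_option autoImplicit false

open Filter Topology
open scoped ENNReal

namespace Pool.Agent.H221Z.MBasis

variable (𝕜 : Type) [RCLike 𝕜]

abbrev X : Type := lp (fun _ : ℕ => 𝕜) ∞
abbrev Gam : Type := {y : X 𝕜 // ‖y‖ ≤ 1}
abbrev Idx : Type := Gam 𝕜 × ℕ
abbrev L : Type := lp (fun _ : Idx 𝕜 => 𝕜) 1
abbrev E : Type := X 𝕜 × L 𝕜

variable {𝕜}

noncomputable instance decIdx : DecidableEq (Idx 𝕜) := Classical.decEq _

noncomputable def e (i : Idx 𝕜) (a : 𝕜) : L 𝕜 := lp.single 1 i a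

noncomputable def u (k : ℕ) (a : 𝕜) : X 𝕜 := lp.single ∞ k a

noncomputable def r (n : ℕ) (y : X 𝕜) : X 𝕜 := y - ∑ k ∈ Finset.range n, u k (y k)

lemma r_apply (n : ℕ) (y : X 𝕜) (k : ℕ) : r n y k = if k < n then 0 else y k := by
  unfold r u
  rw [lp.coeFn_sub, Pi.sub_apply, lp.coeFn_sum, Finset.sum_apply]
  simp only [lp.single_apply, Pi.single_apply]
  rw [Finset.sum_ite_eq]
  simp only [Finset.mem_range]
  split_ifs <;> simp

lemma summ (z : L 𝕜) : Summable (fun i => ‖z i‖) := by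
  simpa using (lp.memℓp z).summable (by simp)

lemma norm_L (z : L 𝕜) : ∑' i, ‖z i‖ = ‖z‖ := by
  have := (lp.hasSum_norm (by simp) z).tsum_eq
  simpa using this

lemma summ2 (c : Idx 𝕜 → 𝕜) (C : ℝ) (hc : ∀ i, ‖c i‖ ≤ C) (z : L 𝕜) :
    Summable (fun i => ‖c i * z i‖) := by
  refine Summable.of_nonneg_of_le (fun i => norm_nonneg _) (fun i => ?_) ((summ z).mul_left C)
  rw [norm_mul]
  exact mul_le_mul_of_nonneg_right (hc i) (norm_nonneg _)

noncomputable def pair (c : Idx 𝕜 → 𝕜) (C : ℝ) (hc : ∀ i, ‖c i‖ ≤ C) : L 𝕜 →L[𝕜] 𝕜 :=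
  LinearMap.mkContinuous
    { toFun := fun z => ∑' i, c i * z i
      map_add' := fun z w => by
        rw [← (summ2 c C hc z).of_norm.tsum_add (summ2 c C hc w).of_norm]
        congr 1
        funext i
        simp [mul_add]
      map_smul' := fun a z => by
        simp only [RingHom.id_apply, smul_eq_mul]
        rw [← tsum_mul_left]
        congr 1
        funext i
        simp only [lp.coeFn_smul, Pi.smul_apply, smul_eq_mul]
        ring } C (fun z => by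
      refine (norm_tsum_le_tsum_norm (summ2 c C hc z)).trans ?_
      rw [← norm_L, ← tsum_mul_left]
      refine (summ2 c C hc z).tsum_le_tsum (fun i => ?_) ((summ z).mul_left C)
      rw [norm_mul]
      exact mul_le_mul_of_nonneg_right (hc i) (norm_nonneg _))

lemma e_self (i : Idx 𝕜) (a : 𝕜) : e i a i = a := by
  unfold e
  exact lp.single_apply_self _ _ _

lemma e_ne {i j : Idx 𝕜} (h : j ≠ i) (a : 𝕜) : e i a j = 0 := by
  unfold e
  exact lp.single_apply_ne _ _ _ h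

lemma pair_e (c : Idx 𝕜 → 𝕜) (C : ℝ) (hc : ∀ i, ‖c i‖ ≤ C) (i : Idx 𝕜) (a : 𝕜) :
    pair c C hc (e i a) = c i * a := by
  show ∑' j, c j * e i a j = c i * a
  rw [tsum_eq_single i (fun j hj => by rw [e_ne hj, mul_zero]), e_self]

noncomputable def cf (k : ℕ) (i : Idx 𝕜) : 𝕜 := ((i.2 : 𝕜) + 1) * r i.2 i.1.1 k

lemma cf_le (k : ℕ) (i : Idx 𝕜) : ‖cf k i‖ ≤ (k : ℝ) + 1 := by
  unfold cf
  rw [r_apply]
  split_ifs with h
  · simp only [mul_zero, norm_zero]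
    positivity
  · rw [norm_mul]
    have h1 : ‖((i.2 : 𝕜) + 1)‖ ≤ (k : ℝ) + 1 := by
      refine (norm_add_le _ _).trans ?_
      rw [RCLike.norm_natCast, norm_one]
      have : (i.2 : ℝ) ≤ k := by exact_mod_cast not_lt.mp h
      linarith
    have h2 : ‖i.1.1 k‖ ≤ 1 := (lp.norm_apply_le_norm (by simp) _ _).trans i.1.2
    calc _ ≤ ((k : ℝ) + 1) * 1 := mul_le_mul h1 h2 (norm_nonneg _) (by positivity)
      _ = _ := mul_one _

noncomputable def xs : ℕ ⊕ Idx 𝕜 → E 𝕜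
  | Sum.inl k => (u k 1, 0)
  | Sum.inr i => (r i.2 i.1.1, e i ((i.2 : 𝕜) + 1)⁻¹)

noncomputable def fs : ℕ ⊕ Idx 𝕜 → (E 𝕜 →L[𝕜] 𝕜)
  | Sum.inl k => (lp.evalCLM 𝕜 (fun _ : ℕ => 𝕜) ∞ k).comp (ContinuousLinearMap.fst 𝕜 _ _) -
      (pair (cf k) _ (cf_le k)).comp (ContinuousLinearMap.snd 𝕜 _ _)
  | Sum.inr i => ((i.2 : 𝕜) + 1) •
      (lp.evalCLM 𝕜 (fun _ : Idx 𝕜 => 𝕜) 1 i).comp (ContinuousLinearMap.snd 𝕜 _ _)

lemma fs_inl (k : ℕ) (v : E 𝕜) : fs (Sum.inl k) v = v.1 k - pair (cf k) _ (cf_le k) v.2 := rfl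

lemma fs_inr (i : Idx 𝕜) (v : E 𝕜) : fs (Sum.inr i) v = ((i.2 : 𝕜) + 1) * v.2 i := rfl

lemma np (n : ℕ) : ((n : 𝕜) + 1) ≠ 0 := by
  exact_mod_cast Nat.succ_ne_zero n

lemma bi_self (j : ℕ ⊕ Idx 𝕜) : fs j (xs j) = 1 := by
  rcases j with k | i
  · rw [fs_inl]
    simp [xs, u]
  · rw [fs_inr]
    simp only [xs, e_self]
    exact mul_inv_cancel₀ (np _)

lemma bi_ne (i j : ℕ ⊕ Idx 𝕜) (h : i ≠ j) : fs j (xs i) = 0 := by
  rcases j with k | j
  · rw [fs_inl]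
    rcases i with l | i
    · have : k ≠ l := fun h1 => h (by rw [h1])
      simp [xs, u, Pi.single_eq_of_ne this]
    · simp only [xs, pair_e, cf]
      rw [mul_assoc, mul_comm (r _ _ k), ← mul_assoc, mul_inv_cancel₀ (np _), one_mul, sub_self]
  · rw [fs_inr]
    rcases i with l | i
    · simp [xs]
    · have : j ≠ i := fun h1 => h (by rw [h1])
      simp only [xs, e_ne this, mul_zero]

lemma total (v : E 𝕜) (h : ∀ j, fs j v = 0) : v = 0 := by
  have h2 : v.2 = 0 := by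
    ext i
    have := h (Sum.inr i)
    rw [fs_inr] at this
    simpa using (mul_eq_zero.mp this).resolve_left (np _)
  have h1 : v.1 = 0 := by
    ext k
    have := h (Sum.inl k)
    rw [fs_inl, h2, map_zero, sub_zero] at this
    simpa using this
  exact Prod.ext h1 h2

lemma u_smul (k : ℕ) (a : 𝕜) : u k a = a • u k 1 := by
  unfold u
  rw [← lp.single_smul]
  simp

lemma dense_span : (Submodule.span 𝕜 (Set.range (xs (𝕜 := 𝕜)))).topologicalClosure = ⊤ := by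
  set S := (Submodule.span 𝕜 (Set.range (xs (𝕜 := 𝕜)))).topologicalClosure with hS
  have hcl : IsClosed (S : Set (E 𝕜)) := Submodule.isClosed_topologicalClosure _
  have hx : ∀ j, xs j ∈ S := fun j =>
    Submodule.le_topologicalClosure _ (Submodule.subset_span ⟨j, rfl⟩)
  have hu : ∀ k a, ((u k a, 0) : E 𝕜) ∈ S := by
    intro k a
    have := S.smul_mem a (hx (Sum.inl k))
    simpa [xs, ← u_smul] using this
  have hsum : ∀ (n : ℕ) (y : X 𝕜), ((∑ k ∈ Finset.range n, u k (y k), 0) : E 𝕜) ∈ S := by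
    intro n y
    have := S.sum_mem (fun k (_ : k ∈ Finset.range n) => hu k (y k))
    rwa [← prod_mk_sum, Finset.sum_const_zero] at this
  have h1 : ∀ (g : Gam 𝕜) (n : ℕ), ((g.1, e (g, n) ((n : 𝕜) + 1)⁻¹) : E 𝕜) ∈ S := by
    intro g n
    have := S.add_mem (hx (Sum.inr (g, n))) (hsum n g.1)
    simpa [xs, r] using this
  have h2 : ∀ g : Gam 𝕜, ((g.1, 0) : E 𝕜) ∈ S := by
    intro g
    refine hcl.mem_of_tendsto (b := atTop)
      (f := fun n : ℕ => ((g.1, e (g, n) ((n : 𝕜) + 1)⁻¹) : E 𝕜)) ?_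
      (Eventually.of_forall (h1 g))
    refine tendsto_const_nhds.prodMk_nhds ?_
    rw [tendsto_zero_iff_norm_tendsto_zero]
    refine tendsto_one_div_add_atTop_nhds_zero_nat.congr fun n => ?_
    unfold e
    rw [lp.norm_single (by simp), norm_inv, one_div]
    congr 1
    have : ((n : 𝕜) + 1) = ((n + 1 : ℕ) : 𝕜) := by push_cast; rfl
    rw [this, RCLike.norm_natCast]
    push_cast
    rfl
  have h3 : ∀ y : X 𝕜, ((y, 0) : E 𝕜) ∈ S := by
    intro y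
    have hp : (0 : ℝ) < ‖y‖ + 1 := by positivity
    have hy : ‖(((‖y‖ + 1 : ℝ) : 𝕜))⁻¹ • y‖ ≤ 1 := by
      rw [norm_smul, norm_inv, RCLike.norm_ofReal, abs_of_pos hp, inv_mul_le_iff₀ hp]
      linarith
    have := S.smul_mem ((‖y‖ + 1 : ℝ) : 𝕜) (h2 ⟨_, hy⟩)
    have hne : ((‖y‖ + 1 : ℝ) : 𝕜) ≠ 0 := by exact_mod_cast hp.ne'
    rwa [Prod.smul_mk, smul_smul, mul_inv_cancel₀ hne, one_smul, smul_zero] at this
  have h4 : ∀ (i : Idx 𝕜) (a : 𝕜), ((0, e i a) : E 𝕜) ∈ S := by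
    rintro ⟨g, n⟩ a
    have h5 := S.smul_mem (a * ((n : 𝕜) + 1)) (S.sub_mem (h1 g n) (h2 g))
    have e1 : (a * ((n : 𝕜) + 1)) • e (g, n) ((n : 𝕜) + 1)⁻¹ = e (g, n) a := by
      unfold e
      rw [← lp.single_smul, smul_eq_mul, mul_assoc, mul_inv_cancel₀ (np n), mul_one]
    simpa [e1] using h5
  have h5 : ∀ z : L 𝕜, ((0, z) : E 𝕜) ∈ S := by
    intro z
    have h6 := (lp.hasSum_single (p := 1) (by simp) z).mapL (ContinuousLinearMap.inr 𝕜 (X 𝕜) (L 𝕜))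
    refine hcl.mem_of_tendsto h6 (Eventually.of_forall fun s => ?_)
    refine S.sum_mem fun i _ => ?_
    exact h4 i (z i)
  rw [eq_top_iff]
  rintro ⟨y, z⟩ _
  simpa using S.add_mem (h3 y) (h5 z)

lemma sub_linf : ∃ G : Submodule 𝕜 (E 𝕜), IsClosed (G : Set (E 𝕜)) ∧ Nonempty (G ≃L[𝕜] X 𝕜) := by
  refine ⟨LinearMap.ker (ContinuousLinearMap.snd 𝕜 (X 𝕜) (L 𝕜)).toLinearMap,
    (ContinuousLinearMap.snd 𝕜 (X 𝕜) (L 𝕜)).isClosed_ker, ⟨?_⟩⟩
  exact
    { toFun := fun v => v.1.1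
      map_add' := fun _ _ => rfl
      map_smul' := fun _ _ => rfl
      invFun := fun y => ⟨(y, 0), rfl⟩
      left_inv := fun v => Subtype.ext (Prod.ext rfl (v.2 : v.1.2 = 0).symm)
      right_inv := fun _ => rfl
      continuous_toFun := continuous_fst.comp continuous_subtype_val
      continuous_invFun := (continuous_id.prodMk continuous_const).subtype_mk _ }

theorem main (𝕜 : Type) [RCLike 𝕜] :
    ∃ (E : Type) (_ : NormedAddCommGroup E) (_ : NormedSpace 𝕜 E) (_ : CompleteSpace E)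
      (I : Type) (x : I → E) (f : I → E →L[𝕜] 𝕜),
      (∀ i, f i (x i) = 1) ∧ (∀ i j, i ≠ j → f j (x i) = 0) ∧
      (∀ v : E, (∀ i, f i v = 0) → v = 0) ∧
      (Submodule.span 𝕜 (Set.range x)).topologicalClosure = ⊤ ∧
      ∃ G : Submodule 𝕜 E, IsClosed (G : Set E) ∧
        Nonempty (G ≃L[𝕜] lp (fun _ : ℕ => 𝕜) ∞) :=
  ⟨E 𝕜, inferInstance, inferInstance, inferInstance, ℕ ⊕ Idx 𝕜, xs, fs, bi_self, bi_ne, total,
    dense_span, sub_linf⟩

end Pool.Agent.H221Z.MBasis
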